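import Pool.Agent.CritPer.L.Dom

open Set Filter Topology Polynomial MeasureTheory

namespace Pool.Agent.CritPer.L

variable {S : ℝ[X]} {n : ℕ} {κ : ℝ}

theorem surrounds_crv (h : Bar S n κ) {b : ℝ} (hb : 0 < b) : Surrounds (range (crv S n b)) := by
  have hb2 : 0 < b ^ 2 := by positivity
  constructor
  · intro h0
    rw [mem_range_crv h hb] at h0
    have h1 := vs_pos h hb2 (u := 0) ⟨le_rfl, hb2⟩
    have h2 := h0.2
    simp only [Prod.fst_zero, Prod.snd_zero] at h2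
    rw [zero_pow two_ne_zero] at h2
    linarith
  · obtain ⟨G, hG⟩ : ∃ G : ℝ × ℝ → ℝ, G = fun z => vs S n (b ^ 2) (min (z.1 ^ 2) (b ^ 2)) :=
      ⟨_, rfl⟩
    have hGc : Continuous G := by
      rw [hG]
      refine (vs_continuousOn h hb2).comp_continuous (by fun_prop) ?_
      intro z
      exact ⟨le_min (sq_nonneg _) hb2.le, min_le_right _ _⟩
    have hGe : ∀ z : ℝ × ℝ, z.1 ^ 2 ≤ b ^ 2 → G z = vs S n (b ^ 2) (z.1 ^ 2) := by
      intro z hz
      rw [hG]
      simp only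
      rw [min_eq_left hz]
    obtain ⟨D, hD⟩ : ∃ D : Set (ℝ × ℝ), D = {z | z.1 ^ 2 < b ^ 2 ∧ z.2 ^ 2 < G z} := ⟨_, rfl⟩
    have hc1 : Continuous (fun z : ℝ × ℝ => z.1 ^ 2) := by fun_prop
    have hc2 : Continuous (fun z : ℝ × ℝ => z.2 ^ 2) := by fun_prop
    have hDo : IsOpen D := by
      rw [hD]
      exact IsOpen.inter (isOpen_lt hc1 continuous_const) (isOpen_lt hc2 hGc)
    have hEc : IsClosed {z : ℝ × ℝ | z.1 ^ 2 ≤ b ^ 2 ∧ z.2 ^ 2 ≤ G z} :=
      IsClosed.inter (isClosed_le hc1 continuous_const) (isClosed_le hc2 hGc)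
    have hDE : closure D ⊆ {z : ℝ × ℝ | z.1 ^ 2 ≤ b ^ 2 ∧ z.2 ^ 2 ≤ G z} := by
      refine closure_minimal ?_ hEc
      intro z hz
      rw [hD] at hz
      exact ⟨hz.1.le, hz.2.le⟩
    have h0D : (0 : ℝ × ℝ) ∈ D := by
      rw [hD]
      refine ⟨by simpa using hb2, ?_⟩
      rw [hGe 0 (by simpa using hb2.le)]
      have h1 := vs_pos h hb2 (u := 0) ⟨le_rfl, hb2⟩
      simpa using h1
    have hsub : connectedComponentIn (range (crv S n b))ᶜ (0 : ℝ × ℝ) ⊆ D := by
      rcases eq_or_ne (connectedComponentIn (range (crv S n b))ᶜ (0 : ℝ × ℝ)) ∅ with he | he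
      · rw [he]
        exact empty_subset _
      have hne : (0 : ℝ × ℝ) ∈ (range (crv S n b))ᶜ := by
        by_contra hcon
        exact he (connectedComponentIn_eq_empty hcon)
      refine isPreconnected_connectedComponentIn.subset_of_closure_inter_subset hDo
        ⟨0, mem_connectedComponentIn hne, h0D⟩ ?_
      rintro z ⟨hz1, hz2⟩
      have hz3 := hDE hz1
      have hz4 : z ∉ range (crv S n b) := connectedComponentIn_subset _ _ hz2
      rw [mem_range_crv h hb] at hz4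
      have h5 : z.2 ^ 2 ≤ vs S n (b ^ 2) (z.1 ^ 2) := by
        rw [← hGe z hz3.1]
        exact hz3.2
      have h6 : z.2 ^ 2 < vs S n (b ^ 2) (z.1 ^ 2) := lt_of_le_of_ne h5 fun he => hz4 ⟨hz3.1, he⟩
      rw [hD]
      refine ⟨lt_of_le_of_ne hz3.1 fun he => ?_, ?_⟩
      · rw [he, vs_self h hb2] at h6
        exact absurd h6 (not_lt.2 (sq_nonneg _))
      · rw [hGe z hz3.1]
        exact h6
    refine (Metric.isBounded_closedBall (x := (0 : ℝ × ℝ)) (r := b + Real.sqrt (κ * b ^ 2))).subset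
      (hsub.trans ?_)
    intro z hz
    rw [hD] at hz
    have h1 : |z.1| ≤ b := abs_le_of_sq_le_sq hz.1.le hb.le
    have h2 : |z.2| ≤ Real.sqrt (κ * b ^ 2) := by
      refine Real.abs_le_sqrt ?_
      refine hz.2.le.trans ?_
      rw [hGe z hz.1.le]
      exact vs_le h hb2 ⟨sq_nonneg _, hz.1.le⟩
    rw [mem_closedBall_zero_iff, Prod.norm_def]
    refine max_le ?_ ?_
    · rw [Real.norm_eq_abs]
      linarith [Real.sqrt_nonneg (κ * b ^ 2)]
    · rw [Real.norm_eq_abs]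
      linarith

/-- A periodic orbit surrounding the origin meets the positive half of the first axis. -/
theorem Surrounds.meets {A : Set (ℝ × ℝ)} (hA : Surrounds A) : ∃ b : ℝ, 0 < b ∧ (b, 0) ∈ A := by
  by_contra hcon
  push Not at hcon
  have hR : IsPreconnected ((fun t : ℝ => ((t, 0) : ℝ × ℝ)) '' Ici 0) :=
    isPreconnected_Ici.image _ (by fun_prop)
  have hsub : ((fun t : ℝ => ((t, 0) : ℝ × ℝ)) '' Ici 0) ⊆ Aᶜ := by
    rintro _ ⟨t, ht, rfl⟩
    rcases (mem_Ici.1 ht).eq_or_lt with h0 | h0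
    · simp only [← h0]
      exact hA.1
    · exact hcon t h0
  have h0 : (0 : ℝ × ℝ) ∈ ((fun t : ℝ => ((t, 0) : ℝ × ℝ)) '' Ici 0) :=
    ⟨0, mem_Ici.2 le_rfl, rfl⟩
  have hb := hA.2.subset (hR.subset_connectedComponentIn h0 hsub)
  obtain ⟨M, hM⟩ := hb.exists_norm_le
  have h1 := hM (|M| + 1, 0) ⟨|M| + 1, mem_Ici.2 (by positivity), rfl⟩
  rw [Prod.norm_def] at h1
  have h2 := (le_max_left _ _).trans h1
  simp only [Real.norm_eq_abs] at h2
  have h3 := le_abs_self (|M| + 1)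
  have h4 := le_abs_self M
  linarith

/-- the orbit of a point of `range (crv S n b)` -/
private theorem cen_orbit (h : Bar S n κ) (k : ℕ) {b : ℝ} (hb : 0 < b) {z : ℝ × ℝ}
    (hz : z ∈ range (crv S n b)) :
    ∃ γ : ℝ → ℝ × ℝ, IsPerSol (vf (PL k) (QL S n k)) γ ∧ γ 0 = z ∧
      range γ = range (crv S n b) ∧ (b, 0) ∈ range γ := by
  obtain ⟨δ, hδ, hδ0, hδr, hδp, hT, hδm⟩ := exists_orbit h k hb
  rw [← hδr] at hz
  obtain ⟨s, hs⟩ := hz
  have hran : range (fun t => δ (t + s)) = range δ := by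
    ext w
    constructor
    · rintro ⟨t, rfl⟩
      exact ⟨t + s, rfl⟩
    · rintro ⟨t, rfl⟩
      refine ⟨t - s, ?_⟩
      simp only
      rw [sub_add_cancel]
  refine ⟨fun t => δ (t + s), ⟨hδ.shift s, ⟨Ts S n k (b ^ 2), hT, fun t => ?_⟩, ?_⟩, ?_, ?_, ?_⟩
  · simp only
    rw [show t + Ts S n k (b ^ 2) + s = (t + s) + Ts S n k (b ^ 2) by ring, hδp]
  · by_contra hcon
    push Not at hcon
    have hc : ∀ t, δ t = δ s := by
      intro t
      have := hcon (t - s)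
      simpa using this
    have h1 : δ (Ts S n k (b ^ 2) / 2) = δ 0 := by rw [hc, hc 0]
    obtain ⟨m, hm⟩ := hδm _ h1
    have h2 : ((m : ℝ) - 1 / 2) * Ts S n k (b ^ 2) = 0 := by linarith
    rcases mul_eq_zero.1 h2 with h3 | h3
    · have h4 : (2 * m : ℝ) = 1 := by linarith
      have h5 : (2 * m : ℤ) = 1 := by exact_mod_cast h4
      omega
    · exact hT.ne' h3
  · simp only
    rw [zero_add, hs]
  · rw [hran, hδr]
  · rw [hran]
    exact ⟨0, hδ0⟩

theorem cyc_L (h : Bar S n κ) (k : ℕ) :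
    insert 0 (cyc (vf (PL k) (QL S n k))) = Dom S n := by
  ext z
  constructor
  · rintro (rfl | ⟨γ, hγ, hγ0, hγs⟩)
    · exact zero_mem_Dom h
    · by_cases hz : z = 0
      · rw [hz]
        exact zero_mem_Dom h
      rw [mem_Dom_iff h hz]
      obtain ⟨b, hb, s, hs⟩ := Surrounds.meets hγs
      refine ⟨b, hb, ?_⟩
      obtain ⟨δ, hδ, hδ0, hδr, -⟩ := exists_orbit h k hb
      have h1 : δ = fun t => γ (t + s) :=
        IsSol.unique (contDiff_vf _ _) hδ (hγ.1.shift s) (by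
          rw [hδ0, zero_add, hs])
      rw [← hδr, h1]
      refine ⟨-s, ?_⟩
      simp only
      rw [neg_add_cancel, hγ0]
  · intro hz
    by_cases hz0 : z = 0
    · left
      exact hz0
    · right
      obtain ⟨b, hb, hzb⟩ := (mem_Dom_iff h hz0).1 hz
      obtain ⟨γ, hγ, hγ0, hγr, -⟩ := cen_orbit h k hb hzb
      refine ⟨γ, hγ, hγ0, ?_⟩
      rw [hγr]
      exact surrounds_crv h hb

theorem isCenter_L (h : Bar S n κ) (k : ℕ) : IsCenter (vf (PL k) (QL S n k)) := by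
  constructor
  · rw [vf_L]
    simp
  · have h1 : Dom S n ∈ 𝓝 (0 : ℝ × ℝ) := (isOpen_Dom h).mem_nhds (zero_mem_Dom h)
    filter_upwards [mem_nhdsWithin_of_mem_nhds h1, self_mem_nhdsWithin] with z hz hz0
    rw [← cyc_L h k] at hz
    rcases hz with hz | hz
    · exact absurd hz hz0
    · exact hz

private theorem cen_annulus (h : Bar S n κ) (k : ℕ) :
    annulus (vf (PL k) (QL S n k)) = Dom S n := by
  unfold annulus
  rw [cyc_L h k, (isOpen_Dom h).interior_eq]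
  exact (isPreconnected_Dom h).connectedComponentIn (zero_mem_Dom h)

private theorem cen_mem (b : ℝ) : ((b, 0) : ℝ × ℝ) ∈ range (crv S n b) :=
  ⟨0, by simp [crv]⟩

theorem isParam_L (h : Bar S n κ) (k : ℕ) :
    IsParam (vf (PL k) (QL S n k)) (Ioi 0) (fun b => (b, 0)) where
  isOpen := isOpen_Ioi
  ordConnected := ordConnected_Ioi
  nonempty := ⟨1, by simp⟩
  smooth := by fun_prop
  mem := by
    intro s hs
    have hs' : (0 : ℝ) < s := hs
    have h0 : ((s, 0) : ℝ × ℝ) ≠ 0 := fun he => hs'.ne' (congrArg Prod.fst he)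
    refine ⟨?_, h0⟩
    rw [cen_annulus h k, mem_Dom_iff h h0]
    exact ⟨s, hs', cen_mem s⟩
  transversal := by
    intro s hs
    have hs' : (0 : ℝ) < s := hs
    have h1 : HasDerivAt (fun b : ℝ => ((b, 0) : ℝ × ℝ)) (1, 0) s :=
      (hasDerivAt_id s).prodMk (hasDerivAt_const s 0)
    rw [h1.deriv, vf_L]
    simp only [one_mul, zero_mul, sub_zero]
    rw [zero_pow two_ne_zero, qf_zero, add_zero]
    have h2 : 0 < S.coeff 0 := by
      have := h.pos 0 le_rfl h.hκ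
      rwa [← Polynomial.coeff_zero_eq_eval_zero] at this
    have h3 : 0 < s * (S.coeff 0 * (s ^ 2) ^ n) * (s ^ 2) ^ k := by positivity
    linarith
  unique := by
    intro z hz hz0
    rw [cen_annulus h k, mem_Dom_iff h hz0] at hz
    obtain ⟨b, hb, hzb⟩ := hz
    obtain ⟨γ, hγ, hγ0, hγr, hγb⟩ := cen_orbit h k hb hzb
    refine ⟨b, ⟨hb, γ, hγ.1, hγ0, hγb⟩, ?_⟩
    rintro s ⟨hs, δ, hδ, hδ0, hδs⟩
    have h1 : δ = γ := IsSol.unique (contDiff_vf _ _) hδ hγ.1 (by rw [hδ0, hγ0])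
    rw [h1, hγr] at hδs
    exact crv_disjoint h hs hb (cen_mem s) hδs

end Pool.Agent.CritPer.L
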