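import Pool.Agent.CritPer.L.Basic

open Set Filter Topology Polynomial MeasureTheory

namespace Pool.Agent.CritPer.L

variable {S : ℝ[X]} {n : ℕ} {κ : ℝ}

theorem Wf.qv_continuousOn (h : Bar S n κ) {a : ℝ} (ha : 0 < a) :
    ContinuousOn (fun u => qf S n u (vs S n a u)) (Icc 0 a) :=
  (continuous_qf S n).comp_continuousOn (continuousOn_id.prodMk (vs_continuousOn h ha))

theorem Wf.mem {a : ℝ} (ha : 0 < a) {t : ℝ} (ht : t ∈ Icc (0 : ℝ) 1) : a * t ∈ Icc 0 a :=
  ⟨mul_nonneg ha.le ht.1, by nlinarith [ht.2]⟩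

theorem vs_eq_ws (h : Bar S n κ) {a : ℝ} (ha : 0 < a) {t : ℝ} (ht : t ∈ Icc (0 : ℝ) 1) :
    vs S n a (a * t) = a * (1 - t) * ws S n a t := by
  have hat := Wf.mem ha ht
  have hsub : Icc (a * t) a ⊆ Icc 0 a := Icc_subset_Icc_left hat.1
  have hc : ContinuousOn (fun u => -(qf S n u (vs S n a u))) (Icc (a * t) a) :=
    (Wf.qv_continuousOn h ha).neg.mono hsub
  have h1 := intervalIntegral.integral_eq_sub_of_hasDerivAt_of_le (f := vs S n a)
    (f' := fun u => -(qf S n u (vs S n a u))) hat.2 ((vs_continuousOn h ha).mono hsub)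
    (fun x hx => (vs_deriv h ha (hsub (Ioo_subset_Icc_self hx))).hasDerivAt
      (Icc_mem_nhds (hat.1.trans_lt hx.1) hx.2))
    (ContinuousOn.intervalIntegrable (by rwa [uIcc_of_le hat.2]))
  rw [vs_self h ha, intervalIntegral.integral_neg] at h1
  have h2 : vs S n a (a * t) = ∫ u in (a * t)..a, qf S n u (vs S n a u) := by linarith
  rw [h2]
  unfold ws
  have h3 := intervalIntegral.mul_integral_comp_mul_add (a := 0) (b := 1)
    (f := fun u => qf S n u (vs S n a u)) (a * (1 - t)) (a * t)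
  rw [mul_zero, zero_add, mul_one, show a * (1 - t) + a * t = a by ring] at h3
  rw [← h3]
  congr 1
  refine intervalIntegral.integral_congr fun r _ => ?_
  show qf S n (a * (1 - t) * r + a * t) (vs S n a (a * (1 - t) * r + a * t)) = _
  rw [show a * (1 - t) * r + a * t = a * (t + (1 - t) * r) by ring]

theorem ws_one (h : Bar S n κ) {a : ℝ} (ha : 0 < a) : ws S n a 1 = S.eval 0 * a ^ n := by
  unfold ws
  have h1 : ∀ r : ℝ, a * (1 + (1 - 1) * r) = a := fun r => by ring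
  simp only [h1, vs_self h ha, qf_zero]
  rw [intervalIntegral.integral_const, ← Polynomial.coeff_zero_eq_eval_zero]
  simp

theorem ws_pos (h : Bar S n κ) {a : ℝ} (ha : 0 < a) {t : ℝ} (ht : t ∈ Icc (0 : ℝ) 1) :
    0 < ws S n a t := by
  rcases ht.2.eq_or_lt with h1 | h1
  · rw [h1, ws_one h ha]
    exact mul_pos (h.pos 0 le_rfl h.hκ) (pow_pos ha n)
  · have h2 := vs_eq_ws h ha ht
    have h3 : 0 < vs S n a (a * t) := vs_pos h ha ⟨(Wf.mem ha ht).1, by nlinarith⟩
    rw [h2] at h3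
    have h4 : 0 < a * (1 - t) := mul_pos ha (by linarith)
    exact (mul_pos_iff_of_pos_left h4).1 h3

theorem ws_continuousOn (h : Bar S n κ) {a : ℝ} (ha : 0 < a) :
    ContinuousOn (ws S n a) (Icc 0 1) := by
  set V : ℝ → ℝ := IccExtend ha.le ((Icc 0 a).domRestrict (vs S n a)) with hV
  have hVc : Continuous V := (continuousOn_iff_continuous_domRestrict.1 (vs_continuousOn h ha)).Icc_extend'
  have hVe : ∀ u ∈ Icc 0 a, V u = vs S n a u := fun u hu => by
    rw [hV, IccExtend_of_mem ha.le _ hu]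
    rfl
  have hcont : Continuous (fun t : ℝ => ∫ r in (0 : ℝ)..1,
      qf S n (a * (t + (1 - t) * r)) (V (a * (t + (1 - t) * r)))) := by
    apply intervalIntegral.continuous_parametric_intervalIntegral_of_continuous'
    have hu : Continuous (fun z : ℝ × ℝ => a * (z.1 + (1 - z.1) * z.2)) := by fun_prop
    exact (continuous_qf S n).comp (hu.prodMk (hVc.comp hu))
  refine hcont.continuousOn.congr fun t ht => ?_
  unfold ws
  refine intervalIntegral.integral_congr fun r hr => ?_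
  rw [uIcc_of_le zero_le_one] at hr
  have hmem : a * (t + (1 - t) * r) ∈ Icc 0 a := by
    refine Wf.mem ha ⟨?_, ?_⟩
    · nlinarith [ht.1, ht.2, hr.1, mul_nonneg (sub_nonneg.2 ht.2) hr.1]
    · nlinarith [ht.1, ht.2, hr.2, mul_nonneg (sub_nonneg.2 ht.2) (sub_nonneg.2 hr.2)]
  show qf S n (a * (t + (1 - t) * r)) (vs S n a (a * (t + (1 - t) * r))) =
    qf S n (a * (t + (1 - t) * r)) (V (a * (t + (1 - t) * r)))
  rw [hVe _ hmem]

theorem Wf.cos_mem (p : ℝ) : Real.cos p ^ 2 ∈ Icc (0 : ℝ) 1 :=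
  ⟨sq_nonneg _, by nlinarith [Real.sin_sq_add_cos_sq p, sq_nonneg (Real.sin p)]⟩

theorem continuous_Wr (h : Bar S n κ) {a : ℝ} (ha : 0 < a) : Continuous (Wr S n a) := by
  have h1 : Continuous (fun p : ℝ => ws S n a (Real.cos p ^ 2)) :=
    (ws_continuousOn h ha).comp_continuous (by fun_prop) Wf.cos_mem
  exact h1.sqrt

theorem Wr_pos (h : Bar S n κ) {a : ℝ} (ha : 0 < a) (p : ℝ) : 0 < Wr S n a p :=
  Real.sqrt_pos.2 (ws_pos h ha (Wf.cos_mem p))

theorem continuous_Vp (h : Bar S n κ) {a : ℝ} (ha : 0 < a) : Continuous (Vp S n a) :=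
  (vs_continuousOn h ha).comp_continuous (by fun_prop) (fun p => Wf.mem ha (Wf.cos_mem p))

theorem Vp_eq (h : Bar S n κ) {a : ℝ} (ha : 0 < a) (p : ℝ) :
    Vp S n a p = a * Real.sin p ^ 2 * Wr S n a p ^ 2 := by
  unfold Vp Wr
  rw [vs_eq_ws h ha (Wf.cos_mem p), Real.sq_sqrt (ws_pos h ha (Wf.cos_mem p)).le, Real.sin_sq]

theorem uv_pos (h : Bar S n κ) {a : ℝ} (ha : 0 < a) (p : ℝ) :
    0 < a * Real.cos p ^ 2 + Vp S n a p := by
  by_cases hc : Real.cos p = 0
  · have h1 : Vp S n a p = vs S n a 0 := by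
      unfold Vp
      rw [hc]
      norm_num
    rw [h1, hc]
    have h2 : 0 < vs S n a 0 := vs_pos h ha ⟨le_rfl, ha⟩
    simpa using h2
  · have h1 : 0 < Real.cos p ^ 2 := by positivity
    have h2 : 0 ≤ Vp S n a p := vs_nonneg h ha (Wf.mem ha (Wf.cos_mem p))
    nlinarith [mul_pos ha h1]

end Pool.Agent.CritPer.L
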