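import Pool.Agent.CritPer.L.Dep
import Pool.Agent.CritPer.L.Wf

open Set Filter Topology Polynomial MeasureTheory
open scoped ContDiff

namespace Pool.Agent.CritPer.L

namespace Per

/-- The Banach algebra `C([0,1])`. -/
abbrev E := C(Icc (0 : ℝ) 1, ℝ)

theorem exists_op {X : Type} [TopologicalSpace X] [CompactSpace X] (m : X → ℝ → ℝ)
    (hm : Continuous (Function.uncurry m)) (b : ℝ) :
    ∃ A : E →L[ℝ] C(X, ℝ), ∀ (f : E) (x : X),
      A f x = ∫ r in (0 : ℝ)..b, IccExtend (zero_le_one : (0 : ℝ) ≤ 1) f (m x r) := by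
  have hcf : ∀ f : E, Continuous (Function.uncurry fun (x : X) (r : ℝ) =>
      IccExtend (zero_le_one : (0 : ℝ) ≤ 1) f (m x r)) := fun f =>
    (f.continuous.Icc_extend' (h := zero_le_one)).comp hm
  have hc : ∀ f : E, Continuous fun x : X =>
      ∫ r in (0 : ℝ)..b, IccExtend (zero_le_one : (0 : ℝ) ≤ 1) f (m x r) := fun f =>
    intervalIntegral.continuous_parametric_intervalIntegral_of_continuous' (hcf f) 0 b
  have hint : ∀ (f : E) (x : X), IntervalIntegrable
      (fun r => IccExtend (zero_le_one : (0 : ℝ) ≤ 1) f (m x r)) volume 0 b := fun f x =>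
    ((hcf f).comp (Continuous.prodMk_right x)).intervalIntegrable _ _
  let A0 : E →ₗ[ℝ] C(X, ℝ) :=
    { toFun := fun f => ⟨_, hc f⟩
      map_add' := by
        intro f g
        ext x
        exact intervalIntegral.integral_add (hint f x) (hint g x)
      map_smul' := by
        intro c f
        ext x
        exact intervalIntegral.integral_smul c _ }
  refine ⟨A0.mkContinuous |b| ?_, fun f x => rfl⟩
  intro f
  rw [ContinuousMap.norm_le _ (by positivity)]
  intro x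
  have := intervalIntegral.norm_integral_le_of_norm_le_const (a := (0 : ℝ)) (b := b)
    (f := fun r => IccExtend (zero_le_one : (0 : ℝ) ≤ 1) f (m x r)) (C := ‖f‖)
    (fun r _ => f.norm_coe_le_norm _)
  rw [sub_zero, mul_comm] at this
  exact this

theorem exists_sqrt {w : ℝ → E} {a0 : ℝ} (hw : ContDiffAt ℝ ω w a0) (hpos : ∀ t, 0 < w a0 t) :
    ∃ s : ℝ → E, ContDiffAt ℝ ω s a0 ∧ ∀ᶠ a in 𝓝 a0, (∀ t, 0 < s a t) ∧ s a * s a = w a := by
  have hs0pos : ∀ t, 0 < Real.sqrt (w a0 t) := fun t => Real.sqrt_pos.2 (hpos t)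
  let s0 : E := ⟨fun t => Real.sqrt (w a0 t), (w a0).continuous.sqrt⟩
  let i0 : E := ⟨fun t => 1 / (2 * Real.sqrt (w a0 t)),
    continuous_const.div (continuous_const.mul (w a0).continuous.sqrt)
      fun t => (mul_pos two_pos (hs0pos t)).ne'⟩
  have hi1 : i0 * (s0 + s0) = 1 := by
    ext t
    have h1 : Real.sqrt (w a0 t) ≠ 0 := (hs0pos t).ne'
    change 1 / (2 * Real.sqrt (w a0 t)) * (Real.sqrt (w a0 t) + Real.sqrt (w a0 t)) = 1
    field_simp
    ring
  have hi2 : (s0 + s0) * i0 = 1 := by rw [mul_comm]; exact hi1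
  let F : E → E := fun s => s * s
  have hF0 : F s0 = w a0 := by
    ext t
    exact Real.mul_self_sqrt (hpos t).le
  let D : E ≃L[ℝ] E := ContinuousLinearEquiv.equivOfInverse
    (ContinuousLinearMap.mul ℝ E (s0 + s0)) (ContinuousLinearMap.mul ℝ E i0)
    (fun x => by
      simp only [ContinuousLinearMap.mul_apply']
      rw [← mul_assoc, hi1, one_mul])
    (fun x => by
      simp only [ContinuousLinearMap.mul_apply']
      rw [← mul_assoc, hi2, one_mul])
  have hFc : ContDiffAt ℝ ω F s0 := contDiffAt_id.mul contDiffAt_id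
  have hFd : HasFDerivAt F (D : E →L[ℝ] E) s0 := by
    have h1 := (hasFDerivAt_id (𝕜 := ℝ) s0).mul (hasFDerivAt_id (𝕜 := ℝ) s0)
    refine h1.congr_fderiv ?_
    ext1 x
    change s0 * x + s0 * x = (s0 + s0) * x
    ring
  have hn : (ω : WithTop ℕ∞) ≠ 0 := by simp
  have hst := hFc.hasStrictFDerivAt' hFd hn
  let G : E → E := hFc.localInverse hFd hn
  have hG : ContDiffAt ℝ ω G (F s0) := hFc.to_localInverse hFd hn
  have hG0 : G (F s0) = s0 := hFc.localInverse_apply_image hFd hn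
  rw [hF0] at hG hG0
  have hright : ∀ᶠ y in 𝓝 (w a0), F (G y) = y := by
    have := hst.eventually_right_inverse
    rw [hF0] at this
    exact this
  refine ⟨fun a => G (w a), hG.comp a0 hw, ?_⟩
  have hcw : Tendsto w (𝓝 a0) (𝓝 (w a0)) := hw.continuousAt
  have hcs : Tendsto (fun a => G (w a)) (𝓝 a0) (𝓝 s0) := by
    have := hG.continuousAt.tendsto.comp hcw
    rw [hG0] at this
    exact this
  have hopen : IsOpen {f : E | MapsTo f univ (Ioi 0)} :=
    ContinuousMap.isOpen_setOfPred_mapsTo isCompact_univ isOpen_Ioi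
  have hmem : s0 ∈ {f : E | MapsTo f univ (Ioi 0)} := fun t _ => hs0pos t
  filter_upwards [hcw.eventually hright, hcs.eventually (hopen.mem_nhds hmem)] with a h1 h2
  exact ⟨fun t => h2 (mem_univ t), h1⟩

theorem isUnit_of_pos {f : E} (h : ∀ t, 0 < f t) : IsUnit f := by
  refine IsUnit.of_mul_eq_one ⟨fun t => (f t)⁻¹, f.continuous.inv₀ fun t => (h t).ne'⟩ ?_
  ext t
  exact mul_inv_cancel₀ (h t).ne'

theorem ringInverse_apply {f : E} (h : ∀ t, 0 < f t) (t : Icc (0 : ℝ) 1) :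
    Ring.inverse f t = 1 / f t := by
  have h1 := Ring.inverse_mul_cancel f (isUnit_of_pos h)
  have h2 : Ring.inverse f t * f t = 1 := by
    rw [← ContinuousMap.mul_apply, h1]
    rfl
  rw [eq_div_iff (h t).ne', h2]

end Per

open Per in
theorem analyticAt_Ts {S : ℝ[X]} {n : ℕ} {κ : ℝ} (h : Bar S n κ) {a : ℝ} (ha : 0 < a) (k : ℕ) :
    AnalyticAt ℝ (Ts S n k) a := by
  obtain ⟨ψ, hψ, hψe⟩ := dep h ha
  let ι : E := ⟨fun t => (t : ℝ), continuous_subtype_val⟩
  obtain ⟨A, hA⟩ := exists_op (X := Icc (0 : ℝ) 1) (fun t r => (t : ℝ) + (1 - t) * r)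
    (by unfold Function.uncurry; fun_prop) 1
  obtain ⟨L, hL⟩ := exists_op (X := Unit) (fun _ p => Real.cos p ^ 2)
    (by unfold Function.uncurry; fun_prop) (2 * Real.pi)
  let Ql : ℝ → E := fun b => ∑ j ∈ Finset.range (n + 1),
    S.coeff j • ((b • ι) ^ (n - j) * (ψ b) ^ j)
  have hι : ContDiffAt ℝ ω (fun b : ℝ => b • ι) a := contDiffAt_id.smul contDiffAt_const
  have hQ : ContDiffAt ℝ ω Ql a :=
    ContDiffAt.sum fun j _ => (((hι.pow (n - j)).mul (hψ.pow j)).const_smul (S.coeff j))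
  have hw : ContDiffAt ℝ ω (fun b => A (Ql b)) a := A.contDiff.contDiffAt.comp a hQ
  have hAw : ∀ᶠ b in 𝓝 a, ∀ t : Icc (0 : ℝ) 1, A (Ql b) t = ws S n b t := by
    filter_upwards [hψe] with b hb t
    rw [hA]
    unfold ws
    refine intervalIntegral.integral_congr fun r hr => ?_
    rw [uIcc_of_le zero_le_one] at hr
    have hmem : (t : ℝ) + (1 - t) * r ∈ Icc (0 : ℝ) 1 := by
      have h0 := t.2.1
      have h1 := t.2.2
      constructor
      · exact add_nonneg h0 (mul_nonneg (by linarith) hr.1)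
      · nlinarith [mul_le_mul_of_nonneg_left hr.2 (sub_nonneg.2 h1)]
    rw [IccExtend_of_mem _ _ hmem]
    have h3 := hb ⟨_, hmem⟩
    change (∑ j ∈ Finset.range (n + 1), S.coeff j • ((b • ι) ^ (n - j) * (ψ b) ^ j) : E)
      ⟨_, hmem⟩ = _
    rw [ContinuousMap.sum_apply]
    unfold qf
    refine Finset.sum_congr rfl fun j _ => ?_
    rw [ContinuousMap.smul_apply, ContinuousMap.mul_apply, ContinuousMap.pow_apply,
      ContinuousMap.pow_apply, ContinuousMap.smul_apply, h3, smul_eq_mul, smul_eq_mul, mul_assoc]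
    rfl
  have hwpos : ∀ᶠ b in 𝓝 a, ∀ t : Icc (0 : ℝ) 1, 0 < A (Ql b) t := by
    filter_upwards [hAw, lt_mem_nhds ha] with b hb hb0 t
    rw [hb t]
    exact ws_pos h hb0 t.2
  obtain ⟨s, hs, hse⟩ := exists_sqrt hw hwpos.self_of_nhds
  have hsW : ∀ᶠ b in 𝓝 a, ∀ t : Icc (0 : ℝ) 1, s b t = Real.sqrt (ws S n b t) := by
    filter_upwards [hse, hAw] with b hb hb2 t
    rw [← hb2 t, ← hb.2, ContinuousMap.mul_apply, Real.sqrt_mul_self (hb.1 t).le]
  let g : ℝ → E := fun b => s b * (b • ι + ψ b) ^ k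
  have hg : ContDiffAt ℝ ω g a := hs.mul ((hι.add hψ).pow k)
  have hgpos : ∀ᶠ b in 𝓝 a, ∀ t : Icc (0 : ℝ) 1, 0 < g b t := by
    filter_upwards [hse, hψe, lt_mem_nhds ha] with b hb hb2 hb0 t
    change 0 < s b t * (b * (t : ℝ) + ψ b t) ^ k
    refine mul_pos (hb.1 t) (pow_pos ?_ k)
    rw [hb2 t]
    rcases t.2.2.eq_or_lt with h1 | h1
    · rw [h1, mul_one, vs_self h hb0, add_zero]
      exact hb0
    · refine add_pos_of_nonneg_of_pos (mul_nonneg hb0.le t.2.1) (vs_pos h hb0 ⟨?_, ?_⟩)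
      · exact mul_nonneg hb0.le t.2.1
      · nlinarith
  have hinv : ContDiffAt ℝ ω (fun b => Ring.inverse (g b)) a := by
    obtain ⟨u, hu⟩ := isUnit_of_pos hgpos.self_of_nhds
    have h1 : ContDiffAt ℝ ω Ring.inverse (g a) := by
      rw [← hu]
      exact contDiffAt_ringInverse ℝ u
    exact h1.comp a hg
  have hL1 : ContDiffAt ℝ ω (fun b => L (Ring.inverse (g b))) a :=
    L.contDiff.contDiffAt.comp a hinv
  let ev : C(Unit, ℝ) →L[ℝ] ℝ := ContinuousMap.evalCLM ℝ ()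
  have hfin : ContDiffAt ℝ ω (fun b => ev (L (Ring.inverse (g b)))) a :=
    ev.contDiff.contDiffAt.comp a hL1
  refine (hfin.congr_of_eventuallyEq ?_).analyticAt
  filter_upwards [hgpos, hsW, hψe] with b hb1 hb2 hb3
  change Ts S n k b = L (Ring.inverse (g b)) ()
  rw [hL]
  unfold Ts
  refine intervalIntegral.integral_congr fun p _ => ?_
  have hmem : Real.cos p ^ 2 ∈ Icc (0 : ℝ) 1 := ⟨sq_nonneg _, Real.cos_sq_le_one p⟩
  rw [IccExtend_of_mem _ _ hmem, ringInverse_apply hb1]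
  change _ = 1 / (s b ⟨_, hmem⟩ * (b * (Real.cos p ^ 2) + ψ b ⟨_, hmem⟩) ^ k)
  rw [hb2, hb3]
  rfl

end Pool.Agent.CritPer.L
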