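import Pool.Agent.CritPer.L.Defs

open Set Filter Topology Polynomial MeasureTheory

namespace Pool.Agent.CritPer.L

namespace BoundsAux

theorem contOn {S : ℝ[X]} {n : ℕ} {a : ℝ} {v : ℝ → ℝ} (hv : IsV S n a v) :
    ContinuousOn v (Icc 0 a) := fun u hu => (hv.der u hu).continuousWithinAt

theorem derAt {S : ℝ[X]} {n : ℕ} {a : ℝ} {v : ℝ → ℝ} (hv : IsV S n a v) {u : ℝ}
    (h0 : 0 < u) (h1 : u < a) : HasDerivAt v (-(qf S n u (v u))) u :=
  (hv.der u ⟨h0.le, h1.le⟩).hasDerivAt (Icc_mem_nhds h0 h1)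

/-- The remainder in `q(u,v) = S(0) u^n + v r(u,v)`. -/
noncomputable def rr (S : ℝ[X]) (n : ℕ) (u v : ℝ) : ℝ :=
  ∑ j ∈ Finset.range n, S.coeff (j + 1) * u ^ (n - (j + 1)) * v ^ j

theorem qf_rr (S : ℝ[X]) (n : ℕ) (u v : ℝ) :
    qf S n u v = S.coeff 0 * u ^ n + v * rr S n u v := by
  unfold qf rr
  rw [Finset.sum_range_succ', Finset.mul_sum, add_comm]
  congr 1
  · simp
  · refine Finset.sum_congr rfl fun j _ => ?_
    ring

theorem continuous_rr (S : ℝ[X]) (n : ℕ) : Continuous (fun z : ℝ × ℝ => rr S n z.1 z.2) := by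
  unfold rr
  fun_prop

end BoundsAux

open BoundsAux

theorem isV_pos {S : ℝ[X]} {n : ℕ} {κ : ℝ} (h : Bar S n κ) {a : ℝ} (ha : 0 < a) {v : ℝ → ℝ}
    (hv : IsV S n a v) : ∀ u ∈ Ico 0 a, 0 < v u := by
  have hc := contOn hv
  have hS0 : 0 < S.coeff 0 := by
    have := h.pos 0 le_rfl h.hκ
    rwa [← Polynomial.coeff_zero_eq_eval_zero] at this
  -- near a
  have hda : HasDerivWithinAt v (-(S.coeff 0 * a ^ n)) (Icc 0 a) a := by
    have := hv.der a ⟨ha.le, le_rfl⟩
    rwa [hv.zero, qf_zero] at this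
  have hneg : -(S.coeff 0 * a ^ n) < 0 := by
    have : 0 < S.coeff 0 * a ^ n := by positivity
    linarith
  have hnear : ∃ a' < a, 0 ≤ a' ∧ ∀ u ∈ Ico a' a, 0 < v u := by
    have h1 := hasDerivWithinAt_iff_tendsto_slope.1 hda
    have h2 : ∀ᶠ u in 𝓝[Icc 0 a \ {a}] a, slope v a u < 0 := h1.eventually_lt_const hneg
    rw [eventually_nhdsWithin_iff, Metric.eventually_nhds_iff] at h2
    obtain ⟨ε, hε, h3⟩ := h2
    refine ⟨max 0 (a - ε / 2), max_lt ha (by linarith), le_max_left _ _, fun u hu => ?_⟩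
    have hu1 : 0 ≤ u := (le_max_left _ _).trans hu.1
    have hu2 : a - ε / 2 ≤ u := (le_max_right _ _).trans hu.1
    have h4 := h3 (y := u) (by rw [Real.dist_eq, abs_lt]; constructor <;> linarith [hu.2])
      ⟨⟨hu1, hu.2.le⟩, by simpa using hu.2.ne⟩
    rw [slope_def_field, hv.zero, sub_zero] at h4
    by_contra hcon
    have h5 : 0 ≤ v u / (u - a) := div_nonneg_of_nonpos (not_lt.1 hcon) (by linarith [hu.2])
    linarith
  obtain ⟨a', ha', ha'0, hpos'⟩ := hnear
  intro u0 hu0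
  by_contra hcon
  have hcon' : v u0 ≤ 0 := not_lt.1 hcon
  -- the last nonpositive point
  set Z : Set ℝ := {u | u ∈ Icc 0 a' ∧ v u ≤ 0} with hZ
  have hZc : IsCompact Z := by
    have h1 : ContinuousOn v (Icc 0 a') := hc.mono (Icc_subset_Icc le_rfl ha'.le)
    have h2 : IsClosed Z :=
      h1.preimage_isClosed_of_isClosed isClosed_Icc (isClosed_Iic (a := (0 : ℝ)))
    exact isCompact_Icc.of_isClosed_subset h2 (fun u hu => hu.1)
  have hu0a' : u0 ≤ a' := by
    by_contra hlt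
    exact absurd (hpos' u0 ⟨(not_le.1 hlt).le, hu0.2⟩) hcon
  have hZne : Z.Nonempty := ⟨u0, ⟨hu0.1, hu0a'⟩, hcon'⟩
  obtain ⟨u1, hu1, hmax⟩ := hZc.exists_isGreatest hZne
  have hu1a : u1 < a := hu1.1.2.trans_lt ha'
  have hpos1 : ∀ u ∈ Ioo u1 a, 0 < v u := by
    intro u hu
    by_contra hc1
    have hc2 : v u ≤ 0 := not_lt.1 hc1
    rcases le_or_gt u a' with h1 | h1
    · have := hmax (show u ∈ Z from ⟨⟨hu1.1.1.trans hu.1.le, h1⟩, hc2⟩)
      linarith [hu.1]
    · exact hc1 (hpos' u ⟨h1.le, hu.2⟩)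
  -- bound for the remainder
  obtain ⟨C, hC⟩ : ∃ C, ∀ u ∈ Icc 0 a, |rr S n u (v u)| ≤ C := by
    have h1 : ContinuousOn (fun u => rr S n u (v u)) (Icc 0 a) :=
      (continuous_rr S n).comp_continuousOn (continuousOn_id.prodMk hc)
    obtain ⟨C, hC⟩ := isCompact_Icc.exists_bound_of_continuousOn h1
    exact ⟨C, fun u hu => by simpa using hC u hu⟩
  -- v e^{-Cu} is antitone on [u1,a]
  have hanti : AntitoneOn (fun u => v u * Real.exp (-C * u)) (Icc u1 a) := by
    refine antitoneOn_of_deriv_nonpos (convex_Icc _ _) ?_ ?_ ?_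
    · exact (hc.mono (Icc_subset_Icc hu1.1.1 le_rfl)).mul (by fun_prop)
    · intro u hu
      rw [interior_Icc] at hu
      have h1 := derAt hv (hu1.1.1.trans_lt hu.1) hu.2
      exact (h1.differentiableAt.mul (by fun_prop)).differentiableWithinAt
    · intro u hu
      rw [interior_Icc] at hu
      have hu0' : 0 < u := hu1.1.1.trans_lt hu.1
      have h1 := derAt hv hu0' hu.2
      have h2 : HasDerivAt (fun u => Real.exp (-C * u)) (Real.exp (-C * u) * (-C)) u := by
        have := ((hasDerivAt_id u).const_mul (-C)).exp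
        simpa using this
      have h3 := h1.mul h2
      rw [show (fun u => v u * Real.exp (-C * u)) = v * (fun u => Real.exp (-C * u)) from rfl,
        h3.deriv, qf_rr]
      have h4 : -C ≤ rr S n u (v u) := (abs_le.1 (hC u ⟨hu0'.le, hu.2.le⟩)).1
      have h5 := hpos1 u hu
      have h6 : 0 < S.coeff 0 * u ^ n := by positivity
      have h7 : -(S.coeff 0 * u ^ n + v u * rr S n u (v u)) - C * v u ≤ 0 := by nlinarith
      have h8 := Real.exp_pos (-C * u)
      nlinarith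
  set um := (u1 + a) / 2 with hum
  have hm : um ∈ Ioo u1 a := ⟨by rw [hum]; linarith, by rw [hum]; linarith⟩
  have h1 := hanti (left_mem_Icc.2 hu1a.le) ⟨hm.1.le, hm.2.le⟩ hm.1.le
  have h2 : 0 < v um * Real.exp (-C * um) := mul_pos (hpos1 _ hm) (Real.exp_pos _)
  have h3 : v u1 * Real.exp (-C * u1) ≤ 0 := mul_nonpos_of_nonpos_of_nonneg hu1.2 (Real.exp_pos _).le
  simp only at h1
  linarith

theorem isV_le {S : ℝ[X]} {n : ℕ} {κ : ℝ} (h : Bar S n κ) {a : ℝ} (ha : 0 < a) {v : ℝ → ℝ}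
    (hv : IsV S n a v) : ∀ u ∈ Icc 0 a, v u ≤ κ * a := by
  have hc := contOn hv
  intro u1 hu1
  by_contra hcon
  have hcon' : κ * a < v u1 := not_le.1 hcon
  have hκa : 0 < κ * a := mul_pos h.hκ ha
  set Z : Set ℝ := {u | u ∈ Icc u1 a ∧ v u ≤ κ * a} with hZ
  have hZc : IsCompact Z := by
    have h1 : ContinuousOn v (Icc u1 a) := hc.mono (Icc_subset_Icc hu1.1 le_rfl)
    have h2 : IsClosed Z :=
      h1.preimage_isClosed_of_isClosed isClosed_Icc (isClosed_Iic (a := κ * a))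
    exact isCompact_Icc.of_isClosed_subset h2 (fun u hu => hu.1)
  have hZne : Z.Nonempty := ⟨a, ⟨hu1.2, le_rfl⟩, by rw [hv.zero]; exact hκa.le⟩
  obtain ⟨u2, hu2, hmin⟩ := hZc.exists_isLeast hZne
  have h12 : u1 < u2 := by
    rcases hu2.1.1.lt_or_eq with h1 | h1
    · exact h1
    · rw [← h1] at hu2
      exact absurd hu2.2 hcon
  have hmono : MonotoneOn v (Icc u1 u2) := by
    refine monotoneOn_of_deriv_nonneg (convex_Icc _ _)
      (hc.mono (Icc_subset_Icc hu1.1 hu2.1.2)) ?_ ?_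
    · intro u hu
      rw [interior_Icc] at hu
      exact (derAt hv (hu1.1.trans_lt hu.1)
        (hu.2.trans_le hu2.1.2)).differentiableAt.differentiableWithinAt
    · intro u hu
      rw [interior_Icc] at hu
      have hu0 : 0 < u := hu1.1.trans_lt hu.1
      have hua : u < a := hu.2.trans_le hu2.1.2
      rw [(derAt hv hu0 hua).deriv, qf_eq h.deg hu0.ne']
      have h3 : κ * a < v u := by
        by_contra hc1
        have := hmin (show u ∈ Z from ⟨⟨hu.1.le, hua.le⟩, not_lt.1 hc1⟩)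
        linarith [hu.2]
      have h4 : κ < v u / u := by
        rw [lt_div_iff₀ hu0]
        nlinarith [h.hκ]
      have h5 := h.neg _ h4
      have h6 : 0 < u ^ n := by positivity
      nlinarith
  have := hmono (left_mem_Icc.2 h12.le) (right_mem_Icc.2 h12.le) h12.le
  linarith [hu2.2]

end Pool.Agent.CritPer.L
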