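import Pool.Agent.CritPer.L.Defs

open Set Filter Topology Polynomial MeasureTheory

namespace Pool.Agent.CritPer.L

/-- `q` is Lipschitz in `v` on bounded sets. -/
theorem qf_lip (S : ℝ[X]) (n : ℕ) {U R : ℝ} (hR : 0 ≤ R) {u x y : ℝ} (hu : |u| ≤ U)
    (hx : |x| ≤ R) (hy : |y| ≤ R) : |qf S n u x - qf S n u y| ≤
      (∑ j ∈ Finset.range (n + 1), |S.coeff j| * U ^ (n - j) * (j * R ^ (j - 1))) * |x - y| := by
  have hU : 0 ≤ U := (abs_nonneg u).trans hu
  unfold qf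
  rw [← Finset.sum_sub_distrib, Finset.sum_mul]
  refine (Finset.abs_sum_le_sum_abs _ _).trans (Finset.sum_le_sum fun j _ => ?_)
  have h1 : S.coeff j * u ^ (n - j) * x ^ j - S.coeff j * u ^ (n - j) * y ^ j =
      S.coeff j * u ^ (n - j) * (x ^ j - y ^ j) := by ring
  rw [h1, abs_mul, abs_mul, abs_pow]
  have h2 : |x ^ j - y ^ j| ≤ |x - y| * j * R ^ (j - 1) := by
    refine (abs_pow_sub_pow_le x y j).trans ?_
    have : max |x| |y| ≤ R := max_le hx hy
    have h0 : 0 ≤ max |x| |y| := (abs_nonneg x).trans (le_max_left _ _)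
    gcongr
  calc |S.coeff j| * |u| ^ (n - j) * |x ^ j - y ^ j|
      ≤ |S.coeff j| * U ^ (n - j) * (|x - y| * j * R ^ (j - 1)) := by gcongr
    _ = |S.coeff j| * U ^ (n - j) * (j * R ^ (j - 1)) * |x - y| := by ring

/-- Two solutions of `v' = -q(u,v)` on `[c,d]` which agree at one point agree everywhere. -/
theorem sol_unique (S : ℝ[X]) (n : ℕ) {c d : ℝ} {v w : ℝ → ℝ}
    (hv : ∀ u ∈ Icc c d, HasDerivWithinAt v (-(qf S n u (v u))) (Icc c d) u)
    (hw : ∀ u ∈ Icc c d, HasDerivWithinAt w (-(qf S n u (w u))) (Icc c d) u)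
    {u0 : ℝ} (hu0 : u0 ∈ Icc c d) (h0 : v u0 = w u0) : ∀ u ∈ Icc c d, v u = w u := by
  have hvc : ContinuousOn v (Icc c d) := fun u hu => (hv u hu).continuousWithinAt
  have hwc : ContinuousOn w (Icc c d) := fun u hu => (hw u hu).continuousWithinAt
  obtain ⟨R1, hR1⟩ := isCompact_Icc.exists_bound_of_continuousOn hvc
  obtain ⟨R2, hR2⟩ := isCompact_Icc.exists_bound_of_continuousOn hwc
  set R : ℝ := max (max R1 R2) 0 with hRdef
  have hR : 0 ≤ R := le_max_right _ _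
  have hvR : ∀ u ∈ Icc c d, |v u| ≤ R := fun u hu =>
    (hR1 u hu).trans ((le_max_left _ _).trans (le_max_left _ _))
  have hwR : ∀ u ∈ Icc c d, |w u| ≤ R := fun u hu =>
    (hR2 u hu).trans ((le_max_right _ _).trans (le_max_left _ _))
  set U : ℝ := max |c| |d| with hUdef
  have hU : ∀ u ∈ Icc c d, |u| ≤ U := fun u hu => abs_le_max_abs_abs hu.1 hu.2
  set K : ℝ := ∑ j ∈ Finset.range (n + 1), |S.coeff j| * U ^ (n - j) * (j * R ^ (j - 1)) with hK
  have hU0 : 0 ≤ U := (abs_nonneg c).trans (le_max_left _ _)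
  have hK0 : 0 ≤ K := Finset.sum_nonneg fun j _ => by positivity
  have hlip : ∀ u ∈ Icc c d, LipschitzOnWith (Real.toNNReal K) (fun x => -(qf S n u x)) (Icc (-R) R) := by
    intro u hu
    refine LipschitzOnWith.of_dist_le_mul fun x hx y hy => ?_
    rw [Real.coe_toNNReal K hK0, Real.dist_eq, Real.dist_eq]
    have h1 : -qf S n u x - -qf S n u y = -(qf S n u x - qf S n u y) := by ring
    rw [h1, abs_neg]
    exact qf_lip S n hR (hU u hu) (abs_le.2 hx) (abs_le.2 hy)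
  intro u hu
  rcases le_total u0 u with h | h
  · have hsub : Icc u0 d ⊆ Icc c d := Icc_subset_Icc_left hu0.1
    have hsub' : Ico u0 d ⊆ Icc c d := Ico_subset_Icc_self.trans hsub
    exact ODE_solution_unique_of_mem_Icc_right (v := fun t x => -(qf S n t x)) (s := fun _ => Icc (-R) R)
      (fun t ht => hlip t (hsub' ht)) (hvc.mono hsub)
      (fun t ht => (hv t (hsub' ht)).mono_of_mem_nhdsWithin
        (Icc_mem_nhdsGE_of_mem ⟨(hsub' ht).1, ht.2⟩))
      (fun t ht => abs_le.1 (hvR t (hsub' ht))) (hwc.mono hsub)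
      (fun t ht => (hw t (hsub' ht)).mono_of_mem_nhdsWithin
        (Icc_mem_nhdsGE_of_mem ⟨(hsub' ht).1, ht.2⟩))
      (fun t ht => abs_le.1 (hwR t (hsub' ht))) h0 ⟨h, hu.2⟩
  · have hsub : Icc c u0 ⊆ Icc c d := Icc_subset_Icc_right hu0.2
    have hsub' : Ioc c u0 ⊆ Icc c d := Ioc_subset_Icc_self.trans hsub
    exact ODE_solution_unique_of_mem_Icc_left (v := fun t x => -(qf S n t x)) (s := fun _ => Icc (-R) R)
      (fun t ht => hlip t (hsub' ht)) (hvc.mono hsub)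
      (fun t ht => (hv t (hsub' ht)).mono_of_mem_nhdsWithin
        (Icc_mem_nhdsLE_of_mem ⟨ht.1, (hsub' ht).2⟩))
      (fun t ht => abs_le.1 (hvR t (hsub' ht))) (hwc.mono hsub)
      (fun t ht => (hw t (hsub' ht)).mono_of_mem_nhdsWithin
        (Icc_mem_nhdsLE_of_mem ⟨ht.1, (hsub' ht).2⟩))
      (fun t ht => abs_le.1 (hwR t (hsub' ht))) h0 ⟨hu.1, h⟩

end Pool.Agent.CritPer.L
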