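import Pool.Agent.CritPer.L.Exist
import Pool.Agent.CritPer.L.Bounds
import Pool.Agent.CritPer.L.Uniq

open Set Filter Topology Polynomial MeasureTheory

namespace Pool.Agent.CritPer.L

variable {S : ℝ[X]} {n : ℕ} {κ : ℝ}

theorem vs_isV (h : Bar S n κ) {a : ℝ} (ha : 0 < a) : IsV S n a (vs S n a) := by
  have hex := exists_isV h ha
  unfold vs
  rw [dif_pos hex]
  exact Classical.choose_spec hex

theorem vs_self (h : Bar S n κ) {a : ℝ} (ha : 0 < a) : vs S n a a = 0 := (vs_isV h ha).zero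

theorem vs_deriv (h : Bar S n κ) {a : ℝ} (ha : 0 < a) {u : ℝ} (hu : u ∈ Icc 0 a) :
    HasDerivWithinAt (vs S n a) (-(qf S n u (vs S n a u))) (Icc 0 a) u := (vs_isV h ha).der u hu

theorem vs_pos (h : Bar S n κ) {a : ℝ} (ha : 0 < a) {u : ℝ} (hu : u ∈ Ico 0 a) :
    0 < vs S n a u := isV_pos h ha (vs_isV h ha) u hu

theorem vs_nonneg (h : Bar S n κ) {a : ℝ} (ha : 0 < a) {u : ℝ} (hu : u ∈ Icc 0 a) :
    0 ≤ vs S n a u := by
  rcases hu.2.eq_or_lt with h1 | h1
  · rw [h1, vs_self h ha]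
  · exact (vs_pos h ha ⟨hu.1, h1⟩).le

theorem vs_le (h : Bar S n κ) {a : ℝ} (ha : 0 < a) {u : ℝ} (hu : u ∈ Icc 0 a) :
    vs S n a u ≤ κ * a := isV_le h ha (vs_isV h ha) u hu

theorem vs_continuousOn (h : Bar S n κ) {a : ℝ} (ha : 0 < a) :
    ContinuousOn (vs S n a) (Icc 0 a) := fun _ hu => (vs_deriv h ha hu).continuousWithinAt

/-- The orbits are strictly nested. -/
theorem vs_lt (h : Bar S n κ) {a b : ℝ} (ha : 0 < a) (hab : a < b) :
    ∀ u ∈ Icc 0 a, vs S n a u < vs S n b u := by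
  have hb : 0 < b := ha.trans hab
  have hsub : Icc 0 a ⊆ Icc 0 b := Icc_subset_Icc_right hab.le
  have ha' : a ∈ Icc 0 a := right_mem_Icc.2 ha.le
  intro u hu
  by_contra hcon
  rw [not_lt] at hcon
  have hpos : 0 < vs S n b a := vs_pos h hb ⟨ha.le, hab⟩
  have hc1 : ContinuousOn (fun u => vs S n b u - vs S n a u) (Icc u a) :=
    ((vs_continuousOn h hb).mono ((Icc_subset_Icc_left hu.1).trans hsub)).sub
      ((vs_continuousOn h ha).mono (Icc_subset_Icc_left hu.1))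
  have hiv := intermediate_value_Icc hu.2 hc1
  have h0 : (0 : ℝ) ∈ Icc (vs S n b u - vs S n a u) (vs S n b a - vs S n a a) := by
    rw [vs_self h ha]
    constructor <;> linarith
  obtain ⟨c, hc, hc0⟩ := hiv h0
  have hc' : c ∈ Icc 0 a := ⟨hu.1.trans hc.1, hc.2⟩
  have := sol_unique S n (c := 0) (d := a) (v := vs S n b) (w := vs S n a)
    (fun x hx => (vs_deriv h hb (hsub hx)).mono hsub) (fun x hx => vs_deriv h ha hx) hc'
    (by simp only at hc0; linarith) a ha'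
  rw [vs_self h ha] at this
  linarith

end Pool.Agent.CritPer.L
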