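import Pool.Agent.CritPer.L.Basic

open Set Filter Topology Polynomial MeasureTheory

namespace Pool.Agent.CritPer.L

variable {S : ℝ[X]} {n : ℕ} {κ : ℝ}

theorem uc_set_isClosed (h : Bar S n κ) {a : ℝ} (ha : 0 < a) :
    IsClosed {u | u ∈ Icc 0 a ∧ κ * u ≤ vs S n a u} := by
  have hc : ContinuousOn (fun u => vs S n a u - κ * u) (Icc 0 a) :=
    (vs_continuousOn h ha).sub (by fun_prop)
  have h1 := hc.preimage_isClosed_of_isClosed isClosed_Icc (isClosed_Ici (a := (0 : ℝ)))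
  convert h1 using 1
  ext u
  simp only [mem_ofPred_eq, mem_inter_iff, mem_preimage, mem_Ici, sub_nonneg]

theorem uc_set_bdd (S : ℝ[X]) (n : ℕ) (κ a : ℝ) :
    BddAbove {u | u ∈ Icc 0 a ∧ κ * u ≤ vs S n a u} := ⟨a, fun _ hu => hu.1.2⟩

theorem uc_set_zero (h : Bar S n κ) {a : ℝ} (ha : 0 < a) :
    (0 : ℝ) ∈ {u | u ∈ Icc 0 a ∧ κ * u ≤ vs S n a u} := by
  refine ⟨left_mem_Icc.2 ha.le, ?_⟩
  rw [mul_zero]
  exact vs_nonneg h ha (left_mem_Icc.2 ha.le)

theorem uc_mem (h : Bar S n κ) {a : ℝ} (ha : 0 < a) :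
    uc S n κ a ∈ Icc 0 a ∧ κ * uc S n κ a ≤ vs S n a (uc S n κ a) :=
  (uc_set_isClosed h ha).csSup_mem ⟨0, uc_set_zero h ha⟩ (uc_set_bdd S n κ a)

theorem uc_pos (h : Bar S n κ) {a : ℝ} (ha : 0 < a) : 0 < uc S n κ a := by
  have h0 : (0 : ℝ) ∈ Icc 0 a := left_mem_Icc.2 ha.le
  have hc : ContinuousWithinAt (fun u => vs S n a u - κ * u) (Icc 0 a) 0 :=
    ((vs_continuousOn h ha).sub (by fun_prop)) 0 h0
  have hpos : 0 < vs S n a 0 - κ * 0 := by
    have := vs_pos h ha (u := 0) ⟨le_rfl, ha⟩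
    simpa using this
  have hev : ∀ᶠ u in 𝓝[Icc 0 a] 0, 0 < vs S n a u - κ * u :=
    hc.eventually (lt_mem_nhds hpos)
  rw [nhdsWithin_Icc_eq_nhdsGE ha] at hev
  have hev2 : ∀ᶠ u in 𝓝[>] (0 : ℝ), 0 < vs S n a u - κ * u :=
    hev.filter_mono (nhdsWithin_mono _ Ioi_subset_Ici_self)
  have hev3 : ∀ᶠ u in 𝓝[>] (0 : ℝ), u ∈ Ioo 0 a := Ioo_mem_nhdsGT ha
  obtain ⟨u, hu1, hu2⟩ := (hev2.and hev3).exists
  refine hu2.1.trans_le (le_csSup (uc_set_bdd S n κ a) ⟨⟨hu2.1.le, hu2.2.le⟩, ?_⟩)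
  linarith

theorem uc_lt (h : Bar S n κ) {a : ℝ} (ha : 0 < a) : uc S n κ a < a := by
  obtain ⟨h1, h2⟩ := uc_mem h ha
  refine lt_of_le_of_ne h1.2 fun h3 => ?_
  rw [h3, vs_self h ha] at h2
  have := mul_pos h.hκ ha
  linarith

theorem lt_of_uc (h : Bar S n κ) {a u : ℝ} (ha : 0 < a) (h1 : uc S n κ a < u) (h2 : u ≤ a) :
    vs S n a u < κ * u := by
  by_contra hcon
  rw [not_lt] at hcon
  have : u ≤ uc S n κ a :=
    le_csSup (uc_set_bdd S n κ a) ⟨⟨(uc_pos h ha).le.trans h1.le, h2⟩, hcon⟩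
  linarith

theorem uc_eq (h : Bar S n κ) {a : ℝ} (ha : 0 < a) :
    vs S n a (uc S n κ a) = κ * uc S n κ a := by
  obtain ⟨h1, h2⟩ := uc_mem h ha
  have hc : ContinuousOn (fun u => vs S n a u - κ * u) (Icc (uc S n κ a) a) :=
    ((vs_continuousOn h ha).mono (Icc_subset_Icc_left h1.1)).sub (by fun_prop)
  have hiv := intermediate_value_Icc' h1.2 hc
  have h0 : (0 : ℝ) ∈ Icc (vs S n a a - κ * a) (vs S n a (uc S n κ a) - κ * uc S n κ a) := by
    rw [vs_self h ha]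
    have := mul_pos h.hκ ha
    constructor <;> linarith
  obtain ⟨c, hc1, hc2⟩ := hiv h0
  rcases hc1.1.eq_or_lt with h3 | h3
  · rw [← h3] at hc2
    simp only at hc2
    linarith
  · have := lt_of_uc h ha h3 hc1.2
    simp only at hc2
    linarith

theorem qf_pos_of_lt (h : Bar S n κ) {u v : ℝ} (hu : 0 < u) (hv : 0 ≤ v) (hvu : v < κ * u) :
    0 < qf S n u v := by
  rw [qf_eq h.deg hu.ne']
  exact mul_pos (pow_pos hu n) (h.pos _ (div_nonneg hv hu.le) (by rwa [div_lt_iff₀ hu]))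

/-- Once below the ray `v = κ u` (as `u` increases), the orbit stays below. -/
theorem ge_of_uc (h : Bar S n κ) {a u : ℝ} (ha : 0 < a) (h1 : 0 ≤ u) (h2 : u ≤ uc S n κ a) :
    κ * u ≤ vs S n a u := by
  by_contra hcon
  rw [not_le] at hcon
  have huca := (uc_lt h ha).le
  have hu0 : 0 < u := by
    rcases h1.eq_or_lt with h3 | h3
    · rw [← h3, mul_zero] at hcon
      exact absurd (vs_nonneg h ha (left_mem_Icc.2 ha.le)) (not_le.2 hcon)
    · exact h3
  set f : ℝ → ℝ := fun x => vs S n a x - κ * x with hf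
  have hcf : ContinuousOn f (Icc 0 a) := (vs_continuousOn h ha).sub (by fun_prop)
  have hsub : Icc u (uc S n κ a) ⊆ Icc 0 a := Icc_subset_Icc h1 huca
  have hAcl : IsClosed (Icc u (uc S n κ a) ∩ f ⁻¹' Ici 0) :=
    (hcf.mono hsub).preimage_isClosed_of_isClosed isClosed_Icc isClosed_Ici
  have hAne : (Icc u (uc S n κ a) ∩ f ⁻¹' Ici 0).Nonempty := by
    refine ⟨uc S n κ a, right_mem_Icc.2 h2, ?_⟩
    simp only [hf, mem_preimage, mem_Ici, uc_eq h ha, sub_self, le_refl]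
  have hAbd : BddBelow (Icc u (uc S n κ a) ∩ f ⁻¹' Ici 0) := ⟨u, fun x hx => hx.1.1⟩
  set c := sInf (Icc u (uc S n κ a) ∩ f ⁻¹' Ici 0) with hcdef
  obtain ⟨hcI, hcf0⟩ := hAcl.csInf_mem hAne hAbd
  have hcf0' : 0 ≤ f c := hcf0
  have huc : u < c := by
    rcases hcI.1.eq_or_lt with h3 | h3
    · have h3' : c = u := h3.symm
      rw [h3'] at hcf0'
      simp only [hf] at hcf0'
      linarith
    · exact h3
  have hneg : ∀ x ∈ Ioo u c, f x < 0 := by
    intro x hx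
    by_contra h4
    rw [not_lt] at h4
    have : c ≤ x := csInf_le hAbd ⟨⟨hx.1.le, hx.2.le.trans hcI.2⟩, h4⟩
    linarith [hx.2]
  have hca : c ≤ a := hcI.2.trans huca
  have hder : ∀ x ∈ Ioo u c, HasDerivAt f (-(qf S n x (vs S n a x)) - κ) x := by
    intro x hx
    have hx0 : 0 < x := hu0.trans hx.1
    have hxa : x < a := hx.2.trans_le hca
    have h5 := (vs_deriv h ha ⟨hx0.le, hxa.le⟩).hasDerivAt (Icc_mem_nhds hx0 hxa)
    have h6 : HasDerivAt (fun x : ℝ => κ * x) κ x := by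
      simpa using (hasDerivAt_id x).const_mul κ
    exact h5.sub h6
  have hanti : AntitoneOn f (Icc u c) := by
    apply antitoneOn_of_deriv_nonpos (convex_Icc u c)
      (hcf.mono (Icc_subset_Icc h1 hca))
    · rw [interior_Icc]
      exact fun x hx => (hder x hx).differentiableAt.differentiableWithinAt
    · rw [interior_Icc]
      intro x hx
      rw [(hder x hx).deriv]
      have hx0 : 0 < x := hu0.trans hx.1
      have hxa : x < a := hx.2.trans_le hca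
      have h7 := hneg x hx
      simp only [hf] at h7
      have h8 := qf_pos_of_lt h hx0 (vs_nonneg h ha ⟨hx0.le, hxa.le⟩) (by linarith)
      have := h.hκ
      linarith
  have h9 := hanti (left_mem_Icc.2 huc.le) (right_mem_Icc.2 huc.le) huc.le
  simp only [hf] at h9 hcf0'
  linarith

theorem uc_mono (h : Bar S n κ) {a b : ℝ} (ha : 0 < a) (hab : a < b) :
    uc S n κ a ≤ uc S n κ b := by
  obtain ⟨h1, h2⟩ := uc_mem h ha
  have h3 := vs_lt h ha hab _ h1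
  exact le_csSup (uc_set_bdd S n κ b) ⟨⟨h1.1, h1.2.trans hab.le⟩, h2.trans h3.le⟩

end Pool.Agent.CritPer.L
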