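import Pool.Agent.CritPer.Defs

/-!
Reversible systems `x' = y f`, `y' = -x q(x^2,y^2) f` with `f = (x^2+y^2)^k` and
`q(u,v) = sum_j S_j u^(n-j) v^j`. In `u = x^2`, `v = y^2` the orbit through `(sqrt a, 0)` is the
graph of the solution of `v' = -q(u,v)`, `v(a) = 0` on `[0,a]`.
-/

open Set Filter Topology Polynomial MeasureTheory

namespace Pool.Agent.CritPer.L

/-- Homogenisation: `q(u,v) = sum_j S_j u^(n-j) v^j`. -/
noncomputable def qf (S : ℝ[X]) (n : ℕ) (u v : ℝ) : ℝ :=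
  ∑ j ∈ Finset.range (n + 1), S.coeff j * u ^ (n - j) * v ^ j

/-- `S` has degree at most `n`, is positive on `[0,κ)` and negative on `(κ,∞)`. -/
structure Bar (S : ℝ[X]) (n : ℕ) (κ : ℝ) : Prop where
  deg : S.natDegree ≤ n
  hn : 1 ≤ n
  hκ : 0 < κ
  pos : ∀ K, 0 ≤ K → K < κ → 0 < S.eval K
  neg : ∀ K, κ < K → S.eval K < 0

/-- `v` solves `v' = -q(u,v)` on `[0,a]` with `v(a) = 0`. -/
structure IsV (S : ℝ[X]) (n : ℕ) (a : ℝ) (v : ℝ → ℝ) : Prop where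
  zero : v a = 0
  der : ∀ u ∈ Icc 0 a, HasDerivWithinAt v (-(qf S n u (v u))) (Icc 0 a) u

open Classical in
/-- The chosen solution. -/
noncomputable def vs (S : ℝ[X]) (n : ℕ) (a : ℝ) : ℝ → ℝ :=
  if h : ∃ v, IsV S n a v then Classical.choose h else 0

/-- `w(t) = v(at)/(a(1-t))`, in its continuous form. -/
noncomputable def ws (S : ℝ[X]) (n : ℕ) (a t : ℝ) : ℝ :=
  ∫ r in (0 : ℝ)..1, qf S n (a * (t + (1 - t) * r)) (vs S n a (a * (t + (1 - t) * r)))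

/-- `Wr = sqrt w(cos^2 p)`. -/
noncomputable def Wr (S : ℝ[X]) (n : ℕ) (a p : ℝ) : ℝ := Real.sqrt (ws S n a (Real.cos p ^ 2))

/-- `v` on the orbit, as a function of `p`. -/
noncomputable def Vp (S : ℝ[X]) (n : ℕ) (a p : ℝ) : ℝ := vs S n a (a * Real.cos p ^ 2)

/-- The period integral. -/
noncomputable def Ts (S : ℝ[X]) (n k : ℕ) (a : ℝ) : ℝ :=
  ∫ p in (0 : ℝ)..(2 * Real.pi), 1 / (Wr S n a p * (a * Real.cos p ^ 2 + Vp S n a p) ^ k)

/-- The orbit through `(b,0)`. -/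
noncomputable def crv (S : ℝ[X]) (n : ℕ) (b p : ℝ) : ℝ × ℝ :=
  (b * Real.cos p, -(b * Real.sin p * Wr S n (b ^ 2) p))

/-- The positive factor `(x^2+y^2)^k`. -/
noncomputable def FF (k : ℕ) : MvPolynomial (Fin 2) ℝ :=
  (MvPolynomial.X 0 ^ 2 + MvPolynomial.X 1 ^ 2) ^ k

/-- First component of the system. -/
noncomputable def PL (k : ℕ) : MvPolynomial (Fin 2) ℝ := MvPolynomial.X 1 * FF k

/-- Second component of the system. -/
noncomputable def QL (S : ℝ[X]) (n k : ℕ) : MvPolynomial (Fin 2) ℝ :=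
  -(MvPolynomial.X 0 * (∑ j ∈ Finset.range (n + 1), MvPolynomial.C (S.coeff j) *
    MvPolynomial.X 0 ^ (2 * (n - j)) * MvPolynomial.X 1 ^ (2 * j)) * FF k)

/-- The value of `u` at which the orbit meets the ray `v = κ u`. -/
noncomputable def uc (S : ℝ[X]) (n : ℕ) (κ a : ℝ) : ℝ :=
  sSup {u | u ∈ Icc 0 a ∧ κ * u ≤ vs S n a u}

/-- The weight `K^(-1/2) (1+K)^(-k)`. -/
noncomputable def Wt (k : ℕ) (K : ℝ) : ℝ := 1 / (Real.sqrt K * (1 + K) ^ k)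

noncomputable def Jw (S : ℝ[X]) (k n : ℕ) (κ E : ℝ) : ℝ :=
  ∫ m in (0 : ℝ)..Real.sqrt κ, 2 * n / ((m ^ 2 + E * S.eval (m ^ 2)) * (1 + m ^ 2) ^ k)

noncomputable def Jt (S : ℝ[X]) (n : ℕ) (κ E : ℝ) : ℝ :=
  ∫ m in (0 : ℝ)..Real.sqrt κ, 2 * n * m / (m ^ 2 + E * S.eval (m ^ 2))

/-- The part of `(n/2) T` before the ray `v = κ u` is met. -/
noncomputable def partI (S : ℝ[X]) (n k : ℕ) (κ a : ℝ) : ℝ :=
  2 * n * ∫ p in (0 : ℝ)..Real.arccos (Real.sqrt (uc S n κ a / a)),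
    1 / (Wr S n a p * (a * Real.cos p ^ 2 + Vp S n a p) ^ k)

/-- The part of `(n/2) T` with `r ≤ x ≤ s`. -/
noncomputable def tl (S : ℝ[X]) (n k : ℕ) (a r s : ℝ) : ℝ :=
  2 * n * ∫ x in r..s, 1 / (Real.sqrt (vs S n a (x ^ 2)) * (x ^ 2 + vs S n a (x ^ 2)) ^ k)

/-- `S(K) = Q(n(K-1)/η) (κ-K)/(κ-1)`. -/
noncomputable def Sp (Q : ℝ[X]) (η κ : ℝ) (n : ℕ) : ℝ[X] :=
  Q.comp (C ((n : ℝ) / η) * (X - 1)) * (C κ - X) * C (1 / (κ - 1))

noncomputable def JJ (Q : ℝ[X]) (E : ℝ) : ℝ := ∫ z : ℝ, 1 / (1 + E * Q.eval z)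

/-- `Q ≥ q0 (1+z^2)^2`. -/
def Coer (Q : ℝ[X]) (q0 : ℝ) : Prop := 0 < q0 ∧ ∀ z : ℝ, q0 * (1 + z ^ 2) ^ 2 ≤ Q.eval z

theorem qf_zero (S : ℝ[X]) (n : ℕ) (u : ℝ) : qf S n u 0 = S.coeff 0 * u ^ n := by
  unfold qf
  rw [Finset.sum_eq_single 0]
  · simp
  · intro j _ hj
    simp [hj]
  · intro h
    simp at h

theorem qf_eq {S : ℝ[X]} {n : ℕ} (h : S.natDegree ≤ n) {u : ℝ} (hu : u ≠ 0) (v : ℝ) :
    qf S n u v = u ^ n * S.eval (v / u) := by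
  rw [Polynomial.eval_eq_sum_range' (lt_of_le_of_lt h (Nat.lt_succ_self n)), Finset.mul_sum]
  unfold qf
  refine Finset.sum_congr rfl fun j hj => ?_
  have hj' : j ≤ n := Nat.lt_succ_iff.1 (Finset.mem_range.1 hj)
  rw [div_pow]
  have : u ^ n = u ^ (n - j) * u ^ j := by rw [← pow_add, Nat.sub_add_cancel hj']
  rw [this]
  field_simp

theorem continuous_qf (S : ℝ[X]) (n : ℕ) : Continuous (fun z : ℝ × ℝ => qf S n z.1 z.2) := by
  unfold qf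
  fun_prop

theorem eval_Sp (Q : ℝ[X]) (η κ : ℝ) (n : ℕ) (K : ℝ) :
    (Sp Q η κ n).eval K = Q.eval (n * (K - 1) / η) * (κ - K) / (κ - 1) := by
  simp only [Sp, eval_mul, eval_comp, eval_C, eval_sub, eval_X, eval_one]
  rw [show (n : ℝ) / η * (K - 1) = n * (K - 1) / η by ring]
  ring

theorem bar_Sp {Q : ℝ[X]} {q0 : ℝ} (hQ : Coer Q q0) {η κ : ℝ} (hη : 0 < η) (hκ : 1 < κ) {n : ℕ}
    (hn : Q.natDegree + 1 ≤ n) : Bar (Sp Q η κ n) n κ := by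
  have hpos : ∀ z : ℝ, 0 < Q.eval z := fun z =>
    lt_of_lt_of_le (mul_pos hQ.1 (by positivity)) (hQ.2 z)
  have hκ1 : 0 < κ - 1 := by linarith
  refine ⟨?_, by omega, by linarith, fun K _ h2 => ?_, fun K h1 => ?_⟩
  · unfold Sp
    refine (natDegree_mul_le).trans ?_
    refine (Nat.add_le_add (natDegree_mul_le) (natDegree_C _).le).trans ?_
    have h1 : (Q.comp (C ((n : ℝ) / η) * (X - 1))).natDegree ≤ Q.natDegree := by
      refine natDegree_comp_le.trans ?_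
      have : (C ((n : ℝ) / η) * (X - 1) : ℝ[X]).natDegree ≤ 1 := by
        refine natDegree_mul_le.trans ?_
        rw [natDegree_C, zero_add]
        exact (natDegree_X_sub_C (1 : ℝ)).le
      calc Q.natDegree * _ ≤ Q.natDegree * 1 := Nat.mul_le_mul_left _ this
        _ = _ := by ring
    have h2 : (C κ - X : ℝ[X]).natDegree ≤ 1 := by
      refine (natDegree_sub_le _ _).trans ?_
      simp
    omega
  · rw [eval_Sp]
    exact div_pos (mul_pos (hpos _) (by linarith)) hκ1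
  · rw [eval_Sp]
    exact div_neg_of_neg_of_pos (mul_neg_of_pos_of_neg (hpos _) (by linarith)) hκ1

end Pool.Agent.CritPer.L
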