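import Pool.Agent.CritPer.L.Defs

open Set Filter Topology Polynomial MeasureTheory

namespace Pool.Agent.CritPer.L

theorem cont_ext (f : C(Icc (0 : ℝ) 1, ℝ)) : Continuous (IccExtend (zero_le_one' ℝ) f) :=
  f.continuous.Icc_extend'

theorem cont_prim {g : ℝ → ℝ} (hg : Continuous g) :
    Continuous fun t : Icc (0 : ℝ) 1 => ∫ s in (t : ℝ)..1, g s := by
  have h1 : Continuous fun t : ℝ => ∫ s in (1 : ℝ)..t, g s :=
    intervalIntegral.continuous_primitive (fun a b => hg.intervalIntegrable a b) 1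
  have h2 : (fun t : Icc (0 : ℝ) 1 => ∫ s in (t : ℝ)..1, g s)
      = fun t : Icc (0 : ℝ) 1 => -∫ s in (1 : ℝ)..(t : ℝ), g s := by
    funext t
    rw [intervalIntegral.integral_symm]
  rw [h2]
  exact (h1.comp continuous_subtype_val).neg

/-- `(Vop f)(t) = int_t^1 f`. -/
theorem exists_Vop : ∃ V : C(Icc (0 : ℝ) 1, ℝ) →L[ℝ] C(Icc (0 : ℝ) 1, ℝ),
    ∀ (f : C(Icc (0 : ℝ) 1, ℝ)) (t : Icc (0 : ℝ) 1),
      V f t = ∫ s in (t : ℝ)..1, IccExtend zero_le_one f s := by
  let L : C(Icc (0 : ℝ) 1, ℝ) →ₗ[ℝ] C(Icc (0 : ℝ) 1, ℝ) :=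
    { toFun := fun f => ⟨fun t => ∫ s in (t : ℝ)..1, IccExtend zero_le_one f s,
        cont_prim (cont_ext f)⟩
      map_add' := by
        intro f g
        ext t
        have h : (IccExtend (zero_le_one' ℝ) ((f + g : C(Icc (0 : ℝ) 1, ℝ))) : ℝ → ℝ)
            = fun s => IccExtend (zero_le_one' ℝ) f s + IccExtend (zero_le_one' ℝ) g s := by
          funext s; simp [IccExtend]
        show (∫ s in (t : ℝ)..1, IccExtend (zero_le_one' ℝ) ((f + g : C(Icc (0 : ℝ) 1, ℝ))) s) = _
        rw [h, intervalIntegral.integral_add ((cont_ext f).intervalIntegrable _ _)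
          ((cont_ext g).intervalIntegrable _ _)]
        rfl
      map_smul' := by
        intro c f
        ext t
        have h : (IccExtend (zero_le_one' ℝ) ((c • f : C(Icc (0 : ℝ) 1, ℝ))) : ℝ → ℝ)
            = fun s => c * IccExtend (zero_le_one' ℝ) f s := by
          funext s; simp [IccExtend]
        show (∫ s in (t : ℝ)..1, IccExtend (zero_le_one' ℝ) ((c • f : C(Icc (0 : ℝ) 1, ℝ))) s) = _
        rw [h, intervalIntegral.integral_const_mul]
        rfl }
  refine ⟨L.mkContinuous 1 ?_, fun f t => rfl⟩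
  intro f
  rw [one_mul, ContinuousMap.norm_le _ (norm_nonneg f)]
  intro t
  have h := intervalIntegral.norm_integral_le_of_norm_le_const (a := (t : ℝ)) (b := 1)
    (f := fun s => IccExtend (zero_le_one' ℝ) f s) (C := ‖f‖)
    (fun s _ => by simpa [IccExtend] using f.norm_coe_le_norm (projIcc 0 1 zero_le_one s))
  have h2 : |1 - (t : ℝ)| ≤ 1 := by
    rw [abs_le]; constructor <;> linarith [t.2.1, t.2.2]
  calc ‖L f t‖ ≤ ‖f‖ * |1 - (t : ℝ)| := h
    _ ≤ ‖f‖ * 1 := mul_le_mul_of_nonneg_left h2 (norm_nonneg f)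
    _ = ‖f‖ := mul_one _

theorem prim_deriv {g : ℝ → ℝ} (hg : Continuous g) (t : ℝ) :
    HasDerivAt (fun t : ℝ => ∫ s in t..1, g s) (-g t) t := by
  have h1 : HasDerivAt (fun t : ℝ => ∫ s in (1 : ℝ)..t, g s) (g t) t :=
    intervalIntegral.integral_hasDerivAt_right (hg.intervalIntegrable _ _)
      (hg.stronglyMeasurableAtFilter _ _) hg.continuousAt
  have h2 : (fun t : ℝ => ∫ s in t..1, g s) = fun t : ℝ => -∫ s in (1 : ℝ)..t, g s := by
    funext t
    rw [intervalIntegral.integral_symm]
  rw [h2]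
  exact h1.neg

/-- The Volterra equation `h(t) - int_t^1 β h = g(t)` is uniquely solvable. -/
theorem volterra_bij {V : C(Icc (0 : ℝ) 1, ℝ) →L[ℝ] C(Icc (0 : ℝ) 1, ℝ)}
    (hV : ∀ (f : C(Icc (0 : ℝ) 1, ℝ)) (t : Icc (0 : ℝ) 1),
      V f t = ∫ s in (t : ℝ)..1, IccExtend zero_le_one f s) (β : C(Icc (0 : ℝ) 1, ℝ)) :
    Function.Bijective (fun h : C(Icc (0 : ℝ) 1, ℝ) => h - V (β * h)) := by
  set b : ℝ → ℝ := IccExtend (zero_le_one' ℝ) β with hb
  have hbc : Continuous b := cont_ext β
  set B : ℝ → ℝ := fun t => -∫ s in t..1, b s with hB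
  have hBd : ∀ t, HasDerivAt B (b t) t := by
    intro t
    have h := (prim_deriv hbc t).neg
    rw [neg_neg] at h
    exact h
  have hBc : Continuous B := continuous_iff_continuousAt.2 fun t => (hBd t).continuousAt
  have hmul : ∀ f : C(Icc (0 : ℝ) 1, ℝ), (IccExtend (zero_le_one' ℝ) ((β * f : C(Icc (0 : ℝ) 1, ℝ))) : ℝ → ℝ)
      = fun s => b s * IccExtend (zero_le_one' ℝ) f s := by
    intro f; funext s; simp [hb, IccExtend]
  constructor
  · -- injective
    intro h1 h2 h12
    have h12' : h1 - V (β * h1) = h2 - V (β * h2) := h12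
    set h := h1 - h2 with hh
    have e1 : h = V (β * h) := by
      rw [hh, mul_sub, map_sub]
      have h0 : h1 - h2 = V (β * h1) - V (β * h2) := by
        have h3 : h1 - V (β * h1) - (h2 - V (β * h2)) = 0 := sub_eq_zero.2 h12'
        have h4 : h1 - h2 - (V (β * h1) - V (β * h2)) = 0 := by rw [← h3]; abel
        exact sub_eq_zero.1 h4
      exact h0
    set H : ℝ → ℝ := IccExtend (zero_le_one' ℝ) h with hH
    have hHc : Continuous H := cont_ext h
    set D : ℝ → ℝ := fun t => ∫ s in t..1, b s * H s with hD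
    have hDd : ∀ t, HasDerivAt D (-(b t * H t)) t := fun t => prim_deriv (hbc.mul hHc) t
    have hHD : ∀ t (ht : t ∈ Icc (0 : ℝ) 1), H t = D t := by
      intro t ht
      have e2 : h ⟨t, ht⟩ = V (β * h) ⟨t, ht⟩ := by rw [← e1]
      rw [hV, hmul] at e2
      rw [hH, IccExtend_of_mem _ _ ht, e2]
    have hconst : ∀ t ∈ Icc (0 : ℝ) 1, D t * Real.exp (B t) = 0 := by
      have hcon : ∀ x ∈ Icc (0 : ℝ) 1, D x * Real.exp (B x) = D 0 * Real.exp (B 0) := by
        apply constant_of_has_deriv_right_zero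
        · apply Continuous.continuousOn
          exact (continuous_iff_continuousAt.2 fun t => (hDd t).continuousAt).mul hBc.rexp
        · intro x hx
          have h3 := (hDd x).mul ((hBd x).exp)
          have h4 : -(b x * H x) * Real.exp (B x) + D x * (Real.exp (B x) * b x) = 0 := by
            rw [hHD x ⟨hx.1, hx.2.le⟩]; ring
          rw [h4] at h3
          exact h3.hasDerivWithinAt
      have h1' := hcon 1 ⟨zero_le_one, le_rfl⟩
      have hD1 : D 1 = 0 := by simp [hD]
      intro t ht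
      rw [hcon t ht, ← h1', hD1, zero_mul]
    have hz : h = 0 := by
      ext t
      have h5 := hHD t t.2
      have h6 := hconst t t.2
      have h7 : D t = 0 := by
        rcases mul_eq_zero.1 h6 with h | h
        · exact h
        · exact absurd h (Real.exp_pos _).ne'
      have h8 : H t = h t := by rw [hH, IccExtend_of_mem _ _ t.2]
      rw [← h8, h5, h7]; rfl
    exact sub_eq_zero.1 hz
  · -- surjective
    intro g
    set G : ℝ → ℝ := IccExtend (zero_le_one' ℝ) g with hG
    have hGc : Continuous G := cont_ext g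
    have hc1 : Continuous fun s => Real.exp (B s) * (b s * G s) :=
      hBc.rexp.mul (hbc.mul hGc)
    set H : ℝ → ℝ := fun t => Real.exp (-B t) * ∫ s in t..1, Real.exp (B s) * (b s * G s) with hH
    have hHd : ∀ t, HasDerivAt H (-(b t * (G t + H t))) t := by
      intro t
      have h3 := ((hBd t).neg.exp).mul (prim_deriv hc1 t)
      have h4 : Real.exp (-B t) * (-b t) * (∫ s in t..1, Real.exp (B s) * (b s * G s))
          + Real.exp (-B t) * (-(Real.exp (B t) * (b t * G t))) = -(b t * (G t + H t)) := by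
        have h5 : Real.exp (-B t) * Real.exp (B t) = 1 := by rw [← Real.exp_add]; simp
        have h6 : Real.exp (-B t) * (-(Real.exp (B t) * (b t * G t)))
            = -((Real.exp (-B t) * Real.exp (B t)) * (b t * G t)) := by ring
        rw [h6, h5]
        simp only [hH]; ring
      rw [← h4]
      exact h3
    have hHc : Continuous H := continuous_iff_continuousAt.2 fun t => (hHd t).continuousAt
    refine ⟨g + ⟨fun t : Icc (0 : ℝ) 1 => H t, hHc.comp continuous_subtype_val⟩, ?_⟩
    set K : C(Icc (0 : ℝ) 1, ℝ) := ⟨fun t : Icc (0 : ℝ) 1 => H t, hHc.comp continuous_subtype_val⟩ with hK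
    show g + K - V (β * (g + K)) = g
    have key : V (β * (g + K)) = K := by
      ext t
      rw [hV, hmul]
      have h7 : (∫ s in (t : ℝ)..1, b s * IccExtend (zero_le_one' ℝ) ((g + K : C(Icc (0 : ℝ) 1, ℝ))) s)
          = ∫ s in (t : ℝ)..1, b s * (G s + H s) := by
        apply intervalIntegral.integral_congr
        intro s hs
        rw [uIcc_of_le t.2.2] at hs
        have hs' : s ∈ Icc (0 : ℝ) 1 := ⟨t.2.1.trans hs.1, hs.2⟩
        simp only
        rw [IccExtend_of_mem _ _ hs', hG, IccExtend_of_mem _ _ hs']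
        rfl
      rw [h7]
      have h8 : (∫ s in (t : ℝ)..1, -(b s * (G s + H s))) = H 1 - H t :=
        intervalIntegral.integral_eq_sub_of_hasDerivAt (fun s _ => hHd s)
          ((hbc.mul (hGc.add hHc)).neg.intervalIntegrable _ _)
      have h9 : H 1 = 0 := by simp [hH]
      rw [intervalIntegral.integral_neg, h9] at h8
      show _ = H t
      linarith
    rw [key]
    abel

end Pool.Agent.CritPer.L
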