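import Pool.Agent.CritPer.L.Basic
import Pool.Agent.CritPer.L.Volt

open Set Filter Topology Polynomial MeasureTheory

namespace Pool.Agent.CritPer.L

open scoped ContDiff

namespace DepAux

/-- The identity function in `C([0,1])`. -/
def ii : C(Icc (0 : ℝ) 1, ℝ) := ⟨fun t => (t : ℝ), continuous_subtype_val⟩

/-- `t ↦ q(a t, y(t))`. -/
noncomputable def GG (S : ℝ[X]) (n : ℕ) (a : ℝ) (y : C(Icc (0 : ℝ) 1, ℝ)) : C(Icc (0 : ℝ) 1, ℝ) :=
  ∑ j ∈ Finset.range (n + 1), (S.coeff j * a ^ (n - j)) • (ii ^ (n - j) * y ^ j)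

theorem GG_apply (S : ℝ[X]) (n : ℕ) (a : ℝ) (y : C(Icc (0 : ℝ) 1, ℝ)) (t : Icc (0 : ℝ) 1) :
    GG S n a y t = qf S n (a * t) (y t) := by
  unfold GG qf
  rw [ContinuousMap.coe_sum, Finset.sum_apply]
  refine Finset.sum_congr rfl fun j _ => ?_
  simp only [ContinuousMap.coe_smul, ContinuousMap.coe_mul, ContinuousMap.coe_pow, Pi.smul_apply,
    Pi.mul_apply, Pi.pow_apply, smul_eq_mul, ii, ContinuousMap.coe_mk, mul_pow]
  ring

/-- The equation. -/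
noncomputable def Ph (V : C(Icc (0 : ℝ) 1, ℝ) →L[ℝ] C(Icc (0 : ℝ) 1, ℝ)) (S : ℝ[X]) (n : ℕ)
    (p : ℝ × C(Icc (0 : ℝ) 1, ℝ)) : C(Icc (0 : ℝ) 1, ℝ) := p.2 - p.1 • V (GG S n p.1 p.2)

theorem contDiff_Ph (V : C(Icc (0 : ℝ) 1, ℝ) →L[ℝ] C(Icc (0 : ℝ) 1, ℝ)) (S : ℝ[X]) (n : ℕ) :
    ContDiff ℝ ω (Ph V S n) := by
  unfold Ph
  have h1 : ContDiff ℝ ω (fun p : ℝ × C(Icc (0 : ℝ) 1, ℝ) => GG S n p.1 p.2) := by
    unfold GG
    refine ContDiff.sum fun j _ => ?_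
    exact (contDiff_const.mul (contDiff_fst.pow _)).smul (contDiff_const.mul (contDiff_snd.pow _))
  exact contDiff_snd.sub (contDiff_fst.smul (V.contDiff.comp h1))

theorem hasFDerivAt_GG (S : ℝ[X]) (n : ℕ) (a : ℝ) (y : C(Icc (0 : ℝ) 1, ℝ)) :
    ∃ γ : C(Icc (0 : ℝ) 1, ℝ), HasFDerivAt (fun y => GG S n a y) (ContinuousLinearMap.mul ℝ _ γ) y := by
  unfold GG
  have h1 : ∀ j ∈ Finset.range (n + 1), HasFDerivAt
      (fun y : C(Icc (0 : ℝ) 1, ℝ) => (S.coeff j * a ^ (n - j)) • (ii ^ (n - j) * y ^ j))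
      (ContinuousLinearMap.mul ℝ _ ((S.coeff j * a ^ (n - j)) • (ii ^ (n - j) * (j • y ^ (j - 1))))) y := by
    intro j _
    have h2 := (((hasFDerivAt_pow (𝕜 := ℝ) j (x := y)).const_mul (ii ^ (n - j))).const_smul
      (S.coeff j * a ^ (n - j)))
    refine h2.congr_fderiv ?_
    ext h t
    simp only [_root_.smul_apply, ContinuousLinearMap.id_apply, smul_eq_mul,
      ContinuousLinearMap.mul_apply', ContinuousMap.coe_smul, ContinuousMap.coe_mul, Pi.smul_apply,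
      Pi.mul_apply]
    ring
  refine ⟨∑ j ∈ Finset.range (n + 1), (S.coeff j * a ^ (n - j)) • (ii ^ (n - j) * (j • y ^ (j - 1))),
    (HasFDerivAt.fun_sum h1).congr_fderiv ?_⟩
  rw [map_sum]

/-- The partial derivative of the equation is a Volterra operator. -/
theorem isInvertible_Ph {V : C(Icc (0 : ℝ) 1, ℝ) →L[ℝ] C(Icc (0 : ℝ) 1, ℝ)}
    (hV : ∀ (f : C(Icc (0 : ℝ) 1, ℝ)) (t : Icc (0 : ℝ) 1),
      V f t = ∫ s in (t : ℝ)..1, IccExtend zero_le_one f s) (S : ℝ[X]) (n : ℕ)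
    (u : ℝ × C(Icc (0 : ℝ) 1, ℝ)) :
    (fderiv ℝ (Ph V S n) u ∘L .inr ℝ ℝ C(Icc (0 : ℝ) 1, ℝ)).IsInvertible := by
  obtain ⟨γ, hγ⟩ := hasFDerivAt_GG S n u.1 u.2
  have h1 : HasFDerivAt (fun y => Ph V S n (u.1, y))
      (fderiv ℝ (Ph V S n) u ∘L .inr ℝ ℝ C(Icc (0 : ℝ) 1, ℝ)) u.2 := by
    have h2 : HasFDerivAt (Ph V S n) (fderiv ℝ (Ph V S n) u) (u.1, u.2) :=
      ((contDiff_Ph V S n).differentiable (by simp)).differentiableAt.hasFDerivAt
    exact h2.comp u.2 (hasFDerivAt_prodMk_right u.1 u.2)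
  have h3 : HasFDerivAt (fun y => Ph V S n (u.1, y))
      (ContinuousLinearMap.id ℝ _ - u.1 • V ∘L (ContinuousLinearMap.mul ℝ _ γ)) u.2 := by
    unfold Ph
    exact (hasFDerivAt_id _).sub (((V.hasFDerivAt).comp u.2 hγ).const_smul u.1)
  rw [h1.unique h3]
  have hb := volterra_bij hV (u.1 • γ)
  set L : C(Icc (0 : ℝ) 1, ℝ) →L[ℝ] C(Icc (0 : ℝ) 1, ℝ) :=
    ContinuousLinearMap.id ℝ _ - u.1 • V ∘L (ContinuousLinearMap.mul ℝ _ γ) with hL
  have hfun : ∀ h, L h = h - V ((u.1 • γ) * h) := by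
    intro h
    rw [hL]
    simp only [_root_.sub_apply, ContinuousLinearMap.id_apply,
      _root_.smul_apply, ContinuousLinearMap.comp_apply,
      ContinuousLinearMap.mul_apply', smul_mul_assoc, map_smul]
  have hb' : Function.Bijective L := by
    have : (L : C(Icc (0 : ℝ) 1, ℝ) → C(Icc (0 : ℝ) 1, ℝ)) = fun h => h - V ((u.1 • γ) * h) :=
      funext hfun
    rw [this]
    exact hb
  refine ⟨ContinuousLinearEquiv.ofBijective L (LinearMap.ker_eq_bot.2 hb'.1)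
    (LinearMap.range_eq_top.2 hb'.2), ?_⟩
  rw [ContinuousLinearEquiv.coe_ofBijective]

/-- A solution of the equation gives the solution of the differential equation. -/
theorem isV_of_Ph {V : C(Icc (0 : ℝ) 1, ℝ) →L[ℝ] C(Icc (0 : ℝ) 1, ℝ)}
    (hV : ∀ (f : C(Icc (0 : ℝ) 1, ℝ)) (t : Icc (0 : ℝ) 1),
      V f t = ∫ s in (t : ℝ)..1, IccExtend zero_le_one f s) (S : ℝ[X]) (n : ℕ) {a : ℝ} (ha : 0 < a)
    {y : C(Icc (0 : ℝ) 1, ℝ)} (hy : Ph V S n (a, y) = 0) :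
    IsV S n a (fun u => IccExtend zero_le_one y (u / a)) := by
  set g : ℝ → ℝ := IccExtend zero_le_one (GG S n a y) with hg
  have hgc : Continuous g := (GG S n a y).continuous.Icc_extend'
  have h1 : ∀ t : Icc (0 : ℝ) 1, y t = a * ∫ s in (t : ℝ)..1, g s := by
    intro t
    have h2 : y = a • V (GG S n a y) := sub_eq_zero.1 hy
    have h3 := congrArg (fun f : C(Icc (0 : ℝ) 1, ℝ) => f t) h2
    simp only [ContinuousMap.coe_smul, Pi.smul_apply, smul_eq_mul] at h3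
    rw [h3, hV]
  have h4 : ∀ u ∈ Icc 0 a, IccExtend zero_le_one y (u / a) = a * ∫ s in (u / a)..1, g s := by
    intro u hu
    have hu' : u / a ∈ Icc (0 : ℝ) 1 := ⟨div_nonneg hu.1 ha.le, (div_le_one ha).2 hu.2⟩
    rw [IccExtend_of_mem _ _ hu', h1]
  refine ⟨?_, fun u hu => ?_⟩
  · rw [h4 a ⟨ha.le, le_rfl⟩, div_self ha.ne', intervalIntegral.integral_same, mul_zero]
  · have hu' : u / a ∈ Icc (0 : ℝ) 1 := ⟨div_nonneg hu.1 ha.le, (div_le_one ha).2 hu.2⟩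
    have h5 : HasDerivAt (fun u => a * ∫ s in (u / a)..1, g s) (-(g (u / a))) u := by
      have h6 : HasDerivAt (fun x => ∫ s in x..1, g s) (-(g (u / a))) (u / a) :=
        intervalIntegral.integral_hasDerivAt_left (hgc.intervalIntegrable _ _)
          hgc.stronglyMeasurable.stronglyMeasurableAtFilter hgc.continuousAt
      have h7 := (h6.comp u ((hasDerivAt_id u).div_const a)).const_mul a
      refine h7.congr_deriv ?_
      field_simp
    have h8 : g (u / a) = qf S n u (IccExtend zero_le_one y (u / a)) := by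
      rw [hg, IccExtend_of_mem _ _ hu', IccExtend_of_mem _ _ hu', GG_apply]
      congr 1
      field_simp
    rw [← h8]
    exact h5.hasDerivWithinAt.congr (fun x hx => h4 x hx) (h4 u hu)

/-- The rescaled solution, as an element of `C([0,1])`. -/
noncomputable def y0 {S : ℝ[X]} {n : ℕ} {κ : ℝ} (h : Bar S n κ) {a0 : ℝ} (ha : 0 < a0) :
    C(Icc (0 : ℝ) 1, ℝ) :=
  ⟨fun t => vs S n a0 (a0 * t), (vs_continuousOn h ha).comp_continuous (by fun_prop) fun t =>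
    ⟨mul_nonneg ha.le t.2.1, by nlinarith [t.2.2]⟩⟩

theorem Ph_y0 {V : C(Icc (0 : ℝ) 1, ℝ) →L[ℝ] C(Icc (0 : ℝ) 1, ℝ)}
    (hV : ∀ (f : C(Icc (0 : ℝ) 1, ℝ)) (t : Icc (0 : ℝ) 1),
      V f t = ∫ s in (t : ℝ)..1, IccExtend zero_le_one f s) {S : ℝ[X]} {n : ℕ} {κ : ℝ}
    (h : Bar S n κ) {a0 : ℝ} (ha : 0 < a0) : Ph V S n (a0, y0 h ha) = 0 := by
  unfold Ph
  rw [sub_eq_zero]
  ext t
  simp only [ContinuousMap.coe_smul, Pi.smul_apply, smul_eq_mul, hV]
  set g : ℝ → ℝ := IccExtend zero_le_one (GG S n a0 (y0 h ha)) with hg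
  have hgc : Continuous g := (GG S n a0 (y0 h ha)).continuous.Icc_extend'
  have hmem : ∀ s ∈ Icc (t : ℝ) 1, a0 * s ∈ Icc 0 a0 := fun s hs =>
    ⟨mul_nonneg ha.le (t.2.1.trans hs.1), by nlinarith [hs.2]⟩
  have h1 : ∫ s in (t : ℝ)..1, -(a0 * g s) = vs S n a0 (a0 * 1) - vs S n a0 (a0 * t) := by
    apply intervalIntegral.integral_eq_sub_of_hasDerivAt_of_le (f := fun s => vs S n a0 (a0 * s)) t.2.2
    · exact (vs_continuousOn h ha).comp (by fun_prop) hmem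
    · intro s hs
      have hs' : s ∈ Icc (0 : ℝ) 1 := ⟨t.2.1.trans hs.1.le, hs.2.le⟩
      have hs2 : 0 < a0 * s := mul_pos ha (lt_of_le_of_lt t.2.1 hs.1)
      have hs3 : a0 * s < a0 := by nlinarith [hs.2]
      have h2 : HasDerivAt (vs S n a0) (-(qf S n (a0 * s) (vs S n a0 (a0 * s)))) (a0 * s) :=
        (vs_deriv h ha ⟨hs2.le, hs3.le⟩).hasDerivAt (Icc_mem_nhds hs2 hs3)
      have h3 := h2.comp s ((hasDerivAt_id s).const_mul a0)
      refine h3.congr_deriv ?_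
      rw [hg, IccExtend_of_mem _ _ hs', GG_apply]
      simp only [y0, ContinuousMap.coe_mk]
      ring
    · exact ((continuous_const.mul hgc).neg).intervalIntegrable _ _
  rw [mul_one, vs_self h ha, intervalIntegral.integral_neg, intervalIntegral.integral_const_mul] at h1
  change vs S n a0 (a0 * t) = _
  linarith

end DepAux

open DepAux

/-- Analytic dependence on `a` of the rescaled solution `t ↦ v(a, at)` in `C([0,1])`. -/
theorem dep {S : ℝ[X]} {n : ℕ} {κ : ℝ} (h : Bar S n κ) {a0 : ℝ} (ha : 0 < a0) :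
    ∃ ψ : ℝ → C(Icc (0 : ℝ) 1, ℝ), ContDiffAt ℝ ω ψ a0 ∧
      ∀ᶠ a in 𝓝 a0, ∀ t : Icc (0 : ℝ) 1, ψ a t = vs S n a (a * t) := by
  obtain ⟨V, hV⟩ := exists_Vop
  have cdf : ContDiffAt ℝ ω (Ph V S n) (a0, y0 h ha) := (contDiff_Ph V S n).contDiffAt
  have hinv := isInvertible_Ph hV S n (a0, y0 h ha)
  refine ⟨cdf.implicitFunction (by simp) hinv, cdf.contDiffAt_implicitFunction (by simp) hinv, ?_⟩
  filter_upwards [cdf.eventually_apply_implicitFunction (by simp) hinv, eventually_gt_nhds ha] with a h1 h2 t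
  rw [Ph_y0 hV h ha] at h1
  set y := cdf.implicitFunction (by simp) hinv a with hy
  have h3 := isV_of_Ph hV S n h2 h1
  have h4 := sol_unique S n h3.der (fun u hu => vs_deriv h h2 hu) (u0 := a) ⟨h2.le, le_rfl⟩
    (by rw [h3.zero, vs_self h h2]) (a * t) ⟨mul_nonneg h2.le t.2.1, by nlinarith [t.2.2]⟩
  rw [← h4, mul_div_cancel_left₀ _ h2.ne', IccExtend_of_mem _ _ t.2]

/-- Continuity in `a` at fixed `u`. -/
theorem vs_continuousOn_left {S : ℝ[X]} {n : ℕ} {κ : ℝ} (h : Bar S n κ) {u : ℝ} (hu : 0 ≤ u) :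
    ContinuousOn (fun a => vs S n a u) (Ici u ∩ Ioi 0) := by
  intro a0 ha0
  obtain ⟨ψ, hψ, hev⟩ := dep h ha0.2
  have h1 : ContinuousAt (fun a => ψ a (projIcc (0 : ℝ) 1 zero_le_one (u / a))) a0 := by
    have h2 : ContinuousAt (fun a => (ψ a, projIcc (0 : ℝ) 1 zero_le_one (u / a))) a0 := by
      refine hψ.continuousAt.prodMk ?_
      exact continuous_projIcc.continuousAt.comp (continuousAt_const.div continuousAt_id ha0.2.ne')
    exact ContinuousAt.comp (f := fun a => (ψ a, projIcc (0 : ℝ) 1 zero_le_one (u / a)))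
      (g := fun p : C(Icc (0 : ℝ) 1, ℝ) × Icc (0 : ℝ) 1 => p.1 p.2) continuous_eval.continuousAt h2
  refine (h1.continuousWithinAt (s := Ici u ∩ Ioi 0)).congr_of_eventuallyEq ?_ ?_
  · filter_upwards [mem_nhdsWithin_of_mem_nhds hev, self_mem_nhdsWithin] with a h3 h4
    have h5 : u / a ∈ Icc (0 : ℝ) 1 := ⟨div_nonneg hu (le_of_lt h4.2), (div_le_one h4.2).2 h4.1⟩
    rw [projIcc_of_mem _ h5, h3]
    have h6 : a ≠ 0 := ne_of_gt h4.2
    congr 1
    field_simp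
  · have h3 := hev.self_of_nhds
    have h5 : u / a0 ∈ Icc (0 : ℝ) 1 := ⟨div_nonneg hu (le_of_lt ha0.2), (div_le_one ha0.2).2 ha0.1⟩
    rw [projIcc_of_mem _ h5, h3]
    have h6 : a0 ≠ 0 := ne_of_gt ha0.2
    congr 1
    field_simp

end Pool.Agent.CritPer.L
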