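import Pool.Agent.CritPer.L.Defs

open Set Filter Topology Polynomial MeasureTheory

namespace Pool.Agent.CritPer.L

theorem integrable_JJ {Q : ℝ[X]} {q0 : ℝ} (hQ : Coer Q q0) {E : ℝ} (hE : 0 < E) :
    Integrable (fun z : ℝ => 1 / (1 + E * Q.eval z)) := by
  have hq := hQ.1
  refine Integrable.mono' (g := fun z : ℝ => (1 / (E * q0)) * (1 + z ^ 2)⁻¹)
    (integrable_inv_one_add_sq.const_mul _) ?_ (Filter.Eventually.of_forall fun z => ?_)
  · refine Measurable.aestronglyMeasurable ?_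
    fun_prop
  · have h1 := hQ.2 z
    have h2 : 0 < E * q0 := by positivity
    have h3 : E * q0 * (1 + z ^ 2) ≤ 1 + E * Q.eval z := by
      have h4 : q0 * (1 + z ^ 2) ≤ Q.eval z := by
        refine le_trans ?_ h1
        gcongr
        nlinarith [sq_nonneg z]
      nlinarith [mul_le_mul_of_nonneg_left h4 hE.le]
    have h5 : 0 < E * q0 * (1 + z ^ 2) := by positivity
    rw [Real.norm_of_nonneg (by
      apply div_nonneg zero_le_one; linarith)]
    have : (1 / (E * q0)) * (1 + z ^ 2)⁻¹ = 1 / (E * q0 * (1 + z ^ 2)) := by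
      rw [one_div, one_div, mul_inv (E * q0)]
    rw [this]
    exact one_div_le_one_div_of_le h5 h3

/-- The denominator. -/
private noncomputable def Dn (Q : ℝ[X]) (η κ E : ℝ) (n : ℕ) (m : ℝ) : ℝ :=
  m ^ 2 + E * (Sp Q η κ n).eval (m ^ 2)

private theorem Dn_eq (Q : ℝ[X]) (η κ E : ℝ) (n : ℕ) (m : ℝ) :
    Dn Q η κ E n m = m ^ 2 + E * (Q.eval (n * (m ^ 2 - 1) / η) * (κ - m ^ 2) / (κ - 1)) := by
  unfold Dn
  rw [eval_Sp]

private theorem Dn_cont (Q : ℝ[X]) (η κ E : ℝ) (n : ℕ) : Continuous (Dn Q η κ E n) := by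
  unfold Dn
  fun_prop

/-- positivity of the denominator on `[0, √κ]` -/
private theorem Dn_pos {Q : ℝ[X]} {q0 : ℝ} (hQ : Coer Q q0) {η κ E : ℝ}
    (hκ : 1 < κ) (hE : 0 < E) (n : ℕ) {m : ℝ} (h0 : 0 ≤ m) (h1 : m ≤ Real.sqrt κ) :
    0 < Dn Q η κ E n m := by
  rw [Dn_eq]
  have hm2 : m ^ 2 ≤ κ := by
    have := pow_le_pow_left₀ h0 h1 2
    rwa [Real.sq_sqrt (by linarith)] at this
  have hq := hQ.1
  have hQp : 0 < Q.eval (n * (m ^ 2 - 1) / η) := lt_of_lt_of_le (by positivity) (hQ.2 _)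
  have hκ1 : 0 < κ - 1 := by linarith
  rcases h0.eq_or_lt with h | h
  · subst h
    have : 0 < E * (Q.eval (n * ((0:ℝ) ^ 2 - 1) / η) * (κ - 0 ^ 2) / (κ - 1)) := by
      apply mul_pos hE (div_pos (mul_pos hQp _) hκ1)
      norm_num
      linarith
    simpa using this
  · have h3 : 0 < m ^ 2 := by positivity
    have h4 : 0 ≤ E * (Q.eval (n * (m ^ 2 - 1) / η) * (κ - m ^ 2) / (κ - 1)) := by
      apply mul_nonneg hE.le (div_nonneg (mul_nonneg hQp.le _) hκ1.le)
      linarith
    linarith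

/-- lower bound by `m^2` -/
private theorem Dn_ge_sq {Q : ℝ[X]} {q0 : ℝ} (hQ : Coer Q q0) {η κ E : ℝ}
    (hκ : 1 < κ) (hE : 0 < E) (n : ℕ) {m : ℝ} (h0 : 0 ≤ m) (h1 : m ≤ Real.sqrt κ) :
    m ^ 2 ≤ Dn Q η κ E n m := by
  rw [Dn_eq]
  have hm2 : m ^ 2 ≤ κ := by
    have := pow_le_pow_left₀ h0 h1 2
    rwa [Real.sq_sqrt (by linarith)] at this
  have hq := hQ.1
  have hQp : 0 < Q.eval (n * (m ^ 2 - 1) / η) := lt_of_lt_of_le (by positivity) (hQ.2 _)
  have hκ1 : 0 < κ - 1 := by linarith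
  have h4 : 0 ≤ E * (Q.eval (n * (m ^ 2 - 1) / η) * (κ - m ^ 2) / (κ - 1)) := by
    apply mul_nonneg hE.le (div_nonneg (mul_nonneg hQp.le _) hκ1.le)
    linarith
  linarith

/-- the main lower bound -/
private theorem Dn_lower {Q : ℝ[X]} {q0 : ℝ} (hQ : Coer Q q0) {η κ E : ℝ} (hη : 0 < η)
    (hη1 : η ≤ 1) (hκ : 1 < κ) (hE : 0 < E) {n : ℕ} (hn : 1 ≤ n) {s : ℝ}
    (h0 : 0 ≤ 1 + s / n) (h1 : 1 + s / n ≤ Real.sqrt κ - 1 / n ^ 2) :
    E * q0 * (min ((Real.sqrt κ - 1) / 2) ((Real.sqrt κ - 1) ^ 2 / 4)) / (κ - 1) * (1 + s ^ 2) ≤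
      Dn Q η κ E n (1 + s / n) := by
  rw [Dn_eq]
  have hn0 : (0 : ℝ) < n := by exact_mod_cast hn
  have hq := hQ.1
  have hκ1 : 0 < κ - 1 := by linarith
  set r := Real.sqrt κ with hr
  have hr2 : r ^ 2 = κ := Real.sq_sqrt (by linarith)
  have hr1 : 1 < r := by
    rw [hr]
    exact Real.lt_sqrt_of_sq_lt (by linarith)
  set m := 1 + s / n with hm
  have hsm : s = n * (m - 1) := by
    rw [hm]
    field_simp
    ring
  have ht : 1 / (n : ℝ) ^ 2 ≤ r - m := by linarith
  have ht0 : 0 < r - m := lt_of_lt_of_le (by positivity) ht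
  -- κ - m² ≥ r - m
  have h2 : r - m ≤ κ - m ^ 2 := by
    rw [← hr2]
    nlinarith
  -- (1+s²)(r-m) ≥ c
  have h3 : min ((r - 1) / 2) ((r - 1) ^ 2 / 4) ≤ (1 + s ^ 2) * (r - m) := by
    rcases le_total (m - 1) ((r - 1) / 2) with h | h
    · refine (min_le_left _ _).trans ?_
      have : (r - 1) / 2 ≤ r - m := by linarith
      nlinarith [sq_nonneg s, mul_nonneg (sq_nonneg s) ht0.le]
    · refine (min_le_right _ _).trans ?_
      have h4 : (n : ℝ) * ((r - 1) / 2) ≤ s := by
        rw [hsm]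
        gcongr
      have h5 : ((n : ℝ) * ((r - 1) / 2)) ^ 2 ≤ s ^ 2 :=
        pow_le_pow_left₀ (by nlinarith) h4 2
      have h6 : ((n : ℝ) * ((r - 1) / 2)) ^ 2 * (1 / (n : ℝ) ^ 2) ≤ s ^ 2 * (r - m) :=
        mul_le_mul h5 ht (by positivity) (sq_nonneg s)
      have h7 : ((n : ℝ) * ((r - 1) / 2)) ^ 2 * (1 / (n : ℝ) ^ 2) = (r - 1) ^ 2 / 4 := by
        field_simp
        ring
      rw [h7] at h6
      nlinarith
  -- Q ≥ q0 (1+s²)²
  have h8 : q0 * (1 + s ^ 2) ^ 2 ≤ Q.eval (n * (m ^ 2 - 1) / η) := by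
    refine le_trans ?_ (hQ.2 _)
    refine mul_le_mul_of_nonneg_left (pow_le_pow_left₀ (by positivity) ?_ 2) hq.le
    have h9 : (n : ℝ) * (m ^ 2 - 1) / η = s * ((m + 1) / η) := by
      rw [hsm]
      field_simp
      ring
    have h10 : 1 ≤ (m + 1) / η := by
      rw [le_div_iff₀ hη]
      linarith
    rw [h9, mul_pow]
    have h11 : 1 ≤ ((m + 1) / η) ^ 2 := one_le_pow₀ h10
    nlinarith [sq_nonneg s]
  have h12 : q0 * (1 + s ^ 2) * (min ((r - 1) / 2) ((r - 1) ^ 2 / 4)) ≤
      Q.eval (n * (m ^ 2 - 1) / η) * (κ - m ^ 2) := by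
    calc q0 * (1 + s ^ 2) * (min ((r - 1) / 2) ((r - 1) ^ 2 / 4))
        ≤ q0 * (1 + s ^ 2) * ((1 + s ^ 2) * (r - m)) := by gcongr
      _ = q0 * (1 + s ^ 2) ^ 2 * (r - m) := by ring
      _ ≤ Q.eval (n * (m ^ 2 - 1) / η) * (κ - m ^ 2) :=
        mul_le_mul h8 h2 ht0.le (le_trans (by positivity) h8)
  have h13 := div_le_div_of_nonneg_right h12 hκ1.le
  have h14 := mul_le_mul_of_nonneg_left h13 hE.le
  have h15 : E * q0 * (min ((r - 1) / 2) ((r - 1) ^ 2 / 4)) / (κ - 1) * (1 + s ^ 2) =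
      E * (q0 * (1 + s ^ 2) * (min ((r - 1) / 2) ((r - 1) ^ 2 / 4)) / (κ - 1)) := by
    ring
  rw [h15]
  nlinarith [sq_nonneg m]

/-- The dip at `K = 1` is passed in time `η J(E) / n`. -/
theorem lim_int {Q : ℝ[X]} {q0 : ℝ} (hQ : Coer Q q0) {η κ E : ℝ} (hη : 0 < η) (hη1 : η ≤ 1)
    (hκ : 1 < κ) (hE : 0 < E) {g : ℝ → ℝ} (hg : Continuous g) :
    Tendsto (fun n : ℕ => ∫ m in (0 : ℝ)..Real.sqrt κ,
      n * g m / (m ^ 2 + E * (Sp Q η κ n).eval (m ^ 2))) atTop (𝓝 (g 1 * η / 2 * JJ Q E)) := by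
  have hq := hQ.1
  have hκ1 : 0 < κ - 1 := by linarith
  set r := Real.sqrt κ with hr
  have hr2 : r ^ 2 = κ := Real.sq_sqrt (by linarith)
  have hr1 : 1 < r := by
    rw [hr]
    exact Real.lt_sqrt_of_sq_lt (by linarith)
  obtain ⟨G, hG⟩ : ∃ G : ℝ, ∀ m ∈ Icc (0 : ℝ) r, |g m| ≤ G := by
    obtain ⟨G, hG⟩ := (isCompact_Icc (a := (0 : ℝ)) (b := r)).exists_bound_of_continuousOn
      hg.continuousOn
    exact ⟨G, fun m hm => hG m hm⟩
  have hG0 : 0 ≤ G := (abs_nonneg _).trans (hG 0 ⟨le_refl _, by linarith⟩)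
  -- the integrand
  set F : ℕ → ℝ → ℝ := fun n m => n * g m / Dn Q η κ E n m with hF
  have hFc : ∀ n, ContinuousOn (F n) (Icc 0 r) := fun n => by
    refine ContinuousOn.div (by fun_prop) (Dn_cont Q η κ E n).continuousOn fun m hm => ?_
    exact (Dn_pos hQ hκ hE n hm.1 hm.2).ne'
  have hFi : ∀ n, ∀ a b : ℝ, 0 ≤ a → a ≤ b → b ≤ r → IntervalIntegrable (F n) volume a b := by
    intro n a b ha hab hb
    refine ContinuousOn.intervalIntegrable ?_
    rw [uIcc_of_le hab]
    exact (hFc n).mono (Icc_subset_Icc ha hb)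
  -- b_n
  set B : ℕ → ℝ := fun n => r - 1 / (n : ℝ) ^ 2 with hB
  have hBr : ∀ n, B n ≤ r := fun n => by
    rw [hB]
    have : (0 : ℝ) ≤ 1 / (n : ℝ) ^ 2 := by positivity
    simp only
    linarith
  have hB0 : ∀ n : ℕ, 1 ≤ n → 0 ≤ B n := fun n hn => by
    have hn0 : (1 : ℝ) ≤ n := by exact_mod_cast hn
    have : 1 / (n : ℝ) ^ 2 ≤ 1 := by
      rw [div_le_one (by positivity)]
      nlinarith
    rw [hB]
    simp only
    linarith
  -- second part tends to zero
  have part2 : Tendsto (fun n : ℕ => ∫ m in B n..r, F n m) atTop (𝓝 0) := by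
    have hb : ∀ᶠ n : ℕ in atTop, ‖∫ m in B n..r, F n m‖ ≤ G * (1 / (n : ℝ)) := by
      have hev : ∀ᶠ n : ℕ in atTop, 1 / (n : ℝ) ^ 2 ≤ r - 1 := by
        have h1 : Tendsto (fun n : ℕ => 1 / (n : ℝ) ^ 2) atTop (𝓝 0) := by
          have := (tendsto_one_div_atTop_nhds_zero_nat (𝕜 := ℝ)).pow 2
          simpa using this
        exact (h1.eventually (gt_mem_nhds (show (0 : ℝ) < r - 1 by linarith))).mono
          fun n hn => le_of_lt hn
      filter_upwards [eventually_ge_atTop 1, hev] with n hn hn2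
      have hn0 : (0 : ℝ) < n := by exact_mod_cast hn
      have h1 : ∀ m ∈ Set.uIoc (B n) r, ‖F n m‖ ≤ n * G := by
        intro m hm
        rw [uIoc_of_le (hBr n)] at hm
        have hB1 : 1 ≤ B n := by
          rw [hB]
          simp only
          linarith
        have hm1 : 1 ≤ m := by linarith [hm.1]
        have hD : 1 ≤ Dn Q η κ E n m := by
          refine le_trans ?_ (Dn_ge_sq hQ hκ hE n (by linarith) hm.2)
          nlinarith
        rw [hF]
        simp only
        rw [norm_div, Real.norm_of_nonneg (show (0 : ℝ) ≤ Dn Q η κ E n m by linarith), norm_mul,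
          Real.norm_of_nonneg hn0.le, Real.norm_eq_abs]
        rw [div_le_iff₀ (by linarith)]
        have h2 := hG m ⟨by linarith, hm.2⟩
        calc (n : ℝ) * |g m| ≤ n * G := by gcongr
          _ = n * G * 1 := by ring
          _ ≤ n * G * Dn Q η κ E n m := by gcongr
      have h2 := intervalIntegral.norm_integral_le_of_norm_le_const h1
      refine h2.trans (le_of_eq ?_)
      rw [hB]
      simp only
      rw [show r - (r - 1 / (n : ℝ) ^ 2) = 1 / (n : ℝ) ^ 2 by ring, abs_of_nonneg (by positivity)]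
      field_simp
    refine squeeze_zero_norm' hb ?_
    have := (tendsto_one_div_atTop_nhds_zero_nat (𝕜 := ℝ)).const_mul G
    simpa using this
  -- first part
  set H : ℕ → ℝ → ℝ := fun n s => (Ioc (-(n : ℝ)) (n * (B n - 1))).indicator
    (fun s => g (1 + s / n) / Dn Q η κ E n (1 + s / n)) s with hH
  have part1eq : ∀ᶠ n : ℕ in atTop, ∫ m in (0 : ℝ)..B n, F n m = ∫ s, H n s := by
    filter_upwards [eventually_ge_atTop 1] with n hn
    have hn0 : (0 : ℝ) < n := by exact_mod_cast hn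
    have hle : -(n : ℝ) ≤ n * (B n - 1) := by
      have := hB0 n hn
      nlinarith
    rw [hH]
    simp only
    rw [integral_indicator measurableSet_Ioc, ← intervalIntegral.integral_of_le hle]
    have h1 := intervalIntegral.integral_comp_add_div (a := -(n : ℝ)) (b := n * (B n - 1))
      (fun m => g m / Dn Q η κ E n m) hn0.ne' 1
    rw [h1]
    have e1 : (1 : ℝ) + -(n : ℝ) / n = 0 := by
      field_simp
      ring
    have e2 : (1 : ℝ) + n * (B n - 1) / n = B n := by
      field_simp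
      ring
    rw [e1, e2, smul_eq_mul, ← intervalIntegral.integral_const_mul]
    congr 1
    funext m
    rw [hF]
    simp only
    rw [mul_div_assoc]
  have part1 : Tendsto (fun n : ℕ => ∫ s, H n s) atTop
      (𝓝 (∫ s, g 1 / (1 + E * Q.eval (2 / η * s)))) := by
    set c := E * q0 * (min ((r - 1) / 2) ((r - 1) ^ 2 / 4)) / (κ - 1) with hc
    have hc0 : 0 < c := by
      rw [hc]
      have : 0 < min ((r - 1) / 2) ((r - 1) ^ 2 / 4) := by
        have : 0 < r - 1 := by linarith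
        exact lt_min (by positivity) (by positivity)
      positivity
    refine tendsto_integral_filter_of_dominated_convergence
      (fun s => G / c * (1 + s ^ 2)⁻¹) ?_ ?_ (integrable_inv_one_add_sq.const_mul _) ?_
    · refine Eventually.of_forall fun n => ?_
      have hm : Measurable (fun s : ℝ => g (1 + s / n) / Dn Q η κ E n (1 + s / n)) := by
        have h1 : Continuous (fun s : ℝ => g (1 + s / n)) := by fun_prop
        have h2 : Continuous (fun s : ℝ => Dn Q η κ E n (1 + s / n)) :=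
          (Dn_cont Q η κ E n).comp (by fun_prop)
        exact h1.measurable.div h2.measurable
      exact (hm.indicator measurableSet_Ioc).aestronglyMeasurable
    · filter_upwards [eventually_ge_atTop 1] with n hn
      refine Eventually.of_forall fun s => ?_
      have hn0 : (0 : ℝ) < n := by exact_mod_cast hn
      rw [hH]
      simp only
      by_cases hs : s ∈ Ioc (-(n : ℝ)) (n * (B n - 1))
      · rw [indicator_of_mem hs]
        have h1 : 0 ≤ 1 + s / n := by
          have : -1 ≤ s / n := by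
            rw [le_div_iff₀ hn0]
            linarith [hs.1]
          linarith
        have h2 : 1 + s / n ≤ r - 1 / (n : ℝ) ^ 2 := by
          have : s / n ≤ B n - 1 := by
            rw [div_le_iff₀ hn0]
            linarith [hs.2]
          rw [hB] at this
          simp only at this
          linarith
        have h3 := Dn_lower hQ hη hη1 hκ hE hn h1 h2
        rw [← hr, ← hc] at h3
        have h4 : 0 < c * (1 + s ^ 2) := by positivity
        have h5 : 0 < Dn Q η κ E n (1 + s / n) := lt_of_lt_of_le h4 h3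
        rw [norm_div, Real.norm_of_nonneg h5.le, Real.norm_eq_abs]
        have h6 := hG (1 + s / n) ⟨h1, by
          have : (0 : ℝ) ≤ 1 / (n : ℝ) ^ 2 := by positivity
          linarith⟩
        calc |g (1 + s / n)| / Dn Q η κ E n (1 + s / n) ≤ G / (c * (1 + s ^ 2)) :=
              div_le_div₀ hG0 h6 h4 h3
          _ = G / c * (1 + s ^ 2)⁻¹ := by
            rw [div_mul_eq_div_div, div_eq_mul_inv (G / c)]
      · rw [indicator_of_notMem hs, norm_zero]
        positivity
    · refine Eventually.of_forall fun s => ?_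
      have hlim1 : Tendsto (fun n : ℕ => s / (n : ℝ)) atTop (𝓝 0) :=
        tendsto_const_div_atTop_nhds_zero_nat s
      have hlim2 : Tendsto (fun n : ℕ => 1 + s / (n : ℝ)) atTop (𝓝 1) := by
        simpa using hlim1.const_add 1
      have hev1 : ∀ᶠ n : ℕ in atTop, -(n : ℝ) < s := by
        obtain ⟨N, hN⟩ := exists_nat_gt (-s)
        filter_upwards [eventually_ge_atTop N] with n hn
        have : (N : ℝ) ≤ n := by exact_mod_cast hn
        linarith
      have hev2 : ∀ᶠ n : ℕ in atTop, s ≤ n * (B n - 1) := by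
        have h1 : Tendsto (fun n : ℕ => s / (n : ℝ) + 1 / (n : ℝ) ^ 2) atTop (𝓝 0) := by
          have h1 : Tendsto (fun n : ℕ => 1 / (n : ℝ) ^ 2) atTop (𝓝 0) := by
            have := (tendsto_one_div_atTop_nhds_zero_nat (𝕜 := ℝ)).pow 2
            simpa using this
          simpa using hlim1.add h1
        filter_upwards [eventually_ge_atTop 1,
          h1.eventually (gt_mem_nhds (show (0 : ℝ) < r - 1 by linarith))] with n hn hn2
        have hn0 : (0 : ℝ) < n := by exact_mod_cast hn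
        have h3 : s / (n : ℝ) ≤ B n - 1 := by
          rw [hB]
          simp only
          linarith
        rw [div_le_iff₀ hn0] at h3
        linarith
      have heq : (fun n : ℕ => g (1 + s / n) / Dn Q η κ E n (1 + s / n)) =ᶠ[atTop]
          fun n => H n s := by
        filter_upwards [hev1, hev2] with n h1 h2
        rw [hH]
        simp only
        rw [indicator_of_mem (show s ∈ Ioc (-(n : ℝ)) (n * (B n - 1)) from ⟨h1, h2⟩)]
      refine Tendsto.congr' heq ?_
      have hgl : Tendsto (fun n : ℕ => g (1 + s / n)) atTop (𝓝 (g 1)) :=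
        (hg.tendsto 1).comp hlim2
      refine hgl.div ?_ ?_
      · have hlim3 : Tendsto (fun n : ℕ => (1 + s / (n : ℝ)) ^ 2) atTop (𝓝 1) := by
          simpa using hlim2.pow 2
        have hz : Tendsto (fun n : ℕ => (n : ℝ) * ((1 + s / (n : ℝ)) ^ 2 - 1) / η) atTop
            (𝓝 (2 / η * s)) := by
          have h1 : Tendsto (fun n : ℕ => (2 + s / (n : ℝ)) * s / η) atTop
              (𝓝 ((2 + 0) * s / η)) :=
            ((hlim1.const_add 2).mul_const s).div_const η
          have e : (2 + 0) * s / η = 2 / η * s := by ring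
          rw [e] at h1
          refine Tendsto.congr' ?_ h1
          filter_upwards [eventually_ge_atTop 1] with n hn
          have hn0 : (0 : ℝ) < n := by exact_mod_cast hn
          field_simp
          ring
        have hQl : Tendsto (fun n : ℕ => Q.eval ((n : ℝ) * ((1 + s / (n : ℝ)) ^ 2 - 1) / η))
            atTop (𝓝 (Q.eval (2 / η * s))) :=
          (Q.continuous.tendsto _).comp hz
        have h2 : Tendsto (fun n : ℕ => (1 + s / (n : ℝ)) ^ 2 +
            E * (Q.eval ((n : ℝ) * ((1 + s / (n : ℝ)) ^ 2 - 1) / η) *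
              (κ - (1 + s / (n : ℝ)) ^ 2) / (κ - 1))) atTop
            (𝓝 (1 + E * (Q.eval (2 / η * s) * (κ - 1) / (κ - 1)))) :=
          hlim3.add (((hQl.mul (hlim3.const_sub κ)).div_const (κ - 1)).const_mul E)
        rw [mul_div_cancel_right₀ _ hκ1.ne'] at h2
        refine h2.congr fun n => ?_
        rw [Dn_eq]
      · have h1 : 0 < Q.eval (2 / η * s) := lt_of_lt_of_le (by positivity) (hQ.2 _)
        positivity
  -- combine
  have hval : ∫ s, g 1 / (1 + E * Q.eval (2 / η * s)) = g 1 * η / 2 * JJ Q E := by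
    have h1 := Measure.integral_comp_mul_left (fun z : ℝ => g 1 / (1 + E * Q.eval z)) (2 / η)
    rw [h1, abs_of_pos (by positivity), smul_eq_mul]
    unfold JJ
    have h2 : (fun z : ℝ => g 1 / (1 + E * Q.eval z)) =
        fun z => g 1 * (1 / (1 + E * Q.eval z)) := by
      funext z
      ring
    rw [h2, integral_const_mul]
    rw [inv_div]
    ring
  rw [← hval]
  have hsum := part1.add part2
  rw [add_zero] at hsum
  refine Tendsto.congr' ?_ hsum
  filter_upwards [eventually_ge_atTop 1, part1eq] with n hn h1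
  rw [← h1]
  have h2 := intervalIntegral.integral_add_adjacent_intervals
    (hFi n 0 (B n) le_rfl (hB0 n hn) (hBr n)) (hFi n (B n) r (hB0 n hn) (hBr n) le_rfl)
  rw [h2]
  rfl

theorem lim_Jw {Q : ℝ[X]} {q0 : ℝ} (hQ : Coer Q q0) {η κ E : ℝ} (hη : 0 < η) (hη1 : η ≤ 1)
    (hκ : 1 < κ) (hE : 0 < E) (k : ℕ) :
    Tendsto (fun n : ℕ => Jw (Sp Q η κ n) k n κ E) atTop (𝓝 (η / 2 ^ k * JJ Q E)) := by
  have h := lim_int hQ hη hη1 hκ hE (g := fun m => 2 / (1 + m ^ 2) ^ k)
    (Continuous.div (by fun_prop) (by fun_prop) (fun m => by positivity))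
  have e : (2 : ℝ) / (1 + 1 ^ 2) ^ k * η / 2 * JJ Q E = η / 2 ^ k * JJ Q E := by
    have : (1 : ℝ) + 1 ^ 2 = 2 := by norm_num
    rw [this]
    ring
  rw [e] at h
  refine h.congr fun n => ?_
  unfold Jw
  congr 1
  funext m
  rw [mul_comm ((m ^ 2 + E * _)), ← div_div]
  congr 1
  ring

theorem lim_Jt {Q : ℝ[X]} {q0 : ℝ} (hQ : Coer Q q0) {η κ E : ℝ} (hη : 0 < η) (hη1 : η ≤ 1)
    (hκ : 1 < κ) (hE : 0 < E) :
    Tendsto (fun n : ℕ => Jt (Sp Q η κ n) n κ E) atTop (𝓝 (η * JJ Q E)) := by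
  have h := lim_int hQ hη hη1 hκ hE (g := fun m => 2 * m) (by fun_prop)
  have e : (2 : ℝ) * 1 * η / 2 * JJ Q E = η * JJ Q E := by ring
  rw [e] at h
  refine h.congr fun n => ?_
  unfold Jt
  congr 1
  funext m
  congr 1
  ring

end Pool.Agent.CritPer.L
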