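import Pool.Agent.CritPer.L.Cross

open Set Filter Topology Polynomial MeasureTheory

namespace Pool.Agent.CritPer.L

theorem low_abs_eval (Q : ℝ[X]) : ∃ C : ℝ, 0 ≤ C ∧ ∀ z : ℝ,
    |Q.eval z| ≤ C * (1 + |z|) ^ Q.natDegree := by
  refine ⟨∑ j ∈ Finset.range (Q.natDegree + 1), |Q.coeff j|, Finset.sum_nonneg fun _ _ =>
    abs_nonneg _, fun z => ?_⟩
  rw [Polynomial.eval_eq_sum_range, Finset.sum_mul]
  refine (Finset.abs_sum_le_sum_abs _ _).trans (Finset.sum_le_sum fun j hj => ?_)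
  have hj' : j ≤ Q.natDegree := Nat.lt_succ_iff.1 (Finset.mem_range.1 hj)
  rw [abs_mul, abs_pow]
  refine mul_le_mul_of_nonneg_left ?_ (abs_nonneg _)
  have h1 : |z| ^ j ≤ (1 + |z|) ^ j :=
    pow_le_pow_left₀ (abs_nonneg z) (by linarith [abs_nonneg z]) j
  exact h1.trans (pow_le_pow_right₀ (by linarith [abs_nonneg z]) hj')

theorem low_abs_Sp (Q : ℝ[X]) {η κ : ℝ} (hη : 0 < η) (hκ : 1 < κ) : ∃ C : ℝ, 0 ≤ C ∧
    ∀ n : ℕ, 1 ≤ n → ∀ K : ℝ, 0 ≤ K →
      |(Sp Q η κ n).eval K| ≤ C * (n : ℝ) ^ Q.natDegree * (1 + K) ^ (Q.natDegree + 1) := by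
  obtain ⟨C, hC, hb⟩ := low_abs_eval Q
  have hκ1 : 0 < κ - 1 := by linarith
  have hκ0 : 0 < κ := by linarith
  refine ⟨C * (1 + 1 / η) ^ Q.natDegree * (κ / (κ - 1)), by positivity, fun n hn K hK => ?_⟩
  have hn1 : (1 : ℝ) ≤ n := by exact_mod_cast hn
  rw [eval_Sp, abs_div, abs_mul, abs_of_pos hκ1]
  have h1 : 1 + |n * (K - 1) / η| ≤ (1 + 1 / η) * n * (1 + K) := by
    rw [abs_div, abs_mul, abs_of_pos hη, Nat.abs_cast]
    have h2 : |K - 1| ≤ 1 + K := by
      rw [abs_le]; constructor <;> linarith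
    have h3 : (n : ℝ) * |K - 1| / η ≤ n * (1 + K) / η :=
      div_le_div_of_nonneg_right (mul_le_mul_of_nonneg_left h2 (by linarith)) hη.le
    have h4 : (1 : ℝ) ≤ n * (1 + K) := by nlinarith
    calc 1 + n * |K - 1| / η ≤ n * (1 + K) + n * (1 + K) / η := add_le_add h4 h3
      _ = _ := by ring
  have h5 : |κ - K| ≤ κ * (1 + K) := by
    rw [abs_le]; constructor <;> nlinarith
  have h6 := hb (n * (K - 1) / η)
  have h7 : (1 + |n * (K - 1) / η|) ^ Q.natDegree ≤ ((1 + 1 / η) * n * (1 + K)) ^ Q.natDegree :=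
    pow_le_pow_left₀ (by positivity) h1 _
  calc |eval (n * (K - 1) / η) Q| * |κ - K| / (κ - 1)
      ≤ (C * ((1 + 1 / η) * n * (1 + K)) ^ Q.natDegree) * (κ * (1 + K)) / (κ - 1) := by
        refine div_le_div_of_nonneg_right ?_ hκ1.le
        exact mul_le_mul (h6.trans (mul_le_mul_of_nonneg_left h7 hC)) h5 (abs_nonneg _)
          (by positivity)
    _ = _ := by
        rw [mul_pow, mul_pow, pow_succ]
        field_simp

/-- the field is tiny for `u ≤ 1/2` -/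
theorem low_qf {Q : ℝ[X]} {q0 : ℝ} (hQ : Coer Q q0) {η κ : ℝ} (hη : 0 < η) (hκ : 1 < κ) {θ : ℝ}
    (hθ : 0 < θ) : ∀ᶠ n : ℕ in atTop, ∀ u ∈ Icc (0 : ℝ) (1 / 2), ∀ v ∈ Icc (0 : ℝ) (2 * κ),
      |qf (Sp Q η κ n) n u v| ≤ θ := by
  obtain ⟨C, hC, hb⟩ := low_abs_Sp Q hη hκ
  set D := Q.natDegree with hD
  have hlim : Tendsto (fun n : ℕ => C * (1 + 2 * κ) ^ (D + 1) * 2 ^ (D + 1) *
      ((n : ℝ) ^ D * (1 / 2) ^ n)) atTop (𝓝 (C * (1 + 2 * κ) ^ (D + 1) * 2 ^ (D + 1) * 0)) := by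
    refine Tendsto.const_mul _ ?_
    exact tendsto_pow_const_mul_const_pow_of_abs_lt_one D (by norm_num [abs_of_pos])
  rw [mul_zero] at hlim
  filter_upwards [hlim.eventually (ge_mem_nhds hθ), eventually_ge_atTop (D + 2)] with n h1 h2
  intro u hu v hv
  have hbar := bar_Sp hQ hη hκ (n := n) (by omega)
  rcases hu.1.eq_or_lt with h0 | h0
  · -- u = 0
    have hz : qf (Sp Q η κ n) n u v = 0 := by
      have hdeg : (Sp Q η κ n).natDegree ≤ D + 1 := by
        unfold Sp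
        refine (natDegree_mul_le).trans ?_
        refine (Nat.add_le_add (natDegree_mul_le) (natDegree_C _).le).trans ?_
        have h1 : (Q.comp (Polynomial.C ((n : ℝ) / η) * (X - 1))).natDegree ≤ Q.natDegree := by
          refine natDegree_comp_le.trans ?_
          have : (Polynomial.C ((n : ℝ) / η) * (X - 1) : ℝ[X]).natDegree ≤ 1 := by
            refine natDegree_mul_le.trans ?_
            rw [natDegree_C, zero_add]
            exact (natDegree_X_sub_C (1 : ℝ)).le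
          calc Q.natDegree * _ ≤ Q.natDegree * 1 := Nat.mul_le_mul_left _ this
            _ = _ := by ring
        have h2 : (Polynomial.C κ - X : ℝ[X]).natDegree ≤ 1 := by
          refine (natDegree_sub_le _ _).trans ?_
          simp
        omega
      unfold qf
      refine Finset.sum_eq_zero fun j hj => ?_
      have hj' : j ≤ n := Nat.lt_succ_iff.1 (Finset.mem_range.1 hj)
      rw [← h0]
      rcases hj'.eq_or_lt with h3 | h3
      · rw [Polynomial.coeff_eq_zero_of_natDegree_lt (by omega)]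
        simp
      · rw [zero_pow (by omega)]
        simp
    rw [hz, abs_zero]
    exact hθ.le
  · rw [qf_eq hbar.deg h0.ne', abs_mul, abs_of_pos (pow_pos h0 n)]
    have hK : 0 ≤ v / u := div_nonneg hv.1 h0.le
    have h3 := hb n (by omega) (v / u) hK
    have h4 : u ^ n = u ^ (n - (D + 1)) * u ^ (D + 1) := by
      rw [← pow_add, Nat.sub_add_cancel (by omega)]
    have h5 : u ^ (D + 1) * (1 + v / u) ^ (D + 1) = (u + v) ^ (D + 1) := by
      rw [← mul_pow]; congr 1; field_simp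
    have h6 : (u + v) ^ (D + 1) ≤ (1 + 2 * κ) ^ (D + 1) :=
      pow_le_pow_left₀ (by linarith [hv.1]) (by linarith [hu.2, hv.2]) _
    have h7 : u ^ (n - (D + 1)) ≤ (1 / 2) ^ (n - (D + 1)) := pow_le_pow_left₀ h0.le hu.2 _
    have h8 : (1 / 2 : ℝ) ^ (n - (D + 1)) = 2 ^ (D + 1) * (1 / 2) ^ n := by
      have : (1 / 2 : ℝ) ^ n = (1 / 2) ^ (n - (D + 1)) * (1 / 2) ^ (D + 1) := by
        rw [← pow_add, Nat.sub_add_cancel (by omega)]
      rw [this]
      have h9 : (2 : ℝ) ^ (D + 1) * (1 / 2) ^ (D + 1) = 1 := by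
        rw [← mul_pow]; norm_num
      generalize (1 / 2 : ℝ) ^ (n - (D + 1)) = e
      calc e = e * (2 ^ (D + 1) * (1 / 2) ^ (D + 1)) := by rw [h9, mul_one]
        _ = 2 ^ (D + 1) * (e * (1 / 2) ^ (D + 1)) := by rw [← mul_assoc, mul_comm e, mul_assoc]
    calc u ^ n * |eval (v / u) (Sp Q η κ n)|
        ≤ u ^ n * (C * (n : ℝ) ^ D * (1 + v / u) ^ (D + 1)) :=
          mul_le_mul_of_nonneg_left h3 (pow_pos h0 n).le
      _ = C * (n : ℝ) ^ D * u ^ (n - (D + 1)) * (u + v) ^ (D + 1) := by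
          rw [h4, ← h5]; ring
      _ ≤ C * (n : ℝ) ^ D * (1 / 2) ^ (n - (D + 1)) * (1 + 2 * κ) ^ (D + 1) := by
          refine mul_le_mul (mul_le_mul_of_nonneg_left h7 (by positivity)) h6 ?_ (by positivity)
          have := hv.1
          positivity
      _ = C * (1 + 2 * κ) ^ (D + 1) * 2 ^ (D + 1) * ((n : ℝ) ^ D * (1 / 2) ^ n) := by
          rw [h8]; ring
      _ ≤ θ := h1

/-- Uniform lower bound behind the barrier. -/
theorem low {Q : ℝ[X]} {q0 : ℝ} (hQ : Coer Q q0) {η κ : ℝ} (hη : 0 < η) (hκ : 1 < κ) :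
    ∀ᶠ n : ℕ in atTop, ∀ a : ℝ, 0 < a → a ≤ 2 → 1 / 2 ≤ uc (Sp Q η κ n) n κ a →
      ∀ u ∈ Icc 0 (uc (Sp Q η κ n) n κ a), κ / 4 ≤ vs (Sp Q η κ n) n a u := by
  have hκ0 : 0 < κ := by linarith
  filter_upwards [low_qf hQ hη hκ (θ := κ / 2) (by positivity),
    eventually_ge_atTop (Q.natDegree + 1)] with n h1 h2
  intro a ha ha2 huc u hu
  have hbar := bar_Sp hQ hη hκ h2
  have hlt := uc_lt hbar ha
  rcases le_total (1 / 2) u with h3 | h3
  · have := ge_of_uc hbar ha hu.1 hu.2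
    nlinarith
  · have hhalf := ge_of_uc hbar ha (by norm_num : (0 : ℝ) ≤ 1 / 2) huc
    have hsub : Icc (0 : ℝ) (1 / 2) ⊆ Icc 0 a := Icc_subset_Icc_right (by linarith)
    have hmv := Convex.norm_image_sub_le_of_norm_hasDerivWithin_le
      (f := vs (Sp Q η κ n) n a) (f' := fun u => -(qf (Sp Q η κ n) n u (vs (Sp Q η κ n) n a u)))
      (C := κ / 2) (s := Icc (0 : ℝ) (1 / 2)) (x := u) (y := 1 / 2)
      (fun x hx => (vs_deriv hbar ha (hsub hx)).mono hsub)
      (fun x hx => by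
        rw [norm_neg, Real.norm_eq_abs]
        refine h1 x hx _ ⟨vs_nonneg hbar ha (hsub hx), (vs_le hbar ha (hsub hx)).trans ?_⟩
        nlinarith)
      (convex_Icc _ _) ⟨hu.1, h3⟩ ⟨by norm_num, le_rfl⟩
    rw [Real.norm_eq_abs, Real.norm_eq_abs, abs_of_nonneg (by linarith : 0 ≤ 1 / 2 - u)] at hmv
    have h4 := (abs_le.1 hmv).2
    have h5 : 1 / 2 - u ≤ 1 / 2 := by linarith [hu.1]
    nlinarith

theorem coer_mono {Q : ℝ[X]} {q0 : ℝ} (hQ : Coer Q q0) :
    ∃ Z : ℝ, 0 ≤ Z ∧ MonotoneOn (fun z => Q.eval z) (Ici Z) := by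
  -- the derivative has a constant sign near infinity
  have hsign : (∃ Z : ℝ, ∀ z, Z ≤ z → 0 ≤ Q.derivative.eval z) ∨
      (∃ Z : ℝ, ∀ z, Z ≤ z → Q.derivative.eval z ≤ 0) := by
    rcases le_total 0 Q.derivative.leadingCoeff with h | h
    · left
      by_cases hd : 0 < Q.derivative.degree
      · have := Polynomial.tendsto_atTop_of_leadingCoeff_nonneg _ hd h
        exact (tendsto_atTop.1 this 0).exists_forall_of_atTop
      · refine ⟨0, fun z _ => ?_⟩
        have h1 := Polynomial.eq_C_of_degree_le_zero (not_lt.1 hd)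
        rw [h1, leadingCoeff_C] at h
        rw [h1, eval_C]
        exact h
    · right
      by_cases hd : 0 < Q.derivative.degree
      · have := Polynomial.tendsto_atBot_of_leadingCoeff_nonpos _ hd h
        exact (tendsto_atBot.1 this 0).exists_forall_of_atTop
      · refine ⟨0, fun z _ => ?_⟩
        have h1 := Polynomial.eq_C_of_degree_le_zero (not_lt.1 hd)
        rw [h1, leadingCoeff_C] at h
        rw [h1, eval_C]
        exact h
  rcases hsign with ⟨Z, hZ⟩ | ⟨Z, hZ⟩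
  · refine ⟨max Z 0, le_max_right _ _, ?_⟩
    refine monotoneOn_of_deriv_nonneg (convex_Ici _) Q.continuous.continuousOn
      Q.differentiable.differentiableOn fun x hx => ?_
    rw [interior_Ici] at hx
    rw [Polynomial.deriv]
    exact hZ x ((le_max_left Z 0).trans (le_of_lt hx))
  · exfalso
    have hanti : AntitoneOn (fun z => Q.eval z) (Ici Z) := by
      refine antitoneOn_of_deriv_nonpos (convex_Ici _) Q.continuous.continuousOn
        Q.differentiable.differentiableOn fun x hx => ?_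
      rw [interior_Ici] at hx
      rw [Polynomial.deriv]
      exact hZ x (le_of_lt hx)
    obtain ⟨h0, h1⟩ := hQ
    set z : ℝ := max Z 0 + |Q.eval Z| / q0 + 1 with hz
    have hz0 : |Q.eval Z| / q0 + 1 ≤ z := by
      rw [hz]; linarith [le_max_right Z 0]
    have hZz : Z ≤ z := by
      rw [hz]; linarith [le_max_left Z 0, div_nonneg (abs_nonneg (Q.eval Z)) h0.le]
    have h2 := hanti (mem_Ici.2 le_rfl) (mem_Ici.2 hZz) hZz
    have h3 := h1 z
    have h4 : z ≤ (1 + z ^ 2) ^ 2 := by nlinarith [sq_nonneg (z - 1), sq_nonneg (z ^ 2)]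
    have h5 : q0 * (|Q.eval Z| / q0 + 1) ≤ q0 * (1 + z ^ 2) ^ 2 :=
      mul_le_mul_of_nonneg_left (hz0.trans h4) h0.le
    have h6 : q0 * (|Q.eval Z| / q0 + 1) = |Q.eval Z| + q0 := by field_simp
    have h7 := le_abs_self (Q.eval Z)
    simp only at h2
    linarith

theorem anti_Sp {Q : ℝ[X]} {q0 : ℝ} (hQ : Coer Q q0) {η κ : ℝ} (hη : 0 < η) (hκ : 1 < κ) :
    ∀ᶠ n : ℕ in atTop, AntitoneOn (fun K => (Sp Q η κ n).eval K / K) (Ici κ) := by
  obtain ⟨Z, _, hmono⟩ := coer_mono hQ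
  have hκ1 : 0 < κ - 1 := by linarith
  have hκ0 : 0 < κ := by linarith
  have hlim : Tendsto (fun n : ℕ => (n : ℝ) * ((κ - 1) / η)) atTop atTop :=
    tendsto_natCast_atTop_atTop.atTop_mul_const (by positivity)
  filter_upwards [hlim.eventually (eventually_ge_atTop Z)] with n hn
  intro K1 hK1 K2 hK2 h12
  rw [mem_Ici] at hK1 hK2
  have hn0 : (0 : ℝ) ≤ n := Nat.cast_nonneg n
  have hK10 : 0 < K1 := by linarith
  have hK20 : 0 < K2 := by linarith
  have hval : ∀ K : ℝ, κ ≤ K → Z ≤ n * (K - 1) / η := fun K hK => by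
    refine hn.trans ?_
    rw [mul_div_assoc]
    exact mul_le_mul_of_nonneg_left (div_le_div_of_nonneg_right (by linarith) hη.le) hn0
  have hle : (n : ℝ) * (K1 - 1) / η ≤ n * (K2 - 1) / η :=
    div_le_div_of_nonneg_right (mul_le_mul_of_nonneg_left (by linarith) hn0) hη.le
  have hq := hmono (mem_Ici.2 (hval K1 hK1)) (mem_Ici.2 (hval K2 hK2)) hle
  have hq0 : 0 ≤ Q.eval (n * (K1 - 1) / η) :=
    (mul_nonneg hQ.1.le (by positivity)).trans (hQ.2 _)
  have e : ∀ K : ℝ, 0 < K → (Sp Q η κ n).eval K / K =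
      -(Q.eval (n * (K - 1) / η) * ((1 - κ / K) / (κ - 1))) := by
    intro K hK
    rw [eval_Sp]
    field_simp
    ring
  have h3 : (1 - κ / K1) / (κ - 1) ≤ (1 - κ / K2) / (κ - 1) := by
    refine div_le_div_of_nonneg_right ?_ hκ1.le
    have := div_le_div_of_nonneg_left hκ0.le hK10 h12
    linarith
  have h4 : 0 ≤ (1 - κ / K1) / (κ - 1) := by
    refine div_nonneg ?_ hκ1.le
    have : κ / K1 ≤ 1 := (div_le_one hK10).2 hK1
    linarith
  simp only [e K1 hK10, e K2 hK20]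
  exact neg_le_neg (mul_le_mul hq h3 h4 (hq0.trans hq))

/-- With `x = n^(-2)` the barrier hypothesis holds for large `n`. -/
theorem bar_x {Q : ℝ[X]} {q0 : ℝ} (hQ : Coer Q q0) {η κ : ℝ} (hη : 0 < η) (hκ : 1 < κ) {E : ℝ}
    (hE : 0 < E) :
    ∀ᶠ n : ℕ in atTop, κ + 1 / (n : ℝ) ^ 2 < E * -(Sp Q η κ n).eval (κ + 1 / (n : ℝ) ^ 2) := by
  have hκ1 : 0 < κ - 1 := by linarith
  have hq0 := hQ.1
  have hlim : Tendsto (fun n : ℕ => (n : ℝ) * (E * q0 * (κ - 1) ^ 3 / η ^ 4)) atTop atTop :=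
    tendsto_natCast_atTop_atTop.atTop_mul_const (by positivity)
  filter_upwards [hlim.eventually (eventually_gt_atTop (κ + 1)), eventually_ge_atTop 1]
    with n hn hn1
  have hn1' : (1 : ℝ) ≤ n := by exact_mod_cast hn1
  have hx0 : 0 < 1 / (n : ℝ) ^ 2 := by positivity
  have hx1 : 1 / (n : ℝ) ^ 2 ≤ 1 := by
    rw [div_le_one (by positivity)]
    exact one_le_pow₀ hn1'
  set x := 1 / (n : ℝ) ^ 2 with hx
  have hZ : (n : ℝ) * (κ - 1) / η ≤ n * (κ + x - 1) / η :=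
    div_le_div_of_nonneg_right (mul_le_mul_of_nonneg_left (by linarith) (by linarith)) hη.le
  have hQz : q0 * ((n : ℝ) * (κ - 1) / η) ^ 4 ≤ Q.eval (n * (κ + x - 1) / η) := by
    refine le_trans ?_ (hQ.2 _)
    refine mul_le_mul_of_nonneg_left ?_ hq0.le
    calc ((n : ℝ) * (κ - 1) / η) ^ 4 ≤ (n * (κ + x - 1) / η) ^ 4 :=
          pow_le_pow_left₀ (by positivity) hZ 4
      _ ≤ (1 + (n * (κ + x - 1) / η) ^ 2) ^ 2 := by nlinarith [sq_nonneg (n * (κ + x - 1) / η)]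
  have he : E * -(Sp Q η κ n).eval (κ + x) =
      E * (Q.eval (n * (κ + x - 1) / η) * x / (κ - 1)) := by
    rw [eval_Sp]; ring
  rw [he]
  have h1 : E * (q0 * ((n : ℝ) * (κ - 1) / η) ^ 4 * x / (κ - 1)) ≤
      E * (Q.eval (n * (κ + x - 1) / η) * x / (κ - 1)) :=
    mul_le_mul_of_nonneg_left (div_le_div_of_nonneg_right
      (mul_le_mul_of_nonneg_right hQz hx0.le) hκ1.le) hE.le
  have h2 : E * (q0 * ((n : ℝ) * (κ - 1) / η) ^ 4 * x / (κ - 1)) =
      (n : ℝ) ^ 2 * (E * q0 * (κ - 1) ^ 3 / η ^ 4) := by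
    rw [hx]; field_simp
  have h3 : (n : ℝ) * (E * q0 * (κ - 1) ^ 3 / η ^ 4) ≤
      (n : ℝ) ^ 2 * (E * q0 * (κ - 1) ^ 3 / η ^ 4) :=
    mul_le_mul_of_nonneg_right (by nlinarith) (by positivity)
  linarith

end Pool.Agent.CritPer.L
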