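import Pool.Agent.CritPer.L.Cross

open Set Filter Topology Polynomial MeasureTheory

namespace Pool.Agent.CritPer.L

variable {S : ℝ[X]} {n : ℕ} {κ : ℝ}

/-- The barrier. -/
theorem vs_le_bar (h : Bar S n κ) {a u2 x : ℝ} (ha : 0 < a) (hx : 0 < x) (h2 : 0 < u2)
    (hb : κ + x < u2 ^ n * -S.eval (κ + x)) :
    ∀ u ∈ Icc u2 (uc S n κ a), vs S n a u ≤ (κ + x) * u := by
  intro u0 hu0
  by_contra hcon
  rw [not_le] at hcon
  have hua : uc S n κ a < a := uc_lt h ha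
  have hsub : Icc u0 (uc S n κ a) ⊆ Icc 0 a :=
    Icc_subset_Icc (h2.le.trans hu0.1) hua.le
  have hS : 0 < -S.eval (κ + x) := by
    have := h.neg (κ + x) (by linarith)
    linarith
  have key := image_le_of_deriv_right_lt_deriv_boundary (a := u0) (b := uc S n κ a)
    (f := fun u => (κ + x) * u - vs S n a u) (f' := fun u => (κ + x) - -(qf S n u (vs S n a u)))
    (B := fun _ => 0) (B' := fun _ => 0)
    ((continuous_const.mul continuous_id).continuousOn.sub ((vs_continuousOn h ha).mono hsub))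
    ?_ (by linarith) (fun _ => hasDerivAt_const _ _) ?_ (x := uc S n κ a)
    (right_mem_Icc.2 hu0.2)
  · rw [uc_eq h ha] at key
    have := mul_pos hx (uc_pos h ha)
    nlinarith
  · intro u hu
    have hu' : u ∈ Icc 0 a := hsub ⟨hu.1, hu.2.le⟩
    have h1 : HasDerivWithinAt (fun u : ℝ => (κ + x) * u) (κ + x) (Ici u) u := by
      simpa using ((hasDerivAt_id u).const_mul (κ + x)).hasDerivWithinAt
    refine h1.sub ((vs_deriv h ha hu').mono_of_mem_nhdsWithin ?_)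
    have hlt : u < a := hu.2.trans hua
    refine mem_of_superset (Icc_mem_nhdsGE hlt) (Icc_subset_Icc_left hu'.1)
  · intro u hu hf
    have hv : vs S n a u = (κ + x) * u := by linarith
    have hupos : 0 < u := h2.trans_le (hu0.1.trans hu.1)
    rw [hv, qf_eq h.deg hupos.ne', mul_div_assoc, div_self hupos.ne', mul_one]
    have h3 : u2 ^ n ≤ u ^ n := pow_le_pow_left₀ h2.le (hu0.1.trans hu.1) n
    have h4 := mul_le_mul_of_nonneg_right h3 hS.le
    linarith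

theorem tl_aux (h : Bar S n κ) {a u2 x : ℝ} (ha : 0 < a) (hx : 0 < x) (h2 : 0 < u2)
    (hb : κ + x < u2 ^ n * -S.eval (κ + x)) {y : ℝ}
    (hy : y ∈ Icc (Real.sqrt u2) (Real.sqrt (uc S n κ a))) :
    0 < y ∧ u2 ≤ y ^ 2 ∧ y ^ 2 ≤ uc S n κ a ∧ κ * y ^ 2 ≤ vs S n a (y ^ 2) ∧
      vs S n a (y ^ 2) ≤ (κ + x) * y ^ 2 := by
  have hy0 : 0 < y := (Real.sqrt_pos.2 h2).trans_le hy.1
  have h3 : u2 ≤ y ^ 2 := by
    have := pow_le_pow_left₀ (Real.sqrt_nonneg u2) hy.1 2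
    rwa [Real.sq_sqrt h2.le] at this
  have h4 : y ^ 2 ≤ uc S n κ a := by
    have := pow_le_pow_left₀ hy0.le hy.2 2
    rwa [Real.sq_sqrt (uc_pos h ha).le] at this
  exact ⟨hy0, h3, h4, ge_of_uc h ha (by positivity) h4, vs_le_bar h ha hx h2 hb _ ⟨h3, h4⟩⟩

theorem tl_aux_int (h : Bar S n κ) {a u2 x : ℝ} (ha : 0 < a) (hx : 0 < x) (h2 : 0 < u2)
    (h3 : u2 ≤ uc S n κ a) (hb : κ + x < u2 ^ n * -S.eval (κ + x)) (k : ℕ) :
    IntervalIntegrable (fun y => 1 / (Real.sqrt (vs S n a (y ^ 2)) * (y ^ 2 + vs S n a (y ^ 2)) ^ k))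
      volume (Real.sqrt u2) (Real.sqrt (uc S n κ a)) := by
  apply ContinuousOn.intervalIntegrable
  rw [uIcc_of_le (Real.sqrt_le_sqrt h3)]
  have hc : ContinuousOn (fun y : ℝ => vs S n a (y ^ 2)) (Icc (Real.sqrt u2) (Real.sqrt (uc S n κ a))) := by
    refine (vs_continuousOn h ha).comp (continuous_pow 2).continuousOn fun y hy => ?_
    obtain ⟨_, _, h5, _⟩ := tl_aux h ha hx h2 hb hy
    exact ⟨by positivity, h5.trans (uc_lt h ha).le⟩
  refine continuousOn_const.div ((Real.continuous_sqrt.comp_continuousOn hc).mul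
    (((continuous_pow 2).continuousOn.add hc).pow k)) fun y hy => ?_
  obtain ⟨h4, _, _, h6, _⟩ := tl_aux h ha hx h2 hb hy
  have h7 : 0 < vs S n a (y ^ 2) := lt_of_lt_of_le (mul_pos h.hκ (by positivity)) h6
  have h8 : 0 < y ^ 2 + vs S n a (y ^ 2) := by positivity
  exact (mul_pos (Real.sqrt_pos.2 h7) (pow_pos h8 k)).ne'

theorem tl_aux_log {u u' : ℝ} (hu : 0 < u) (huu : u ≤ u') (c : ℝ) :
    ∫ y in Real.sqrt u..Real.sqrt u', c * y⁻¹ = c * (Real.log (u' / u) / 2) := by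
  have hu' : 0 < u' := hu.trans_le huu
  rw [intervalIntegral.integral_const_mul, integral_inv_of_pos (Real.sqrt_pos.2 hu) (Real.sqrt_pos.2 hu'),
    ← Real.sqrt_div hu'.le, Real.log_sqrt (div_pos hu' hu).le]

theorem tl_aux_inv {u u' : ℝ} (hu : 0 < u) (huu : u ≤ u') (c : ℝ) :
    IntervalIntegrable (fun y => c * y⁻¹) volume (Real.sqrt u) (Real.sqrt u') := by
  have hu' : 0 < u' := hu.trans_le huu
  apply ContinuousOn.intervalIntegrable
  rw [uIcc_of_le (Real.sqrt_le_sqrt huu)]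
  refine continuousOn_const.mul (continuousOn_inv₀.mono fun y hy => ?_)
  exact (lt_of_lt_of_le (Real.sqrt_pos.2 hu) hy.1).ne'

theorem tl_bar_le (h : Bar S n κ) {a u2 x : ℝ} (ha : 0 < a) (hx : 0 < x) (h2 : 0 < u2)
    (h3 : u2 ≤ uc S n κ a) (hb : κ + x < u2 ^ n * -S.eval (κ + x)) (k : ℕ) :
    tl S n k a (Real.sqrt u2) (Real.sqrt (uc S n κ a)) ≤
      Wt k κ / u2 ^ k * (n * Real.log (uc S n κ a / u2)) := by
  have hκ := h.hκ
  have key : ∫ y in Real.sqrt u2..Real.sqrt (uc S n κ a),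
      1 / (Real.sqrt (vs S n a (y ^ 2)) * (y ^ 2 + vs S n a (y ^ 2)) ^ k) ≤
      ∫ y in Real.sqrt u2..Real.sqrt (uc S n κ a), Wt k κ / u2 ^ k * y⁻¹ := by
    refine intervalIntegral.integral_mono_on (Real.sqrt_le_sqrt h3) (tl_aux_int h ha hx h2 h3 hb k)
      (tl_aux_inv h2 h3 _) fun y hy => ?_
    obtain ⟨g1, g2, g3, g4, g5⟩ := tl_aux h ha hx h2 hb hy
    have e1 : Real.sqrt κ * y ≤ Real.sqrt (vs S n a (y ^ 2)) := by
      refine Real.le_sqrt_of_sq_le ?_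
      rw [mul_pow, Real.sq_sqrt hκ.le]
      exact g4
    have e2 : ((1 + κ) * u2) ^ k ≤ (y ^ 2 + vs S n a (y ^ 2)) ^ k := by
      refine pow_le_pow_left₀ (by positivity) ?_ k
      nlinarith
    have e3 : 0 < Real.sqrt κ * y := mul_pos (Real.sqrt_pos.2 hκ) g1
    have e4 : 0 < ((1 + κ) * u2) ^ k := by positivity
    calc 1 / (Real.sqrt (vs S n a (y ^ 2)) * (y ^ 2 + vs S n a (y ^ 2)) ^ k)
        ≤ 1 / (Real.sqrt κ * y * ((1 + κ) * u2) ^ k) :=
          one_div_le_one_div_of_le (by positivity) (mul_le_mul e1 e2 e4.le (Real.sqrt_nonneg _))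
      _ = Wt k κ / u2 ^ k * y⁻¹ := by
          unfold Wt
          rw [mul_pow]
          have : Real.sqrt κ ≠ 0 := (Real.sqrt_pos.2 hκ).ne'
          field_simp
  have hn : (0 : ℝ) ≤ 2 * n := by positivity
  have := mul_le_mul_of_nonneg_left key hn
  rw [tl_aux_log h2 h3] at this
  unfold tl
  refine this.trans (le_of_eq ?_)
  ring

theorem le_tl_bar (h : Bar S n κ) {a u2 x : ℝ} (ha : 0 < a) (hx : 0 < x) (h2 : 0 < u2)
    (h3 : u2 ≤ uc S n κ a) (hb : κ + x < u2 ^ n * -S.eval (κ + x)) (k : ℕ) :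
    Wt k (κ + x) / uc S n κ a ^ k * (n * Real.log (uc S n κ a / u2)) ≤
      tl S n k a (Real.sqrt u2) (Real.sqrt (uc S n κ a)) := by
  have hκ := h.hκ
  have huc := uc_pos h ha
  have key : ∫ y in Real.sqrt u2..Real.sqrt (uc S n κ a), Wt k (κ + x) / uc S n κ a ^ k * y⁻¹ ≤
      ∫ y in Real.sqrt u2..Real.sqrt (uc S n κ a),
      1 / (Real.sqrt (vs S n a (y ^ 2)) * (y ^ 2 + vs S n a (y ^ 2)) ^ k) := by
    refine intervalIntegral.integral_mono_on (Real.sqrt_le_sqrt h3)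
      (tl_aux_inv h2 h3 _) (tl_aux_int h ha hx h2 h3 hb k) fun y hy => ?_
    obtain ⟨g1, g2, g3, g4, g5⟩ := tl_aux h ha hx h2 hb hy
    have hvpos : 0 < vs S n a (y ^ 2) := lt_of_lt_of_le (mul_pos h.hκ (by positivity)) g4
    have e1 : Real.sqrt (vs S n a (y ^ 2)) ≤ Real.sqrt (κ + x) * y := by
      refine Real.sqrt_le_iff.2 ⟨by positivity, ?_⟩
      rw [mul_pow, Real.sq_sqrt (by positivity)]
      exact g5
    have e2 : (y ^ 2 + vs S n a (y ^ 2)) ^ k ≤ ((1 + (κ + x)) * uc S n κ a) ^ k := by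
      refine pow_le_pow_left₀ (by positivity) ?_ k
      nlinarith
    have e3 : 0 < Real.sqrt (κ + x) * y := mul_pos (Real.sqrt_pos.2 (by positivity)) g1
    calc Wt k (κ + x) / uc S n κ a ^ k * y⁻¹
        = 1 / (Real.sqrt (κ + x) * y * ((1 + (κ + x)) * uc S n κ a) ^ k) := by
          unfold Wt
          rw [mul_pow]
          have : Real.sqrt (κ + x) ≠ 0 := (Real.sqrt_pos.2 (by positivity)).ne'
          field_simp
      _ ≤ 1 / (Real.sqrt (vs S n a (y ^ 2)) * (y ^ 2 + vs S n a (y ^ 2)) ^ k) :=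
          one_div_le_one_div_of_le (mul_pos (Real.sqrt_pos.2 hvpos) (by positivity))
            (mul_le_mul e1 e2 (by positivity) e3.le)
  have hn : (0 : ℝ) ≤ 2 * n := by positivity
  have := mul_le_mul_of_nonneg_left key hn
  rw [tl_aux_log h2 h3] at this
  unfold tl
  refine le_trans (le_of_eq ?_) this
  ring

end Pool.Agent.CritPer.L
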