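import Pool.Agent.CritPer.L.Cross

open Set Filter Topology Polynomial MeasureTheory

namespace Pool.Agent.CritPer.L

variable {S : ℝ[X]} {n : ℕ} {κ : ℝ}

/-- Behind the barrier `v_b / v_a` does not increase as `u` decreases. -/
theorem ratio (h : Bar S n κ) (hanti : AntitoneOn (fun K => S.eval K / K) (Ici κ)) {a b : ℝ}
    (ha : 0 < a) (hab : a < b) {u u2 : ℝ} (h0 : 0 ≤ u) (h1 : u ≤ u2) (h2 : u2 ≤ uc S n κ a)
    (h3 : 0 < u2) : vs S n b u * vs S n a u2 ≤ vs S n b u2 * vs S n a u := by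
  have hb : 0 < b := ha.trans hab
  have hua : u2 < a := lt_of_le_of_lt h2 (uc_lt h ha)
  have hpa : ∀ w ∈ Icc 0 u2, 0 < vs S n a w := fun w hw =>
    vs_pos h ha ⟨hw.1, lt_of_le_of_lt hw.2 hua⟩
  have hsa : Icc 0 u2 ⊆ Icc 0 a := Icc_subset_Icc_right hua.le
  have hsb : Icc 0 u2 ⊆ Icc 0 b := Icc_subset_Icc_right (hua.le.trans hab.le)
  have hca : ContinuousOn (vs S n a) (Icc 0 u2) := (vs_continuousOn h ha).mono hsa
  have hcb : ContinuousOn (vs S n b) (Icc 0 u2) := (vs_continuousOn h hb).mono hsb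
  have hder : ∀ w ∈ Ioo 0 u2, HasDerivAt (fun w => vs S n b w / vs S n a w)
      ((-(qf S n w (vs S n b w)) * vs S n a w - vs S n b w * -(qf S n w (vs S n a w))) /
        vs S n a w ^ 2) w := by
    intro w hw
    have hwI : w ∈ Icc 0 u2 := ⟨hw.1.le, hw.2.le⟩
    have d1 : HasDerivAt (vs S n a) (-(qf S n w (vs S n a w))) w :=
      (vs_deriv h ha (hsa hwI)).hasDerivAt (Icc_mem_nhds hw.1 (hw.2.trans hua))
    have d2 : HasDerivAt (vs S n b) (-(qf S n w (vs S n b w))) w :=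
      (vs_deriv h hb (hsb hwI)).hasDerivAt (Icc_mem_nhds hw.1 ((hw.2.trans hua).trans hab))
    exact d2.div d1 (hpa w hwI).ne'
  have hmono : MonotoneOn (fun w => vs S n b w / vs S n a w) (Icc 0 u2) := by
    refine monotoneOn_of_deriv_nonneg (convex_Icc 0 u2)
      (hcb.div hca fun w hw => (hpa w hw).ne') ?_ ?_
    · intro w hw
      rw [interior_Icc] at hw
      exact (hder w hw).differentiableAt.differentiableWithinAt
    · intro w hw
      rw [interior_Icc] at hw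
      rw [(hder w hw).deriv]
      have hwI : w ∈ Icc 0 u2 := ⟨hw.1.le, hw.2.le⟩
      refine div_nonneg ?_ (sq_nonneg _)
      have hw0 : w ≠ 0 := hw.1.ne'
      have hA : 0 < vs S n a w := hpa w hwI
      have hAB : vs S n a w < vs S n b w := vs_lt h ha hab w (hsa hwI)
      have hB : 0 < vs S n b w := hA.trans hAB
      have hκA : κ * w ≤ vs S n a w := ge_of_uc h ha hw.1.le (hw.2.le.trans h2)
      rw [qf_eq h.deg hw0, qf_eq h.deg hw0]
      set A := vs S n a w with hAdef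
      set B := vs S n b w with hBdef
      have e1 : κ ≤ A / w := (le_div_iff₀ hw.1).2 hκA
      have e2 : A / w ≤ B / w := div_le_div_of_nonneg_right hAB.le hw.1.le
      have e3 := hanti (mem_Ici.2 e1) (mem_Ici.2 (e1.trans e2)) e2
      simp only at e3
      have hAw : 0 < A / w := div_pos hA hw.1
      have hBw : 0 < B / w := div_pos hB hw.1
      rw [div_le_div_iff₀ hBw hAw] at e3
      -- e3 : S(B/w) * (A/w) ≤ S(A/w) * (B/w)
      have e4 : S.eval (B / w) * A ≤ S.eval (A / w) * B := by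
        have := mul_le_mul_of_nonneg_right e3 hw.1.le
        calc S.eval (B / w) * A = S.eval (B / w) * (A / w) * w := by field_simp
          _ ≤ S.eval (A / w) * (B / w) * w := this
          _ = S.eval (A / w) * B := by field_simp
      have hwn : 0 ≤ w ^ n := pow_nonneg hw.1.le n
      nlinarith [mul_le_mul_of_nonneg_left e4 hwn]
  have hu : u ∈ Icc 0 u2 := ⟨h0, h1⟩
  have hu2 : u2 ∈ Icc 0 u2 := ⟨h3.le, le_rfl⟩
  have hfin := hmono hu hu2 h1
  simp only at hfin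
  rw [div_le_div_iff₀ (hpa u hu) (hpa u2 hu2)] at hfin
  exact hfin

theorem p3_cont (h : Bar S n κ) {a : ℝ} (ha : 0 < a) {s : ℝ} (hs : 0 ≤ s) (hsa : s < a) :
    ContinuousOn (fun x : ℝ => vs S n a (x ^ 2)) (Icc 0 (Real.sqrt s)) := by
  refine (vs_continuousOn h ha).comp (continuous_pow 2).continuousOn ?_
  intro x hx
  refine ⟨sq_nonneg x, ?_⟩
  have : x ^ 2 ≤ s := by
    have h1 := pow_le_pow_left₀ hx.1 hx.2 2
    rwa [Real.sq_sqrt hs] at h1
  linarith

theorem p3_contI (h : Bar S n κ) {a : ℝ} (ha : 0 < a) {s : ℝ} (hs : 0 ≤ s) (hsa : s < a) (k : ℕ) :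
    ContinuousOn (fun x : ℝ => 1 / (Real.sqrt (vs S n a (x ^ 2)) *
      (x ^ 2 + vs S n a (x ^ 2)) ^ k)) (Icc 0 (Real.sqrt s)) := by
  have hc := p3_cont (n := n) (S := S) h ha hs hsa
  refine ContinuousOn.div continuousOn_const ?_ ?_
  · exact (hc.sqrt).mul (((continuous_pow 2).continuousOn.add hc).pow k)
  · intro x hx
    have h2 : x ^ 2 ≤ s := by
      have h1 := pow_le_pow_left₀ hx.1 hx.2 2
      rwa [Real.sq_sqrt hs] at h1
    have hp : 0 < vs S n a (x ^ 2) := vs_pos h ha ⟨sq_nonneg x, lt_of_le_of_lt h2 hsa⟩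
    have : 0 < x ^ 2 + vs S n a (x ^ 2) := add_pos_of_nonneg_of_pos (sq_nonneg x) hp
    exact (mul_pos (Real.sqrt_pos.2 hp) (pow_pos this k)).ne'

theorem p3_bern (y : ℝ) (hy : 0 ≤ y) (k : ℕ) : (1 - (k + 1) * y) * (1 + y) ^ (k + 1) ≤ 1 := by
  have hy1 : 0 < 1 + y := by linarith
  have h1 : 1 + ((k + 1 : ℕ) : ℝ) * (-(y / (1 + y))) ≤ (1 + -(y / (1 + y))) ^ (k + 1) := by
    refine one_add_mul_le_pow ?_ (k + 1)
    have : y / (1 + y) ≤ 1 := (div_le_one hy1).2 (by linarith)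
    linarith
  have h2 : 1 + -(y / (1 + y)) = (1 + y)⁻¹ := by
    field_simp
    ring
  have h3 : y / (1 + y) ≤ y := div_le_self hy (by linarith)
  rw [h2] at h1
  have h4 : 1 - (k + 1) * y ≤ ((1 + y)⁻¹) ^ (k + 1) := by
    refine le_trans ?_ h1
    push_cast
    have hk : (0 : ℝ) ≤ k + 1 := by positivity
    nlinarith
  calc (1 - (k + 1) * y) * (1 + y) ^ (k + 1) ≤ ((1 + y)⁻¹) ^ (k + 1) * (1 + y) ^ (k + 1) :=
        mul_le_mul_of_nonneg_right h4 (pow_nonneg hy1.le _)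
    _ = 1 := by rw [← mul_pow, inv_mul_cancel₀ hy1.ne', one_pow]

theorem p3_point {A B t y : ℝ} (hA : 0 < A) (hAB : A ≤ B) (hBA : B ≤ (1 + y) * A) (ht : 0 ≤ t)
    (hy : 0 ≤ y) (k : ℕ) :
    1 / (Real.sqrt B * (t + B) ^ k) ≤ 1 / (Real.sqrt A * (t + A) ^ k) ∧
    (1 - (k + 1) * y) * (1 / (Real.sqrt A * (t + A) ^ k)) ≤ 1 / (Real.sqrt B * (t + B) ^ k) := by
  have hB : 0 < B := lt_of_lt_of_le hA hAB
  have hy1 : 0 < 1 + y := by linarith
  have htA : 0 < t + A := by linarith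
  have htB : 0 < t + B := by linarith
  have hsA : 0 < Real.sqrt A := Real.sqrt_pos.2 hA
  have hsB : 0 < Real.sqrt B := Real.sqrt_pos.2 hB
  have hdA : 0 < Real.sqrt A * (t + A) ^ k := mul_pos hsA (pow_pos htA k)
  have hdB : 0 < Real.sqrt B * (t + B) ^ k := mul_pos hsB (pow_pos htB k)
  refine ⟨?_, ?_⟩
  · refine one_div_le_one_div_of_le hdA ?_
    exact mul_le_mul (Real.sqrt_le_sqrt hAB) (pow_le_pow_left₀ htA.le (by linarith) k)
      (pow_nonneg htA.le k) hsB.le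
  · have e1 : Real.sqrt B ≤ (1 + y) * Real.sqrt A := by
      rw [Real.sqrt_le_left (by positivity), mul_pow, Real.sq_sqrt hA.le]
      nlinarith
    have e2 : (t + B) ^ k ≤ (1 + y) ^ k * (t + A) ^ k := by
      rw [← mul_pow]
      refine pow_le_pow_left₀ htB.le ?_ k
      nlinarith
    have e3 : Real.sqrt B * (t + B) ^ k ≤ (1 + y) ^ (k + 1) * (Real.sqrt A * (t + A) ^ k) := by
      calc Real.sqrt B * (t + B) ^ k ≤ ((1 + y) * Real.sqrt A) * ((1 + y) ^ k * (t + A) ^ k) :=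
            mul_le_mul e1 e2 (pow_nonneg htB.le k) (by positivity)
        _ = _ := by ring
    rw [mul_one_div, div_le_div_iff₀ hdA hdB, one_mul]
    rcases le_or_gt (1 - ((k : ℝ) + 1) * y) 0 with h0 | h0
    · exact le_trans (mul_nonpos_of_nonpos_of_nonneg h0 hdB.le) hdA.le
    · calc (1 - ((k : ℝ) + 1) * y) * (Real.sqrt B * (t + B) ^ k)
          ≤ (1 - ((k : ℝ) + 1) * y) * ((1 + y) ^ (k + 1) * (Real.sqrt A * (t + A) ^ k)) :=
            mul_le_mul_of_nonneg_left e3 h0.le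
        _ = ((1 - ((k : ℝ) + 1) * y) * (1 + y) ^ (k + 1)) * (Real.sqrt A * (t + A) ^ k) := by ring
        _ ≤ 1 * (Real.sqrt A * (t + A) ^ k) :=
            mul_le_mul_of_nonneg_right (p3_bern y hy k) hdA.le
        _ = _ := one_mul _

theorem tl_compare (h : Bar S n κ) (hanti : AntitoneOn (fun K => S.eval K / K) (Ici κ)) {a b : ℝ}
    (ha : 0 < a) (hab : a < b) {y : ℝ} (hy : 0 ≤ y)
    (hr : vs S n b (uc S n κ a) ≤ (1 + y) * vs S n a (uc S n κ a)) (k : ℕ) :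
    tl S n k b 0 (Real.sqrt (uc S n κ a)) ≤ tl S n k a 0 (Real.sqrt (uc S n κ a)) ∧
    tl S n k a 0 (Real.sqrt (uc S n κ a)) - tl S n k b 0 (Real.sqrt (uc S n κ a)) ≤
      (k + 1) * y * tl S n k a 0 (Real.sqrt (uc S n κ a)) := by
  have hb : 0 < b := ha.trans hab
  set s := uc S n κ a with hs
  have hs0 : 0 < s := uc_pos h ha
  have hsa : s < a := uc_lt h ha
  have hss : 0 ≤ Real.sqrt s := Real.sqrt_nonneg s
  have hpt : ∀ x ∈ Icc 0 (Real.sqrt s),
      1 / (Real.sqrt (vs S n b (x ^ 2)) * (x ^ 2 + vs S n b (x ^ 2)) ^ k) ≤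
        1 / (Real.sqrt (vs S n a (x ^ 2)) * (x ^ 2 + vs S n a (x ^ 2)) ^ k) ∧
      (1 - (k + 1) * y) * (1 / (Real.sqrt (vs S n a (x ^ 2)) * (x ^ 2 + vs S n a (x ^ 2)) ^ k)) ≤
        1 / (Real.sqrt (vs S n b (x ^ 2)) * (x ^ 2 + vs S n b (x ^ 2)) ^ k) := by
    intro x hx
    have hx2 : x ^ 2 ≤ s := by
      have h1 := pow_le_pow_left₀ hx.1 hx.2 2
      rwa [Real.sq_sqrt hs0.le] at h1
    have hA : 0 < vs S n a (x ^ 2) := vs_pos h ha ⟨sq_nonneg x, lt_of_le_of_lt hx2 hsa⟩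
    have hAB : vs S n a (x ^ 2) < vs S n b (x ^ 2) :=
      vs_lt h ha hab _ ⟨sq_nonneg x, hx2.trans hsa.le⟩
    have hAs : 0 < vs S n a s := vs_pos h ha ⟨hs0.le, hsa⟩
    have hrt := ratio h hanti ha hab (sq_nonneg x) hx2 le_rfl hs0
    refine p3_point hA hAB.le ?_ (sq_nonneg x) hy k
    have h1 : vs S n b (x ^ 2) * vs S n a s ≤ ((1 + y) * vs S n a (x ^ 2)) * vs S n a s := by
      calc vs S n b (x ^ 2) * vs S n a s ≤ vs S n b s * vs S n a (x ^ 2) := hrt
        _ ≤ ((1 + y) * vs S n a s) * vs S n a (x ^ 2) := mul_le_mul_of_nonneg_right hr hA.le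
        _ = _ := by ring
    exact le_of_mul_le_mul_right h1 hAs
  have hIa : IntervalIntegrable (fun x : ℝ => 1 / (Real.sqrt (vs S n a (x ^ 2)) *
      (x ^ 2 + vs S n a (x ^ 2)) ^ k)) volume 0 (Real.sqrt s) := by
    refine ContinuousOn.intervalIntegrable ?_
    rw [uIcc_of_le hss]
    exact p3_contI h ha hs0.le hsa k
  have hIb : IntervalIntegrable (fun x : ℝ => 1 / (Real.sqrt (vs S n b (x ^ 2)) *
      (x ^ 2 + vs S n b (x ^ 2)) ^ k)) volume 0 (Real.sqrt s) := by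
    refine ContinuousOn.intervalIntegrable ?_
    rw [uIcc_of_le hss]
    exact p3_contI h hb hs0.le (hsa.trans hab) k
  have hn : (0 : ℝ) ≤ 2 * n := by positivity
  have i1 := intervalIntegral.integral_mono_on hss hIb hIa fun x hx => (hpt x hx).1
  have i2 := intervalIntegral.integral_mono_on hss (hIa.const_mul (1 - (k + 1) * y)) hIb
    fun x hx => (hpt x hx).2
  rw [intervalIntegral.integral_const_mul] at i2
  unfold tl
  refine ⟨mul_le_mul_of_nonneg_left i1 hn, ?_⟩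
  have i3 := mul_le_mul_of_nonneg_left i2 hn
  linarith [i3]

end Pool.Agent.CritPer.L
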