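import Pool.Agent.CritPer.L.Cross
import Pool.Agent.CritPer.L.Wf

open Set Filter Topology Polynomial MeasureTheory

namespace Pool.Agent.CritPer.L

variable {S : ℝ[X]} {n : ℕ} {κ : ℝ}

/-- the integrand of `tl` is continuous as long as `x ^ 2 < a` -/
theorem tl_integrand_continuousOn (h : Bar S n κ) {a s : ℝ} (ha : 0 < a) (hs : s ^ 2 < a) (k : ℕ) :
    ContinuousOn (fun x : ℝ => 1 / (Real.sqrt (vs S n a (x ^ 2)) * (x ^ 2 + vs S n a (x ^ 2)) ^ k))
      (Icc 0 s) := by
  have hmap : ∀ x ∈ Icc (0 : ℝ) s, x ^ 2 ∈ Ico 0 a := fun x hx =>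
    ⟨sq_nonneg x, lt_of_le_of_lt (pow_le_pow_left₀ hx.1 hx.2 2) hs⟩
  have hv : ContinuousOn (fun x : ℝ => vs S n a (x ^ 2)) (Icc 0 s) :=
    (vs_continuousOn h ha).comp (continuous_pow 2).continuousOn fun x hx =>
      Ico_subset_Icc_self (hmap x hx)
  refine ContinuousOn.div continuousOn_const ?_ ?_
  · exact hv.sqrt.mul (((continuous_pow 2).continuousOn.add hv).pow k)
  · intro x hx
    have h1 := vs_pos h ha (hmap x hx)
    have h2 : 0 < x ^ 2 + vs S n a (x ^ 2) := by positivity
    exact (mul_pos (Real.sqrt_pos.2 h1) (pow_pos h2 k)).ne'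

theorem tl_add (h : Bar S n κ) {a r s : ℝ} (ha : 0 < a) (hr : 0 ≤ r) (hrs : r ≤ s)
    (hs : s ^ 2 < a) (k : ℕ) : tl S n k a 0 s = tl S n k a 0 r + tl S n k a r s := by
  unfold tl
  rw [← mul_add, intervalIntegral.integral_add_adjacent_intervals]
  · refine ContinuousOn.intervalIntegrable ?_
    rw [uIcc_of_le hr]
    exact (tl_integrand_continuousOn h ha hs k).mono (Icc_subset_Icc_right hrs)
  · refine ContinuousOn.intervalIntegrable ?_
    rw [uIcc_of_le hrs]
    exact (tl_integrand_continuousOn h ha hs k).mono (Icc_subset_Icc_left hr)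

theorem Ts_split (h : Bar S n κ) {a : ℝ} (ha : 0 < a) (k : ℕ) :
    n / 2 * Ts S n k a = partI S n k κ a + tl S n k a 0 (Real.sqrt (uc S n κ a)) := by
  set F : ℝ → ℝ := fun p => 1 / (Wr S n a p * (a * Real.cos p ^ 2 + Vp S n a p) ^ k) with hF
  have hFc : Continuous F := by
    refine Continuous.div continuous_const ?_ ?_
    · exact (continuous_Wr h ha).mul
        (((continuous_const.mul (Real.continuous_cos.pow 2)).add (continuous_Vp h ha)).pow k)
    · intro p
      exact (mul_pos (Wr_pos h ha p) (pow_pos (uv_pos h ha p) k)).ne'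
  have hFi : ∀ x y, IntervalIntegrable F volume x y := fun x y => hFc.intervalIntegrable x y
  have hadd : ∀ p, F (p + Real.pi) = F p := by
    intro p
    simp only [hF, Wr, Vp, Real.cos_add_pi, neg_sq]
  have hsub : ∀ p, F (Real.pi - p) = F p := by
    intro p
    simp only [hF, Wr, Vp, Real.cos_pi_sub, neg_sq]
  have hT : Ts S n k a = 4 * ∫ p in (0 : ℝ)..(Real.pi / 2), F p := by
    have h1 : Ts S n k a = (∫ p in (0 : ℝ)..Real.pi, F p) + ∫ p in Real.pi..(2 * Real.pi), F p :=
      (intervalIntegral.integral_add_adjacent_intervals (hFi _ _) (hFi _ _)).symm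
    have h2 : (∫ p in Real.pi..(2 * Real.pi), F p) = ∫ p in (0 : ℝ)..Real.pi, F p := by
      have := intervalIntegral.integral_comp_add_right (a := 0) (b := Real.pi) F Real.pi
      simp only [hadd] at this
      rw [this]
      congr 1
      · ring
      · ring
    have h3 : (∫ p in (0 : ℝ)..Real.pi, F p) =
        (∫ p in (0 : ℝ)..(Real.pi / 2), F p) + ∫ p in (Real.pi / 2)..Real.pi, F p :=
      (intervalIntegral.integral_add_adjacent_intervals (hFi _ _) (hFi _ _)).symm
    have h4 : (∫ p in (Real.pi / 2)..Real.pi, F p) = ∫ p in (0 : ℝ)..(Real.pi / 2), F p := by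
      have := intervalIntegral.integral_comp_sub_left (a := 0) (b := Real.pi / 2) F Real.pi
      simp only [hsub] at this
      rw [this]
      congr 1
      · ring
      · ring
    rw [h1, h2, h3, h4]
    ring
  have hu0 := uc_pos h ha
  have hu1 := uc_lt h ha
  set u := uc S n κ a with hu
  have hua0 : 0 ≤ u / a := (div_pos hu0 ha).le
  have hua1 : u / a < 1 := (div_lt_one ha).2 hu1
  have hsq1 : Real.sqrt (u / a) < 1 := by
    rw [Real.sqrt_lt' one_pos]
    simpa using hua1
  have hsq0 : 0 < Real.sqrt (u / a) := Real.sqrt_pos.2 (div_pos hu0 ha)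
  set p1 := Real.arccos (Real.sqrt (u / a)) with hp1
  have hp0 : 0 < p1 := Real.arccos_pos.2 hsq1
  have hp2 : p1 < Real.pi / 2 := by
    rw [hp1]
    rw [Real.arccos_lt_pi_div_two]
    exact hsq0
  have hcos : Real.cos p1 = Real.sqrt (u / a) := Real.cos_arccos (by linarith) hsq1.le
  have hsin : ∀ p ∈ Icc p1 (Real.pi / 2), 0 < Real.sin p := fun p hp =>
    Real.sin_pos_of_pos_of_lt_pi (hp0.trans_le hp.1) (lt_of_le_of_lt hp.2 (by linarith [Real.pi_pos]))
  have hsa : 0 < Real.sqrt a := Real.sqrt_pos.2 ha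
  have hsplit : (∫ p in (0 : ℝ)..(Real.pi / 2), F p) =
      (∫ p in (0 : ℝ)..p1, F p) + ∫ p in p1..(Real.pi / 2), F p :=
    (intervalIntegral.integral_add_adjacent_intervals (hFi _ _) (hFi _ _)).symm
  set g : ℝ → ℝ := fun x => 1 / (Real.sqrt (vs S n a (x ^ 2)) * (x ^ 2 + vs S n a (x ^ 2)) ^ k)
    with hg
  have hgc : ContinuousOn g (Icc 0 (Real.sqrt u)) :=
    tl_integrand_continuousOn h ha (by rw [Real.sq_sqrt hu0.le]; exact hu1) k
  have hend : Real.sqrt a * Real.cos p1 = Real.sqrt u := by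
    rw [hcos, ← Real.sqrt_mul ha.le, mul_div_cancel₀ _ ha.ne']
  have hsubst := intervalIntegral.integral_comp_mul_deriv' (a := p1) (b := Real.pi / 2)
    (f := fun p => Real.sqrt a * Real.cos p) (f' := fun p => Real.sqrt a * (-Real.sin p)) (g := g)
    (fun p _ => (Real.hasDerivAt_cos p).const_mul _)
    (continuous_const.mul Real.continuous_sin.neg).continuousOn
    (by
      refine hgc.mono ?_
      rintro _ ⟨p, hp, rfl⟩
      rw [uIcc_of_le hp2.le] at hp
      refine ⟨?_, ?_⟩
      · exact mul_nonneg hsa.le (Real.cos_nonneg_of_mem_Icc ⟨by linarith [hp.1], hp.2⟩)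
      · rw [← hend]
        refine mul_le_mul_of_nonneg_left ?_ hsa.le
        exact Real.cos_le_cos_of_nonneg_of_le_pi hp0.le (by linarith [hp.2, Real.pi_pos]) hp.1)
  have hpt : ∀ p ∈ uIcc p1 (Real.pi / 2),
      (g ∘ fun p => Real.sqrt a * Real.cos p) p * (Real.sqrt a * (-Real.sin p)) = - F p := by
    intro p hp
    rw [uIcc_of_le hp2.le] at hp
    have hs := hsin p hp
    have hW := Wr_pos h ha p
    have e1 : (Real.sqrt a * Real.cos p) ^ 2 = a * Real.cos p ^ 2 := by
      rw [mul_pow, Real.sq_sqrt ha.le]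
    have e2 : vs S n a (a * Real.cos p ^ 2) = Vp S n a p := rfl
    have e3 : Real.sqrt (Vp S n a p) = Real.sqrt a * Real.sin p * Wr S n a p := by
      rw [Vp_eq h ha p]
      have : a * Real.sin p ^ 2 * Wr S n a p ^ 2 = (Real.sqrt a * Real.sin p * Wr S n a p) ^ 2 := by
        rw [mul_pow, mul_pow, Real.sq_sqrt ha.le]
      rw [this, Real.sqrt_sq (by positivity)]
    have hpow : (a * Real.cos p ^ 2 + Vp S n a p) ^ k ≠ 0 := (pow_pos (uv_pos h ha p) k).ne'
    simp only [Function.comp, hg, hF]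
    rw [e1, e2, e3]
    field_simp
  have hI : (∫ p in p1..(Real.pi / 2), F p) = ∫ x in (0 : ℝ)..Real.sqrt u, g x := by
    rw [intervalIntegral.integral_congr hpt, intervalIntegral.integral_neg] at hsubst
    have hc : Real.sqrt a * Real.cos (Real.pi / 2) = 0 := by rw [Real.cos_pi_div_two, mul_zero]
    simp only [hend, hc] at hsubst
    rw [intervalIntegral.integral_symm 0 (Real.sqrt u)] at hsubst
    exact neg_injective hsubst
  have e : tl S n k a 0 (Real.sqrt u) = 2 * n * ∫ x in (0 : ℝ)..Real.sqrt u, g x := rfl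
  have e' : partI S n k κ a = 2 * n * ∫ p in (0 : ℝ)..p1, F p := rfl
  rw [e, e', hT, hsplit, hI]
  ring

end Pool.Agent.CritPer.L
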