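import Pool.Agent.CritPer.L.PartI
import Pool.Agent.CritPer.L.PartII
import Pool.Agent.CritPer.L.PartIII
import Pool.Agent.CritPer.L.Split
import Pool.Agent.CritPer.L.Low
import Pool.Agent.CritPer.L.Lim

open Set Filter Topology Polynomial MeasureTheory

namespace Pool.Agent.CritPer.L

theorem Coer.pos {Q : ℝ[X]} {q0 : ℝ} (hQ : Coer Q q0) (z : ℝ) : 0 < Q.eval z :=
  lt_of_lt_of_le (mul_pos hQ.1 (by positivity)) (hQ.2 z)

theorem JJ_anti {Q : ℝ[X]} {q0 : ℝ} (hQ : Coer Q q0) {E F : ℝ} (hE : 0 < E) (hEF : E ≤ F) :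
    JJ Q F ≤ JJ Q E := by
  unfold JJ
  refine integral_mono (integrable_JJ hQ (hE.trans_le hEF)) (integrable_JJ hQ hE) fun z => ?_
  have hz := hQ.pos z
  exact one_div_le_one_div_of_le (by positivity) (by nlinarith)

theorem JJ_exp {Q : ℝ[X]} {q0 : ℝ} (hQ : Coer Q q0) {E δ : ℝ} (hE : 0 < E) (hδ : 0 ≤ δ) :
    JJ Q (E * Real.exp (-δ)) ≤ Real.exp δ * JJ Q E := by
  unfold JJ
  rw [← integral_const_mul]
  refine integral_mono (integrable_JJ hQ (by positivity)) ((integrable_JJ hQ hE).const_mul _)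
    fun z => ?_
  have hz := hQ.pos z
  have h1 : 1 ≤ Real.exp δ := Real.one_le_exp hδ
  have h2 : Real.exp δ * Real.exp (-δ) = 1 := by rw [← Real.exp_add]; simp
  have h3 : 0 < 1 + E * Real.exp (-δ) * Q.eval z := by positivity
  have h4 : 0 < 1 + E * Q.eval z := by positivity
  show 1 / (1 + E * Real.exp (-δ) * Q.eval z) ≤ Real.exp δ * (1 / (1 + E * Q.eval z))
  rw [mul_one_div, div_le_div_iff₀ h3 h4]
  have h5 : Real.exp δ * (1 + E * Real.exp (-δ) * Q.eval z) = Real.exp δ + E * Q.eval z := by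
    calc Real.exp δ * (1 + E * Real.exp (-δ) * Q.eval z)
        = Real.exp δ + (Real.exp δ * Real.exp (-δ)) * (E * Q.eval z) := by ring
      _ = _ := by rw [h2, one_mul]
  rw [h5]
  linarith

theorem Bar.nonneg {S : ℝ[X]} {n : ℕ} {κ : ℝ} (h : Bar S n κ) {K : ℝ} (h0 : 0 ≤ K) (h1 : K ≤ κ) :
    0 ≤ S.eval K := by
  rcases h1.eq_or_lt with h1 | h1
  · rw [h1]
    have hc : ContinuousWithinAt (fun K => S.eval K) (Ico 0 κ) κ :=
      (S.continuous).continuousWithinAt
    have hne : (𝓝[Ico 0 κ] κ).NeBot := by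
      rw [← mem_closure_iff_nhdsWithin_neBot, closure_Ico (by linarith [h.hκ] : (0 : ℝ) ≠ κ)]
      exact right_mem_Icc.2 h.hκ.le
    exact ge_of_tendsto hc (eventually_nhdsWithin_of_forall fun K hK => (h.pos K hK.1 hK.2).le)
  · exact (h.pos K h0 h1).le

theorem Jw_den {S : ℝ[X]} {n : ℕ} {κ : ℝ} (h : Bar S n κ) {E m : ℝ} (hE : 0 < E)
    (hm : m ∈ Icc 0 (Real.sqrt κ)) : 0 < m ^ 2 + E * S.eval (m ^ 2) := by
  have h1 : m ^ 2 ≤ κ := by
    have := pow_le_pow_left₀ hm.1 hm.2 2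
    rwa [Real.sq_sqrt h.hκ.le] at this
  have h2 := h.nonneg (sq_nonneg m) h1
  rcases hm.1.eq_or_lt with h0 | h0
  · rw [← h0]
    have := h.pos 0 le_rfl h.hκ
    have e : (0 : ℝ) ^ 2 = 0 := by norm_num
    rw [e]
    positivity
  · positivity

theorem Jw_int {S : ℝ[X]} {n : ℕ} {κ : ℝ} (h : Bar S n κ) (k : ℕ) {E : ℝ} (hE : 0 < E) :
    IntervalIntegrable (fun m : ℝ => 2 * (n : ℝ) / ((m ^ 2 + E * S.eval (m ^ 2)) * (1 + m ^ 2) ^ k))
      volume 0 (Real.sqrt κ) := by
  refine ContinuousOn.intervalIntegrable ?_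
  rw [uIcc_of_le (Real.sqrt_nonneg κ)]
  have hS : Continuous (fun m : ℝ => S.eval (m ^ 2)) := S.continuous.comp (continuous_pow 2)
  refine ContinuousOn.div continuousOn_const (by fun_prop) fun m hm => ?_
  exact (mul_pos (Jw_den h hE hm) (by positivity)).ne'

theorem Jw_nonneg {S : ℝ[X]} {n : ℕ} {κ : ℝ} (h : Bar S n κ) (k : ℕ) {E : ℝ} (hE : 0 < E) :
    0 ≤ Jw S k n κ E := by
  unfold Jw
  refine intervalIntegral.integral_nonneg (Real.sqrt_nonneg κ) fun m hm => ?_
  have := Jw_den h hE hm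
  positivity

theorem Jw_anti {S : ℝ[X]} {n : ℕ} {κ : ℝ} (h : Bar S n κ) (k : ℕ) {E F : ℝ} (hE : 0 < E)
    (hEF : E ≤ F) : Jw S k n κ F ≤ Jw S k n κ E := by
  unfold Jw
  refine intervalIntegral.integral_mono_on (Real.sqrt_nonneg κ) (Jw_int h k (hE.trans_le hEF))
    (Jw_int h k hE) fun m hm => ?_
  have h1 := Jw_den h hE hm
  have h2 : m ^ 2 ≤ κ := by
    have := pow_le_pow_left₀ hm.1 hm.2 2
    rwa [Real.sq_sqrt h.hκ.le] at this
  have h3 := h.nonneg (sq_nonneg m) h2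
  have h4 : m ^ 2 + E * S.eval (m ^ 2) ≤ m ^ 2 + F * S.eval (m ^ 2) := by
    have := mul_le_mul_of_nonneg_right hEF h3
    linarith
  exact div_le_div_of_nonneg_left (by positivity) (by positivity)
    (mul_le_mul_of_nonneg_right h4 (by positivity))

theorem Wt_pos (k : ℕ) {K : ℝ} (hK : 0 < K) : 0 < Wt k K := by
  unfold Wt
  have := Real.sqrt_pos.2 hK
  positivity

/-- The meeting point is not much smaller than `a`. -/
theorem le_uc {S : ℝ[X]} {n : ℕ} {κ : ℝ} (h : Bar S n κ) {a : ℝ} (ha : 0 < a) {δ : ℝ} (hδ : 0 < δ)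
    (hJ : Jt S n κ (a ^ n * Real.exp (-δ)) < δ) : a * Real.exp (-δ / n) ≤ uc S n κ a := by
  have h1 := uc_time h ha hδ hJ
  have h2 := uc_pos h ha
  have hn : (0 : ℝ) < n := by exact_mod_cast h.hn
  have h3 : Real.log (a / uc S n κ a) ≤ δ / n := by
    rw [le_div_iff₀ hn]; linarith
  have h4 : a / uc S n κ a ≤ Real.exp (δ / n) := by
    rw [← Real.log_le_iff_le_exp (by positivity)]; exact h3
  rw [div_le_iff₀ h2] at h4
  have h5 : Real.exp (-δ / n) * Real.exp (δ / n) = 1 := by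
    rw [← Real.exp_add]
    have : -δ / (n : ℝ) + δ / n = 0 := by ring
    rw [this, Real.exp_zero]
  calc a * Real.exp (-δ / n) ≤ (Real.exp (δ / n) * uc S n κ a) * Real.exp (-δ / n) :=
        mul_le_mul_of_nonneg_right h4 (Real.exp_pos _).le
    _ = (Real.exp (-δ / n) * Real.exp (δ / n)) * uc S n κ a := by ring
    _ = uc S n κ a := by rw [h5, one_mul]

theorem exp_pow_n {n : ℕ} (hn : 1 ≤ n) (a δ : ℝ) :
    (a * Real.exp (-δ / n)) ^ n = a ^ n * Real.exp (-δ) := by
  have hn' : (n : ℝ) ≠ 0 := by exact_mod_cast (by omega : n ≠ 0)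
  rw [mul_pow, ← Real.exp_nat_mul]
  congr 2
  field_simp

theorem partI_le' {S : ℝ[X]} {n : ℕ} {κ : ℝ} (h : Bar S n κ) {a : ℝ} (ha : 0 < a) (k : ℕ) {δ : ℝ}
    (hδ : 0 < δ) (hJ : Jt S n κ (a ^ n * Real.exp (-δ)) < δ) :
    partI S n k κ a ≤ 1 / (a * Real.exp (-δ / n)) ^ k * Jw S k n κ (a ^ n * Real.exp (-δ)) := by
  have h1 := le_uc h ha hδ hJ
  have h0 : 0 < a * Real.exp (-δ / n) := by positivity
  have hu := uc_pos h ha
  refine (partI_le h ha k).trans ?_
  refine mul_le_mul ?_ ?_ (Jw_nonneg h k (by positivity)) (by positivity)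
  · exact one_div_le_one_div_of_le (by positivity) (pow_le_pow_left₀ h0.le h1 k)
  · refine Jw_anti h k (by positivity) ?_
    rw [← exp_pow_n h.hn]
    exact pow_le_pow_left₀ h0.le h1 n

theorem tl_le {S : ℝ[X]} {n : ℕ} {κ : ℝ} (h : Bar S n κ) (k : ℕ) {a low : ℝ} (ha : 0 < a)
    (hlow : 0 < low) (hl : ∀ u ∈ Icc 0 (uc S n κ a), low ≤ vs S n a u) :
    tl S n k a 0 (Real.sqrt (uc S n κ a)) ≤
      2 * n * Real.sqrt a / (Real.sqrt low * low ^ k) := by
  have hu := uc_pos h ha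
  have hs : Real.sqrt (uc S n κ a) ≤ Real.sqrt a := Real.sqrt_le_sqrt (uc_lt h ha).le
  have hlow' := Real.sqrt_pos.2 hlow
  unfold tl
  have h1 : ∫ x in (0 : ℝ)..Real.sqrt (uc S n κ a),
      1 / (Real.sqrt (vs S n a (x ^ 2)) * (x ^ 2 + vs S n a (x ^ 2)) ^ k) ≤
      1 / (Real.sqrt low * low ^ k) * |Real.sqrt (uc S n κ a) - 0| := by
    refine (le_abs_self _).trans ?_
    rw [← Real.norm_eq_abs]
    refine intervalIntegral.norm_integral_le_of_norm_le_const fun x hx => ?_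
    rw [uIoc_of_le (Real.sqrt_nonneg _)] at hx
    have hx2 : x ^ 2 ∈ Icc 0 (uc S n κ a) := by
      refine ⟨sq_nonneg x, ?_⟩
      have := pow_le_pow_left₀ hx.1.le hx.2 2
      rwa [Real.sq_sqrt hu.le] at this
    have hv := hl _ hx2
    have hv0 : 0 < vs S n a (x ^ 2) := hlow.trans_le hv
    have hv1 := Real.sqrt_pos.2 hv0
    rw [Real.norm_eq_abs, abs_of_nonneg (by positivity)]
    refine one_div_le_one_div_of_le (by positivity) ?_
    refine mul_le_mul (Real.sqrt_le_sqrt hv) ?_ (by positivity) (by positivity)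
    exact pow_le_pow_left₀ hlow.le (by nlinarith [sq_nonneg x]) k
  rw [sub_zero, abs_of_nonneg (Real.sqrt_nonneg _)] at h1
  calc 2 * (n : ℝ) * ∫ x in (0 : ℝ)..Real.sqrt (uc S n κ a),
      1 / (Real.sqrt (vs S n a (x ^ 2)) * (x ^ 2 + vs S n a (x ^ 2)) ^ k)
      ≤ 2 * n * (1 / (Real.sqrt low * low ^ k) * Real.sqrt (uc S n κ a)) :=
        mul_le_mul_of_nonneg_left h1 (by positivity)
    _ ≤ 2 * n * (1 / (Real.sqrt low * low ^ k) * Real.sqrt a) :=
        mul_le_mul_of_nonneg_left (mul_le_mul_of_nonneg_left hs (by positivity)) (by positivity)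
    _ = _ := by ring

/-- Fixed `n`: two-sided bound for the difference of the periods. -/
theorem diff_bounds {S : ℝ[X]} {n : ℕ} {κ : ℝ} (h : Bar S n κ)
    (hanti : AntitoneOn (fun K => S.eval K / K) (Ici κ)) (k : ℕ) {a b δ x low : ℝ} (ha : 0 < a)
    (hab : a < b) (hδ : 0 < δ) (hx : 0 < x) (hlow : 0 < low)
    (hJa : Jt S n κ (a ^ n * Real.exp (-δ)) < δ) (hJb : Jt S n κ (b ^ n * Real.exp (-δ)) < δ)
    (hbar : κ + x < a ^ n * Real.exp (-δ) * -S.eval (κ + x))
    (hl : ∀ u ∈ Icc 0 (uc S n κ a), low ≤ vs S n a u) :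
    n / 2 * (Ts S n k b - Ts S n k a) ≤
      1 / (b * Real.exp (-δ / n)) ^ k * Jw S k n κ (b ^ n * Real.exp (-δ))
      - 1 / a ^ k * Jw S k n κ (a ^ n)
      + Wt k κ / (a * Real.exp (-δ / n)) ^ k * (n * Real.log (b / a) + δ) ∧
    1 / b ^ k * Jw S k n κ (b ^ n)
      - 1 / (a * Real.exp (-δ / n)) ^ k * Jw S k n κ (a ^ n * Real.exp (-δ))
      + Wt k (κ + x) / b ^ k * (n * Real.log (b / a) - δ)
      - (k + 1) * (x / κ) * (2 * n * Real.sqrt a / (Real.sqrt low * low ^ k)) ≤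
      n / 2 * (Ts S n k b - Ts S n k a) := by
  have hb : 0 < b := ha.trans hab
  have hn : (0 : ℝ) < n := by exact_mod_cast h.hn
  have hκ := h.hκ
  set u1 := uc S n κ b with hu1
  set u2 := uc S n κ a with hu2
  have pu1 : 0 < u1 := uc_pos h hb
  have pu2 : 0 < u2 := uc_pos h ha
  have lu1 : u1 < b := uc_lt h hb
  have lu2 : u2 < a := uc_lt h ha
  have h12 : u2 ≤ u1 := uc_mono h ha hab
  have ge1 : b * Real.exp (-δ / n) ≤ u1 := le_uc h hb hδ hJb
  have ge2 : a * Real.exp (-δ / n) ≤ u2 := le_uc h ha hδ hJa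
  have pe : 0 < Real.exp (-δ / (n : ℝ)) := Real.exp_pos _
  have pa' : 0 < a * Real.exp (-δ / n) := by positivity
  have pb' : 0 < b * Real.exp (-δ / n) := by positivity
  -- the barrier condition at `u2`
  have hneg : 0 < -S.eval (κ + x) := by
    have := h.neg (κ + x) (by linarith)
    linarith
  have hb2 : κ + x < u2 ^ n * -S.eval (κ + x) := by
    refine hbar.trans_le (mul_le_mul_of_nonneg_right ?_ hneg.le)
    rw [← exp_pow_n h.hn]
    exact pow_le_pow_left₀ pa'.le ge2 n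
  have hr : vs S n b u2 ≤ (1 + x / κ) * vs S n a u2 := by
    have e1 := vs_le_bar h hb hx pu2 hb2 u2 (left_mem_Icc.2 h12)
    have e2 : vs S n a u2 = κ * u2 := uc_eq h ha
    rw [e2]
    have : (1 + x / κ) * (κ * u2) = (κ + x) * u2 := by field_simp
    rw [this]
    exact e1
  obtain ⟨c1, c2⟩ := tl_compare h hanti ha hab (div_nonneg hx.le hκ.le) hr k
  have s1 := Ts_split h hb k
  have s2 := Ts_split h ha k
  have hadd : tl S n k b 0 (Real.sqrt u1) =
      tl S n k b 0 (Real.sqrt u2) + tl S n k b (Real.sqrt u2) (Real.sqrt u1) := by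
    refine tl_add h hb (Real.sqrt_nonneg _) (Real.sqrt_le_sqrt h12) ?_ k
    rw [Real.sq_sqrt pu1.le]
    exact lu1
  have t1 := tl_bar_le h hb hx pu2 h12 hb2 k
  have t2 := le_tl_bar h hb hx pu2 h12 hb2 k
  have tt := tl_le h k ha hlow hl
  -- logarithms
  have lg1 : n * Real.log (u1 / u2) ≤ n * Real.log (b / a) + δ := by
    have e : Real.log (u1 / u2) ≤ Real.log (b / (a * Real.exp (-δ / n))) := by
      refine Real.log_le_log (by positivity) ?_
      exact div_le_div₀ hb.le lu1.le pa' ge2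
    have e2 : Real.log (b / (a * Real.exp (-δ / n))) = Real.log (b / a) + δ / n := by
      rw [← div_div, Real.log_div (by positivity) pe.ne', Real.log_exp]
      ring
    rw [e2] at e
    have := mul_le_mul_of_nonneg_left e hn.le
    have e3 : n * (Real.log (b / a) + δ / n) = n * Real.log (b / a) + δ := by field_simp
    linarith
  have lg2 : n * Real.log (b / a) - δ ≤ n * Real.log (u1 / u2) := by
    have e : Real.log (b * Real.exp (-δ / n) / a) ≤ Real.log (u1 / u2) := by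
      refine Real.log_le_log (by positivity) ?_
      exact div_le_div₀ pu1.le ge1 pu2 lu2.le
    have e2 : Real.log (b * Real.exp (-δ / n) / a) = Real.log (b / a) - δ / n := by
      rw [mul_div_right_comm, Real.log_mul (by positivity) pe.ne', Real.log_exp]
      ring
    rw [e2] at e
    have := mul_le_mul_of_nonneg_left e hn.le
    have e3 : n * (Real.log (b / a) - δ / n) = n * Real.log (b / a) - δ := by field_simp
    linarith
  have lg0 : 0 ≤ n * Real.log (u1 / u2) := by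
    have : 1 ≤ u1 / u2 := by rw [le_div_iff₀ pu2]; linarith
    have := Real.log_nonneg this
    positivity
  have wκ := Wt_pos k hκ
  have wκx := Wt_pos k (K := κ + x) (by linarith)
  constructor
  · have p1 := partI_le' h hb k hδ hJb
    have p2 := le_partI h ha k
    have t1' : tl S n k b (Real.sqrt u2) (Real.sqrt u1) ≤
        Wt k κ / (a * Real.exp (-δ / n)) ^ k * (n * Real.log (b / a) + δ) := by
      refine t1.trans (mul_le_mul ?_ lg1 lg0 (by positivity))
      exact div_le_div_of_nonneg_left wκ.le (by positivity) (pow_le_pow_left₀ pa'.le ge2 k)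
    have e : (n : ℝ) / 2 * (Ts S n k b - Ts S n k a) =
        n / 2 * Ts S n k b - n / 2 * Ts S n k a := by ring
    rw [e, s1, s2, ← hu1, ← hu2, hadd]
    linarith
  · have p1 := le_partI h hb k
    have p2 := partI_le' h ha k hδ hJa
    have t2' : Wt k (κ + x) / b ^ k * (n * Real.log (b / a) - δ) ≤
        tl S n k b (Real.sqrt u2) (Real.sqrt u1) := by
      refine le_trans ?_ t2
      refine (mul_le_mul_of_nonneg_left lg2 (by positivity)).trans ?_
      refine mul_le_mul_of_nonneg_right ?_ lg0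
      exact div_le_div_of_nonneg_left wκx.le (by positivity) (pow_le_pow_left₀ pu1.le lu1.le k)
    have tt' : (k + 1) * (x / κ) * tl S n k a 0 (Real.sqrt u2) ≤
        (k + 1) * (x / κ) * (2 * n * Real.sqrt a / (Real.sqrt low * low ^ k)) :=
      mul_le_mul_of_nonneg_left tt (by positivity)
    have e : (n : ℝ) / 2 * (Ts S n k b - Ts S n k a) =
        n / 2 * Ts S n k b - n / 2 * Ts S n k a := by ring
    rw [e, s1, s2, ← hu1, ← hu2, hadd]
    linarith

end Pool.Agent.CritPer.L
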