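import Pool.Agent.CritPer.L.Orbit
import Pool.Agent.CritPer.L.Dep

open Set Filter Topology Polynomial MeasureTheory

namespace Pool.Agent.CritPer.L

variable {S : ℝ[X]} {n : ℕ} {κ : ℝ}

/-- The open region filled by the orbits. -/
def Dom (S : ℝ[X]) (n : ℕ) : Set (ℝ × ℝ) :=
  {z | ∃ a, z.1 ^ 2 < a ∧ z.2 ^ 2 < vs S n a (z.1 ^ 2)}

theorem mem_range_crv (h : Bar S n κ) {b : ℝ} (hb : 0 < b) (z : ℝ × ℝ) :
    z ∈ range (crv S n b) ↔ z.1 ^ 2 ≤ b ^ 2 ∧ z.2 ^ 2 = vs S n (b ^ 2) (z.1 ^ 2) := by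
  constructor
  · rintro ⟨p, rfl⟩
    refine ⟨?_, crv_sq h hb p⟩
    show (b * Real.cos p) ^ 2 ≤ b ^ 2
    rw [mul_pow]
    have := Real.cos_sq_le_one p
    nlinarith [sq_nonneg b]
  · rintro ⟨hx, hy⟩
    have hc1 : -1 ≤ z.1 / b := by
      rw [le_div_iff₀ hb]
      have := abs_le.1 (abs_le_of_sq_le_sq hx hb.le)
      linarith [this.1]
    have hc2 : z.1 / b ≤ 1 := by
      rw [div_le_iff₀ hb]
      have := abs_le.1 (abs_le_of_sq_le_sq hx hb.le)
      linarith [this.2]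
    have hcos : b * Real.cos (Real.arccos (z.1 / b)) = z.1 := by
      rw [Real.cos_arccos hc1 hc2]
      field_simp
    set p0 := Real.arccos (z.1 / b) with hp0
    have hsin : 0 ≤ Real.sin p0 := Real.sin_nonneg_of_nonneg_of_le_pi (Real.arccos_nonneg _)
      (Real.arccos_le_pi _)
    have hW : 0 ≤ Wr S n (b ^ 2) p0 := Real.sqrt_nonneg _
    have hY : 0 ≤ b * Real.sin p0 * Wr S n (b ^ 2) p0 := by positivity
    have hYsq : (b * Real.sin p0 * Wr S n (b ^ 2) p0) ^ 2 = z.2 ^ 2 := by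
      have h1 := crv_sq h hb p0
      have h2 : (crv S n b p0).1 = z.1 := hcos
      rw [h2, ← hy] at h1
      rw [← h1]
      show _ = (-(b * Real.sin p0 * Wr S n (b ^ 2) p0)) ^ 2
      rw [neg_sq]
    rcases le_total 0 z.2 with hz | hz
    · refine ⟨-p0, ?_⟩
      have hWn : Wr S n (b ^ 2) (-p0) = Wr S n (b ^ 2) p0 := by
        unfold Wr
        rw [Real.cos_neg]
      have h3 : b * Real.sin p0 * Wr S n (b ^ 2) p0 = z.2 := by
        exact (sq_eq_sq₀ hY hz).1 hYsq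
      refine Prod.ext ?_ ?_
      · show b * Real.cos (-p0) = z.1
        rw [Real.cos_neg]
        exact hcos
      · show -(b * Real.sin (-p0) * Wr S n (b ^ 2) (-p0)) = z.2
        rw [hWn, Real.sin_neg, ← h3]
        ring
    · refine ⟨p0, ?_⟩
      have h3 : b * Real.sin p0 * Wr S n (b ^ 2) p0 = -z.2 := by
        refine (sq_eq_sq₀ hY (by linarith)).1 ?_
        rw [hYsq, neg_sq]
      refine Prod.ext hcos ?_
      show -(b * Real.sin p0 * Wr S n (b ^ 2) p0) = z.2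
      rw [h3, neg_neg]

theorem isOpen_Dom (h : Bar S n κ) : IsOpen (Dom S n) := by
  have h1 : Dom S n = ⋃ a : ℝ, {z : ℝ × ℝ | z.1 ^ 2 < a ∧ z.2 ^ 2 < vs S n a (z.1 ^ 2)} := by
    ext z
    simp [Dom]
  rw [h1]
  refine isOpen_iUnion fun a => ?_
  rcases le_or_gt a 0 with ha | ha
  · have : {z : ℝ × ℝ | z.1 ^ 2 < a ∧ z.2 ^ 2 < vs S n a (z.1 ^ 2)} = ∅ := by
      ext z
      simp only [mem_ofPred_eq, mem_empty_iff_false, iff_false, not_and]
      intro h2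
      nlinarith [sq_nonneg z.1]
    rw [this]
    exact isOpen_empty
  · have hU : IsOpen {z : ℝ × ℝ | z.1 ^ 2 < a} :=
      isOpen_lt (by fun_prop) continuous_const
    have hc : ContinuousOn (fun z : ℝ × ℝ => vs S n a (z.1 ^ 2) - z.2 ^ 2) {z : ℝ × ℝ | z.1 ^ 2 < a} := by
      refine ContinuousOn.sub ?_ (by fun_prop)
      refine (vs_continuousOn h ha).comp (by fun_prop) ?_
      intro z hz
      exact ⟨sq_nonneg _, le_of_lt hz⟩
    have := hc.isOpen_inter_preimage hU (isOpen_Ioi (a := (0 : ℝ)))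
    convert this using 1
    ext z
    simp

theorem isPreconnected_Dom (h : Bar S n κ) : IsPreconnected (Dom S n) := by
  refine isPreconnected_of_forall (0 : ℝ × ℝ) fun z hz => ?_
  obtain ⟨a, ha1, ha2⟩ := hz
  have ha : 0 < a := lt_of_le_of_lt (sq_nonneg _) ha1
  refine ⟨(fun s : ℝ => ((z.1, s * z.2) : ℝ × ℝ)) '' Icc 0 1 ∪
    (fun s : ℝ => ((s * z.1, 0) : ℝ × ℝ)) '' Icc 0 1, ?_, ?_, ?_, ?_⟩
  · rintro w (⟨s, hs, rfl⟩ | ⟨s, hs, rfl⟩)
    · refine ⟨a, ha1, ?_⟩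
      refine lt_of_le_of_lt ?_ ha2
      show (s * z.2) ^ 2 ≤ z.2 ^ 2
      rw [mul_pow]
      have : s ^ 2 ≤ 1 := by nlinarith [hs.1, hs.2]
      nlinarith [sq_nonneg z.2]
    · have h1 : (s * z.1) ^ 2 ≤ z.1 ^ 2 := by
        rw [mul_pow]
        have : s ^ 2 ≤ 1 := by nlinarith [hs.1, hs.2]
        nlinarith [sq_nonneg z.1]
      refine ⟨a, lt_of_le_of_lt h1 ha1, ?_⟩
      show (0 : ℝ) ^ 2 < vs S n a ((s * z.1) ^ 2)
      rw [zero_pow two_ne_zero]
      exact vs_pos h ha ⟨sq_nonneg _, lt_of_le_of_lt h1 ha1⟩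
  · right
    exact ⟨0, ⟨le_rfl, zero_le_one⟩, by simp⟩
  · left
    exact ⟨1, ⟨zero_le_one, le_rfl⟩, by simp⟩
  · refine IsPreconnected.union (z.1, (0 : ℝ)) ?_ ?_ ?_ ?_
    · exact ⟨0, ⟨le_rfl, zero_le_one⟩, by simp⟩
    · exact ⟨1, ⟨zero_le_one, le_rfl⟩, by simp⟩
    · exact isPreconnected_Icc.image _ (by fun_prop)
    · exact isPreconnected_Icc.image _ (by fun_prop)

theorem zero_mem_Dom (h : Bar S n κ) : (0 : ℝ × ℝ) ∈ Dom S n := by
  refine ⟨1, by simp, ?_⟩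
  have := vs_pos h (a := 1) one_pos (u := 0) ⟨le_rfl, one_pos⟩
  simpa using this

/-- Every point of `Dom` other than the origin lies on exactly one orbit. -/
theorem mem_Dom_iff (h : Bar S n κ) {z : ℝ × ℝ} (hz : z ≠ 0) :
    z ∈ Dom S n ↔ ∃ b, 0 < b ∧ z ∈ range (crv S n b) := by
  constructor
  · rintro ⟨a', h1, h2⟩
    have ha' : 0 < a' := lt_of_le_of_lt (sq_nonneg _) h1
    -- a value of `a` between
    obtain ⟨a1, ha1, hu1, hle1, hv1⟩ : ∃ a1, 0 < a1 ∧ z.1 ^ 2 ≤ a1 ∧ a1 ≤ a' ∧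
        vs S n a1 (z.1 ^ 2) ≤ z.2 ^ 2 := by
      by_cases hx : z.1 = 0
      · have hy : z.2 ≠ 0 := by
          intro hy
          exact hz (Prod.ext hx hy)
        have hy2 : 0 < z.2 ^ 2 := by positivity
        have hκ := h.hκ
        refine ⟨min a' (z.2 ^ 2 / κ), lt_min ha' (by positivity), ?_, min_le_left _ _, ?_⟩
        · rw [hx]
          simp only [ne_eq, OfNat.ofNat_ne_zero, not_false_eq_true, zero_pow]
          exact (lt_min ha' (by positivity)).le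
        · have hm : 0 < min a' (z.2 ^ 2 / κ) := lt_min ha' (by positivity)
          have h3 : vs S n (min a' (z.2 ^ 2 / κ)) (z.1 ^ 2) ≤ κ * min a' (z.2 ^ 2 / κ) := by
            refine vs_le h hm ⟨sq_nonneg _, ?_⟩
            rw [hx]
            simpa using hm.le
          refine h3.trans ?_
          calc κ * min a' (z.2 ^ 2 / κ) ≤ κ * (z.2 ^ 2 / κ) :=
                mul_le_mul_of_nonneg_left (min_le_right _ _) hκ.le
            _ = z.2 ^ 2 := by field_simp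
      · have hx2 : 0 < z.1 ^ 2 := by positivity
        exact ⟨z.1 ^ 2, hx2, le_rfl, h1.le, by rw [vs_self h hx2]; exact sq_nonneg _⟩
    have hc : ContinuousOn (fun a => vs S n a (z.1 ^ 2)) (Icc a1 a') := by
      refine (vs_continuousOn_left h (sq_nonneg z.1)).mono ?_
      intro a ha
      exact ⟨hu1.trans ha.1, lt_of_lt_of_le ha1 ha.1⟩
    obtain ⟨a, ha, hva⟩ := intermediate_value_Icc hle1 hc ⟨hv1, h2.le⟩
    have ha0 : 0 < a := lt_of_lt_of_le ha1 ha.1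
    refine ⟨Real.sqrt a, Real.sqrt_pos.2 ha0, ?_⟩
    rw [mem_range_crv h (Real.sqrt_pos.2 ha0), Real.sq_sqrt ha0.le]
    exact ⟨hu1.trans ha.1, hva.symm⟩
  · rintro ⟨b, hb, hzb⟩
    rw [mem_range_crv h hb] at hzb
    refine ⟨b ^ 2 + 1, by linarith [hzb.1], ?_⟩
    rw [hzb.2]
    exact vs_lt h (by positivity) (by linarith) _ ⟨sq_nonneg _, hzb.1⟩

theorem crv_disjoint (h : Bar S n κ) {b c : ℝ} (hb : 0 < b) (hc : 0 < c) {z : ℝ × ℝ}
    (h1 : z ∈ range (crv S n b)) (h2 : z ∈ range (crv S n c)) : b = c := by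
  rw [mem_range_crv h hb] at h1
  rw [mem_range_crv h hc] at h2
  rcases lt_trichotomy b c with hbc | hbc | hbc
  · exfalso
    have := vs_lt h (a := b ^ 2) (b := c ^ 2) (by positivity) (by nlinarith) _ ⟨sq_nonneg _, h1.1⟩
    rw [← h1.2, ← h2.2] at this
    exact lt_irrefl _ this
  · exact hbc
  · exfalso
    have := vs_lt h (a := c ^ 2) (b := b ^ 2) (by positivity) (by nlinarith) _ ⟨sq_nonneg _, h2.1⟩
    rw [← h1.2, ← h2.2] at this
    exact lt_irrefl _ this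

end Pool.Agent.CritPer.L
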