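import Pool.Agent.CritPer.L.Diff

open Set Filter Topology Polynomial MeasureTheory

namespace Pool.Agent.CritPer.L

theorem tendsto_Wt_atTop (k : ℕ) : Tendsto (fun κ : ℝ => Wt k κ) atTop (𝓝 0) := by
  have h1 : Tendsto (fun κ : ℝ => (Real.sqrt κ)⁻¹) atTop (𝓝 0) :=
    tendsto_inv_atTop_zero.comp Real.tendsto_sqrt_atTop
  refine tendsto_of_tendsto_of_tendsto_of_le_of_le' tendsto_const_nhds h1 ?_ ?_
  · filter_upwards [eventually_gt_atTop 0] with κ hκ
    exact (Wt_pos k hκ).le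
  · filter_upwards [eventually_gt_atTop 0] with κ hκ
    unfold Wt
    rw [one_div]
    have h2 : 0 < Real.sqrt κ := Real.sqrt_pos.2 hκ
    refine inv_anti₀ h2 ?_
    have h3 : (1 : ℝ) ≤ (1 + κ) ^ k := one_le_pow₀ (by linarith)
    nlinarith

theorem continuousAt_Wt (k : ℕ) {κ : ℝ} (hκ : 0 < κ) : ContinuousAt (Wt k) κ := by
  unfold Wt
  have h2 : 0 < Real.sqrt κ := Real.sqrt_pos.2 hκ
  have h3 : (Real.sqrt κ) * (1 + κ) ^ k ≠ 0 := by positivity
  exact ContinuousAt.div continuousAt_const (by fun_prop) h3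

theorem JJ_nonneg {Q : ℝ[X]} {q0 : ℝ} (hQ : Coer Q q0) {E : ℝ} (hE : 0 < E) : 0 ≤ JJ Q E := by
  unfold JJ
  refine integral_nonneg fun z => ?_
  have h1 : 0 ≤ Q.eval z := le_trans (mul_nonneg hQ.1.le (by positivity)) (hQ.2 z)
  change 0 ≤ 1 / (1 + E * Q.eval z)
  positivity

theorem exp_div_pow (l : ℝ) {n : ℕ} (hn : 1 ≤ n) : Real.exp (l / n) ^ n = Real.exp l := by
  have h1 : (n : ℝ) ≠ 0 := by
    rw [Nat.cast_ne_zero]
    omega
  rw [← Real.exp_nat_mul]
  congr 1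
  field_simp

theorem tendsto_exp_div (l : ℝ) : Tendsto (fun n : ℕ => Real.exp (l / n)) atTop (𝓝 1) := by
  have h1 : Tendsto (fun n : ℕ => l / (n : ℝ)) atTop (𝓝 0) := tendsto_const_div_atTop_nhds_zero_nat l
  have h2 := (Real.continuous_exp.tendsto 0).comp h1
  rw [Real.exp_zero] at h2
  exact h2

/-- The limit `n → ∞`. -/
theorem est {Q : ℝ[X]} {q0 : ℝ} (hQ : Coer Q q0) (k : ℕ) {c : ℝ} (hc : 0 < c) {l l' γ : ℝ}
    (hl : l < l') (hγ : 0 < γ) :
    ∀ᶠ κ : ℝ in atTop, ∀ᶠ n : ℕ in atTop,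
      |n / 2 * (Ts (Sp Q (Wt k κ * 2 ^ k / c) κ n) n k (Real.exp (l' / n)) -
        Ts (Sp Q (Wt k κ * 2 ^ k / c) κ n) n k (Real.exp (l / n))) * (c / Wt k κ) -
        ((JJ Q (Real.exp l') + c * l') - (JJ Q (Real.exp l) + c * l))| ≤ γ := by
  have hA0 := JJ_nonneg hQ (Real.exp_pos l')
  have hB0 := JJ_nonneg hQ (Real.exp_pos l)
  have hδex : ∃ δ : ℝ, 0 < δ ∧ (Real.exp δ - 1) * JJ Q (Real.exp l') + c * δ < γ ∧
      (Real.exp δ - 1) * JJ Q (Real.exp l) + c * δ < γ := by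
    have h1 : ∀ A : ℝ, ∀ᶠ δ in 𝓝[>] (0 : ℝ), (Real.exp δ - 1) * A + c * δ < γ := by
      intro A
      have h2 : Continuous fun δ : ℝ => (Real.exp δ - 1) * A + c * δ := by fun_prop
      have h3 := h2.tendsto 0
      simp only [Real.exp_zero, sub_self, zero_mul, mul_zero, add_zero] at h3
      exact (h3.eventually (gt_mem_nhds hγ)).filter_mono nhdsWithin_le_nhds
    obtain ⟨δ, h4⟩ := ((h1 (JJ Q (Real.exp l'))).and ((h1 (JJ Q (Real.exp l))).and
      self_mem_nhdsWithin)).exists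
    exact ⟨δ, h4.2.2, h4.1, h4.2.1⟩
  obtain ⟨δ, hδ, hδA, hδB⟩ := hδex
  have hη0 : Tendsto (fun κ : ℝ => Wt k κ * 2 ^ k / c) atTop (𝓝 0) := by
    have h1 := ((tendsto_Wt_atTop k).mul_const ((2 : ℝ) ^ k)).div_const c
    rw [zero_mul, zero_div] at h1
    exact h1
  have hηJ : ∀ J : ℝ, ∀ᶠ κ : ℝ in atTop, Wt k κ * 2 ^ k / c * J < δ := by
    intro J
    have h1 := hη0.mul_const J
    rw [zero_mul] at h1
    exact h1.eventually (gt_mem_nhds hδ)
  filter_upwards [eventually_gt_atTop 1, hη0.eventually (gt_mem_nhds one_pos),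
    hηJ (JJ Q (Real.exp l * Real.exp (-δ))), hηJ (JJ Q (Real.exp l' * Real.exp (-δ)))] with
    κ hκ hη1 hJl hJl'
  have hκ0 : 0 < κ := by linarith
  have hW := Wt_pos k hκ0
  have hη : 0 < Wt k κ * 2 ^ k / c := by positivity
  have hk2 : Wt k κ * 2 ^ k / c / 2 ^ k = Wt k κ / c := by
    field_simp
  generalize hηd : Wt k κ * 2 ^ k / c = η at *
  have hηk : η / 2 ^ k = Wt k κ / c := hk2
  have hEl : 0 < Real.exp l * Real.exp (-δ) := by positivity
  have hEl' : 0 < Real.exp l' * Real.exp (-δ) := by positivity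
  -- the limits
  have tWx : Tendsto (fun n : ℕ => Wt k (κ + 1 / (n : ℝ) ^ 2)) atTop (𝓝 (Wt k κ)) := by
    have h1 : Tendsto (fun n : ℕ => κ + 1 / (n : ℝ) ^ 2) atTop (𝓝 κ) := by
      have h2 : Tendsto (fun n : ℕ => 1 / (n : ℝ) ^ 2) atTop (𝓝 0) := by
        have h3 := (tendsto_one_div_atTop_nhds_zero_nat (𝕜 := ℝ)).pow 2
        rw [zero_pow two_ne_zero] at h3
        refine h3.congr fun n => ?_
        rw [one_div_pow]
      have h4 := h2.const_add κ
      rw [add_zero] at h4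
      exact h4
    exact (continuousAt_Wt k hκ0).tendsto.comp h1
  have tpow : ∀ t : ℝ, Tendsto (fun n : ℕ => 1 / Real.exp (t / n) ^ k) atTop (𝓝 1) := by
    intro t
    have h1 := ((tendsto_exp_div t).pow k).inv₀ (by simp)
    rw [one_pow, inv_one] at h1
    refine h1.congr fun n => ?_
    rw [one_div]
  have tpow2 : ∀ t : ℝ, Tendsto (fun n : ℕ => 1 / (Real.exp (t / n) * Real.exp (-δ / n)) ^ k) atTop
      (𝓝 1) := by
    intro t
    have h1 := (((tendsto_exp_div t).mul (tendsto_exp_div (-δ))).pow k).inv₀ (by simp)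
    rw [mul_one, one_pow, inv_one] at h1
    refine h1.congr fun n => ?_
    rw [one_div]
  have tU : Tendsto (fun n : ℕ =>
      (1 / (Real.exp (l' / n) * Real.exp (-δ / n)) ^ k *
        Jw (Sp Q η κ n) k n κ (Real.exp l' * Real.exp (-δ))
      - 1 / Real.exp (l / n) ^ k * Jw (Sp Q η κ n) k n κ (Real.exp l)
      + Wt k κ * (1 / (Real.exp (l / n) * Real.exp (-δ / n)) ^ k) * (l' - l + δ)) * (c / Wt k κ))
      atTop (𝓝 ((1 * (η / 2 ^ k * JJ Q (Real.exp l' * Real.exp (-δ)))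
        - 1 * (η / 2 ^ k * JJ Q (Real.exp l)) + Wt k κ * 1 * (l' - l + δ)) * (c / Wt k κ))) :=
    (((((tpow2 l').mul (lim_Jw hQ hη hη1.le hκ hEl' k)).sub
      ((tpow l).mul (lim_Jw hQ hη hη1.le hκ (Real.exp_pos l) k))).add
      (((tpow2 l).const_mul (Wt k κ)).mul_const _))).mul_const _
  have tE : Tendsto (fun n : ℕ => (k + 1) * ((1 / (n : ℝ) ^ 2) / κ) *
      (2 * n * Real.sqrt (Real.exp (l / n)) / (Real.sqrt (κ / 4) * (κ / 4) ^ k))) atTop (𝓝 0) := by
    have h1 : Tendsto (fun n : ℕ => 1 / (n : ℝ)) atTop (𝓝 0) := tendsto_one_div_atTop_nhds_zero_nat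
    have h2 : Tendsto (fun n : ℕ => Real.sqrt (Real.exp (l / n))) atTop (𝓝 (Real.sqrt 1)) :=
      (Real.continuous_sqrt.tendsto 1).comp (tendsto_exp_div l)
    have h3 := (h1.mul h2).const_mul ((k + 1) / κ * (2 / (Real.sqrt (κ / 4) * (κ / 4) ^ k)))
    rw [zero_mul, mul_zero] at h3
    refine h3.congr' ?_
    filter_upwards [eventually_ge_atTop 1] with n hn
    have h4 : (n : ℝ) ≠ 0 := by
      rw [Nat.cast_ne_zero]
      omega
    field_simp
  have tL : Tendsto (fun n : ℕ =>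
      (1 / Real.exp (l' / n) ^ k * Jw (Sp Q η κ n) k n κ (Real.exp l')
      - 1 / (Real.exp (l / n) * Real.exp (-δ / n)) ^ k *
        Jw (Sp Q η κ n) k n κ (Real.exp l * Real.exp (-δ))
      + Wt k (κ + 1 / (n : ℝ) ^ 2) * (1 / Real.exp (l' / n) ^ k) * (l' - l - δ)
      - (k + 1) * ((1 / (n : ℝ) ^ 2) / κ) *
      (2 * n * Real.sqrt (Real.exp (l / n)) / (Real.sqrt (κ / 4) * (κ / 4) ^ k))) * (c / Wt k κ))
      atTop (𝓝 ((1 * (η / 2 ^ k * JJ Q (Real.exp l'))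
        - 1 * (η / 2 ^ k * JJ Q (Real.exp l * Real.exp (-δ))) + Wt k κ * 1 * (l' - l - δ) - 0) *
          (c / Wt k κ))) :=
    (((((tpow l').mul (lim_Jw hQ hη hη1.le hκ (Real.exp_pos l') k)).sub
      ((tpow2 l).mul (lim_Jw hQ hη hη1.le hκ hEl k))).add
      ((tWx.mul (tpow l')).mul_const _)).sub tE).mul_const _
  have hUlim : (1 * (η / 2 ^ k * JJ Q (Real.exp l' * Real.exp (-δ)))
        - 1 * (η / 2 ^ k * JJ Q (Real.exp l)) + Wt k κ * 1 * (l' - l + δ)) * (c / Wt k κ) <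
      ((JJ Q (Real.exp l') + c * l') - (JJ Q (Real.exp l) + c * l)) + γ := by
    have h1 := JJ_exp hQ (Real.exp_pos l') hδ.le
    rw [hηk]
    have h2 : (1 * (Wt k κ / c * JJ Q (Real.exp l' * Real.exp (-δ)))
        - 1 * (Wt k κ / c * JJ Q (Real.exp l)) + Wt k κ * 1 * (l' - l + δ)) * (c / Wt k κ) =
        JJ Q (Real.exp l' * Real.exp (-δ)) - JJ Q (Real.exp l) + c * (l' - l + δ) := by
      field_simp
    rw [h2]
    nlinarith
  have hLlim : ((JJ Q (Real.exp l') + c * l') - (JJ Q (Real.exp l) + c * l)) - γ <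
      (1 * (η / 2 ^ k * JJ Q (Real.exp l'))
        - 1 * (η / 2 ^ k * JJ Q (Real.exp l * Real.exp (-δ))) + Wt k κ * 1 * (l' - l - δ) - 0) *
          (c / Wt k κ) := by
    have h1 := JJ_exp hQ (Real.exp_pos l) hδ.le
    rw [hηk]
    have h2 : (1 * (Wt k κ / c * JJ Q (Real.exp l'))
        - 1 * (Wt k κ / c * JJ Q (Real.exp l * Real.exp (-δ))) + Wt k κ * 1 * (l' - l - δ) - 0) *
          (c / Wt k κ) =
        JJ Q (Real.exp l') - JJ Q (Real.exp l * Real.exp (-δ)) + c * (l' - l - δ) := by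
      field_simp
      ring
    rw [h2]
    nlinarith
  have eJa := (lim_Jt hQ hη hη1.le hκ hEl).eventually (gt_mem_nhds hJl)
  have eJb := (lim_Jt hQ hη hη1.le hκ hEl').eventually (gt_mem_nhds hJl')
  have e2 := (tendsto_exp_div l).eventually (gt_mem_nhds (show (1 : ℝ) < 2 by norm_num))
  have e3 := ((tendsto_exp_div l).mul (tendsto_exp_div (-δ))).eventually
    (lt_mem_nhds (show (1 / 2 : ℝ) < 1 * 1 by norm_num))
  filter_upwards [eventually_ge_atTop (Q.natDegree + 1), low hQ hη hκ, anti_Sp hQ hη hκ,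
    bar_x hQ hη hκ hEl, eJa, eJb, e2, e3, tU.eventually (gt_mem_nhds hUlim),
    tL.eventually (lt_mem_nhds hLlim)] with n hn hlow hanti hbarx hJa hJb ha2 ha3 hU hL
  have hn1 : 1 ≤ n := by omega
  have hn0 : (0 : ℝ) < n := by
    have : (1 : ℝ) ≤ n := by exact_mod_cast hn1
    linarith
  have hBar := bar_Sp hQ hη hκ hn
  have ha : 0 < Real.exp (l / n) := Real.exp_pos _
  have hab : Real.exp (l / n) < Real.exp (l' / n) := by
    rw [Real.exp_lt_exp]
    exact div_lt_div_of_pos_right hl hn0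
  have han := exp_div_pow l hn1
  have hbn := exp_div_pow l' hn1
  have hJa' : Jt (Sp Q η κ n) n κ (Real.exp (l / n) ^ n * Real.exp (-δ)) < δ := by
    rw [han]
    exact hJa
  have hJb' : Jt (Sp Q η κ n) n κ (Real.exp (l' / n) ^ n * Real.exp (-δ)) < δ := by
    rw [hbn]
    exact hJb
  have huc : 1 / 2 ≤ uc (Sp Q η κ n) n κ (Real.exp (l / n)) := by
    have h1 := uc_time hBar ha hδ hJa'
    have h2 := uc_pos hBar ha
    have h3 : Real.log (Real.exp (l / n) / uc (Sp Q η κ n) n κ (Real.exp (l / n))) ≤ δ / n := by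
      rw [le_div_iff₀ hn0, mul_comm]
      exact h1
    have h4 : Real.exp (l / n) / uc (Sp Q η κ n) n κ (Real.exp (l / n)) ≤ Real.exp (δ / n) := by
      rw [← Real.log_le_iff_le_exp (by positivity)]
      exact h3
    rw [div_le_iff₀ h2] at h4
    have h5 : Real.exp (δ / n) * Real.exp (-δ / n) = 1 := by
      rw [← Real.exp_add]
      rw [show δ / (n : ℝ) + -δ / n = 0 by ring, Real.exp_zero]
    have h6 : 0 < Real.exp (-δ / n) := Real.exp_pos _
    have h7 : Real.exp (l / n) * Real.exp (-δ / n) ≤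
        uc (Sp Q η κ n) n κ (Real.exp (l / n)) := by
      calc Real.exp (l / n) * Real.exp (-δ / n) ≤ (Real.exp (δ / n) *
            uc (Sp Q η κ n) n κ (Real.exp (l / n))) * Real.exp (-δ / n) :=
            mul_le_mul_of_nonneg_right h4 h6.le
        _ = (Real.exp (δ / n) * Real.exp (-δ / n)) *
            uc (Sp Q η κ n) n κ (Real.exp (l / n)) := by ring
        _ = _ := by rw [h5, one_mul]
    exact ha3.le.trans h7
  have hx : (0 : ℝ) < 1 / (n : ℝ) ^ 2 := by positivity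
  have hlow' := hlow (Real.exp (l / n)) ha ha2.le huc
  have hbar' : κ + 1 / (n : ℝ) ^ 2 < Real.exp (l / n) ^ n * Real.exp (-δ) *
      -(Sp Q η κ n).eval (κ + 1 / (n : ℝ) ^ 2) := by
    rw [han]
    exact hbarx
  obtain ⟨d1, d2⟩ := diff_bounds hBar hanti k ha hab hδ hx (show (0 : ℝ) < κ / 4 by positivity)
    hJa' hJb' hbar' hlow'
  have hlog : (n : ℝ) * Real.log (Real.exp (l' / n) / Real.exp (l / n)) = l' - l := by
    rw [← Real.exp_sub, Real.log_exp]
    field_simp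
  rw [hlog, han, hbn] at d1 d2
  have hcW : 0 < c / Wt k κ := by positivity
  rw [abs_le]
  constructor
  · have h1 := mul_le_mul_of_nonneg_right d2 hcW.le
    have h2 : (1 / Real.exp (l' / n) ^ k * Jw (Sp Q η κ n) k n κ (Real.exp l')
      - 1 / (Real.exp (l / n) * Real.exp (-δ / n)) ^ k *
        Jw (Sp Q η κ n) k n κ (Real.exp l * Real.exp (-δ))
      + Wt k (κ + 1 / (n : ℝ) ^ 2) / Real.exp (l' / n) ^ k * (l' - l - δ)
      - (k + 1) * ((1 / (n : ℝ) ^ 2) / κ) *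
      (2 * n * Real.sqrt (Real.exp (l / n)) / (Real.sqrt (κ / 4) * (κ / 4) ^ k))) * (c / Wt k κ) =
      (1 / Real.exp (l' / n) ^ k * Jw (Sp Q η κ n) k n κ (Real.exp l')
      - 1 / (Real.exp (l / n) * Real.exp (-δ / n)) ^ k *
        Jw (Sp Q η κ n) k n κ (Real.exp l * Real.exp (-δ))
      + Wt k (κ + 1 / (n : ℝ) ^ 2) * (1 / Real.exp (l' / n) ^ k) * (l' - l - δ)
      - (k + 1) * ((1 / (n : ℝ) ^ 2) / κ) *
      (2 * n * Real.sqrt (Real.exp (l / n)) / (Real.sqrt (κ / 4) * (κ / 4) ^ k))) *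
        (c / Wt k κ) := by
      ring
    rw [h2] at h1
    linarith
  · have h1 := mul_le_mul_of_nonneg_right d1 hcW.le
    have h2 : (1 / (Real.exp (l' / n) * Real.exp (-δ / n)) ^ k *
        Jw (Sp Q η κ n) k n κ (Real.exp l' * Real.exp (-δ))
      - 1 / Real.exp (l / n) ^ k * Jw (Sp Q η κ n) k n κ (Real.exp l)
      + Wt k κ / (Real.exp (l / n) * Real.exp (-δ / n)) ^ k * (l' - l + δ)) * (c / Wt k κ) =
      (1 / (Real.exp (l' / n) * Real.exp (-δ / n)) ^ k *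
        Jw (Sp Q η κ n) k n κ (Real.exp l' * Real.exp (-δ))
      - 1 / Real.exp (l / n) ^ k * Jw (Sp Q η κ n) k n κ (Real.exp l)
      + Wt k κ * (1 / (Real.exp (l / n) * Real.exp (-δ / n)) ^ k) * (l' - l + δ)) *
        (c / Wt k κ) := by
      ring
    rw [h2] at h1
    linarith

end Pool.Agent.CritPer.L
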