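import Pool.Agent.CritPer.L.Defs

open Set Filter Topology Polynomial MeasureTheory

namespace Pool.Agent.CritPer.L

/-- clamping to `[0,c]` -/
private noncomputable def clp (c v : ℝ) : ℝ := max 0 (min v c)

private theorem clp_mem {c : ℝ} (hc : 0 ≤ c) (v : ℝ) : clp c v ∈ Icc 0 c :=
  ⟨le_max_left _ _, max_le hc (min_le_right _ _)⟩

private theorem clp_eq {c v : ℝ} (hv : v ∈ Icc 0 c) : clp c v = v := by
  unfold clp
  rw [min_eq_left hv.2, max_eq_right hv.1]

private theorem clp_lip (c : ℝ) : LipschitzWith 1 (clp c) :=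
  (LipschitzWith.id.min_const c).const_max 0

private theorem hasDeriv_qf (S : ℝ[X]) (n : ℕ) (u v : ℝ) :
    HasDerivAt (fun v => qf S n u v)
      (∑ j ∈ Finset.range (n + 1), S.coeff j * u ^ (n - j) * (j * v ^ (j - 1))) v := by
  unfold qf
  apply HasDerivAt.fun_sum
  intro j _
  exact (hasDerivAt_pow j v).const_mul _

private theorem qf_lip (S : ℝ[X]) (n : ℕ) (a c : ℝ) :
    ∃ K : NNReal, ∀ u ∈ Icc 0 a, LipschitzOnWith K (fun v => qf S n u v) (Icc 0 c) := by
  have hcont : Continuous (fun z : ℝ × ℝ =>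
      ∑ j ∈ Finset.range (n + 1), S.coeff j * z.1 ^ (n - j) * (j * z.2 ^ (j - 1))) := by
    fun_prop
  obtain ⟨C, hC⟩ := (isCompact_Icc.prod isCompact_Icc :
    IsCompact (Icc (0 : ℝ) a ×ˢ Icc (0 : ℝ) c)).exists_bound_of_continuousOn hcont.continuousOn
  refine ⟨C.toNNReal, fun u hu => ?_⟩
  refine Convex.lipschitzOnWith_of_nnnorm_deriv_le
    (fun v _ => (hasDeriv_qf S n u v).differentiableAt) (fun v hv => ?_) (convex_Icc 0 c)
  rw [(hasDeriv_qf S n u v).deriv, ← NNReal.coe_le_coe, coe_nnnorm]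
  exact (hC (u, v) ⟨hu, hv⟩).trans (Real.le_coe_toNNReal C)

/-- first crossing argument -/
private theorem ge_of_cross {v d : ℝ → ℝ} {a m : ℝ} (hc : ContinuousOn v (Icc 0 a))
    (hd : ∀ u ∈ Ioo 0 a, HasDerivAt v (d u) u) (hm : m ≤ v a)
    (hs : ∀ u ∈ Ioo 0 a, v u < m → d u ≤ 0) : ∀ u ∈ Icc 0 a, m ≤ v u := by
  intro u1 hu1
  by_contra hlt
  push Not at hlt
  have hc1 : ContinuousOn v (Icc u1 a) := hc.mono (Icc_subset_Icc hu1.1 le_rfl)
  set T : Set ℝ := Icc u1 a ∩ v ⁻¹' (Ici m) with hT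
  have hTc : IsClosed T := hc1.preimage_isClosed_of_isClosed isClosed_Icc isClosed_Ici
  have haT : a ∈ T := ⟨⟨hu1.2, le_rfl⟩, hm⟩
  have hbd : BddBelow T := ⟨u1, fun x hx => hx.1.1⟩
  have h2 : sInf T ∈ T := hTc.csInf_mem ⟨a, haT⟩ hbd
  set u2 := sInf T with hu2
  have hlow : ∀ u ∈ Ioo u1 u2, v u < m := by
    intro u hu
    by_contra hge
    push Not at hge
    have : u ∈ T := ⟨⟨hu.1.le, hu.2.le.trans h2.1.2⟩, hge⟩
    exact absurd (csInf_le hbd this) (not_le.2 hu.2)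
  have hanti : AntitoneOn v (Icc u1 u2) := by
    refine antitoneOn_of_deriv_nonpos (convex_Icc u1 u2)
      (hc1.mono (Icc_subset_Icc le_rfl h2.1.2)) ?_ ?_
    · rw [interior_Icc]
      intro u hu
      have hu' : u ∈ Ioo 0 a := ⟨lt_of_le_of_lt hu1.1 hu.1, lt_of_lt_of_le hu.2 h2.1.2⟩
      exact (hd u hu').differentiableAt.differentiableWithinAt
    · rw [interior_Icc]
      intro u hu
      have hu' : u ∈ Ioo 0 a := ⟨lt_of_le_of_lt hu1.1 hu.1, lt_of_lt_of_le hu.2 h2.1.2⟩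
      rw [(hd u hu').deriv]
      exact hs u hu' (hlow u hu)
  have := hanti ⟨le_rfl, h2.1.1⟩ ⟨h2.1.1, le_rfl⟩ h2.1.1
  exact absurd (lt_of_le_of_lt this hlt) (not_lt.2 h2.2)

/-- Existence on `[0,a]` (Picard-Lindelof for the field clamped to `0 ≤ v ≤ κ a`). -/
theorem exists_isV {S : ℝ[X]} {n : ℕ} {κ : ℝ} (h : Bar S n κ) {a : ℝ} (ha : 0 < a) :
    ∃ v, IsV S n a v := by
  have hc : 0 < κ * a := mul_pos h.hκ ha
  set c := κ * a with hcdef
  obtain ⟨K, hK⟩ := qf_lip S n a c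
  obtain ⟨C, hC⟩ := (isCompact_Icc.prod isCompact_Icc :
    IsCompact (Icc (0 : ℝ) a ×ˢ Icc (0 : ℝ) c)).exists_bound_of_continuousOn
      (continuous_qf S n).continuousOn
  have hC0 : 0 ≤ C := (norm_nonneg _).trans (hC (0, 0) ⟨⟨le_rfl, ha.le⟩, ⟨le_rfl, hc.le⟩⟩)
  have hPL : IsPicardLindelof (fun u v => -(qf S n u (clp c v))) (tmin := 0) (tmax := a)
      ⟨a, ha.le, le_rfl⟩ 0 (C * a).toNNReal 0 C.toNNReal K := by
    refine ⟨fun u hu => ?_, fun v _ => ?_, fun u hu v _ => ?_, ?_⟩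
    · have h1 := (hK u hu).comp ((clp_lip c).lipschitzOnWith
        (s := Metric.closedBall 0 ((C * a).toNNReal : ℝ)))
        (fun v _ => clp_mem hc.le v)
      rw [mul_one] at h1
      exact h1.neg
    · have : Continuous (fun u => -(qf S n u (clp c v))) :=
        ((continuous_qf S n).comp (continuous_id.prodMk continuous_const)).neg
      exact this.continuousOn
    · rw [norm_neg]
      exact (hC (u, clp c v) ⟨hu, clp_mem hc.le v⟩).trans (Real.le_coe_toNNReal C)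
    · rw [Real.coe_toNNReal _ hC0, Real.coe_toNNReal _ (mul_nonneg hC0 ha.le)]
      simp [ha.le]
  obtain ⟨v, hv0, hv⟩ := hPL.exists_eq_forall_mem_Icc_hasDerivWithinAt₀
  have hcont : ContinuousOn v (Icc 0 a) := fun u hu => (hv u hu).continuousWithinAt
  have hder : ∀ u ∈ Ioo 0 a, HasDerivAt v (-(qf S n u (clp c (v u)))) u := fun u hu =>
    (hv u ⟨hu.1.le, hu.2.le⟩).hasDerivAt (Icc_mem_nhds hu.1 hu.2)
  have hv0' : v a = 0 := hv0
  have hlow : ∀ u ∈ Icc 0 a, 0 ≤ v u := by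
    refine ge_of_cross hcont hder hv0'.ge (fun u hu hlt => ?_)
    have h1 : clp c (v u) = 0 := by
      unfold clp
      exact max_eq_left ((min_le_left _ _).trans hlt.le)
    rw [h1, qf_zero, neg_nonpos]
    have h2 := h.pos 0 le_rfl h.hκ
    rw [← Polynomial.coeff_zero_eq_eval_zero] at h2
    exact mul_nonneg h2.le (pow_nonneg hu.1.le _)
  have hup : ∀ u ∈ Icc 0 a, v u ≤ c := by
    have h1 := ge_of_cross (v := fun u => -v u) (m := -c) hcont.neg
      (fun u hu => (hder u hu).neg) (by simp [hv0', hc.le]) (fun u hu hlt => ?_)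
    · intro u hu
      have := h1 u hu
      linarith
    · have hlt' : c < v u := by linarith
      have h2 : clp c (v u) = c := by
        unfold clp
        rw [min_eq_right hlt'.le, max_eq_right hc.le]
      rw [h2, neg_neg, qf_eq h.deg hu.1.ne']
      have h3 : κ < c / u := by
        rw [lt_div_iff₀ hu.1, hcdef]
        exact mul_lt_mul_of_pos_left hu.2 h.hκ
      exact mul_nonpos_of_nonneg_of_nonpos (pow_nonneg hu.1.le _) (h.neg _ h3).le
  refine ⟨v, hv0', fun u hu => ?_⟩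
  have h1 := hv u hu
  rwa [clp_eq ⟨hlow u hu, hup u hu⟩] at h1

end Pool.Agent.CritPer.L
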