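import Pool.Agent.CritPer.L.Weier

open Set Filter Topology Polynomial MeasureTheory

namespace Pool.Agent.CritPer.L

namespace StairAux

/-- The logistic step. -/
noncomputable def s (t : ℝ) : ℝ := 1 / (1 + Real.exp t)

theorem s_pos (t : ℝ) : 0 < s t := by unfold s; positivity

theorem s_le_one (t : ℝ) : s t ≤ 1 := by
  unfold s
  rw [div_le_one (by positivity)]
  linarith [Real.exp_pos t]

theorem s_anti {a b : ℝ} (h : a ≤ b) : s b ≤ s a := by
  unfold s
  have := Real.exp_le_exp.2 h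
  exact one_div_le_one_div_of_le (by positivity) (by linarith)

theorem s_gap : s 2 + 1 / 2 < s (-2) := by
  unfold s
  have h3 : 3 < Real.exp 2 := by
    have := Real.add_one_lt_exp (x := 2) (by norm_num)
    linarith
  rw [Real.exp_neg]
  set e := Real.exp 2
  have he : 0 < e := by linarith
  have h1 : 1 / (1 + e⁻¹) = e / (1 + e) := by
    field_simp
    ring
  rw [h1, div_add_div _ _ (by positivity) (by norm_num), div_lt_div_iff₀ (by positivity)
    (by positivity)]
  nlinarith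

/-- The limit function (without the linear part). -/
noncomputable def G (N : ℕ) (x : ℝ) : ℝ := ∑ j ∈ Finset.range N, s (x - 16 * ((j : ℝ) + 1))

theorem G_down {N i : ℕ} (hi : i < N) :
    G N (16 * ((i : ℝ) + 1) + 2) + 1 / 2 < G N (16 * ((i : ℝ) + 1) - 2) := by
  unfold G
  rw [← Finset.add_sum_erase _ _ (Finset.mem_range.2 hi),
    ← Finset.add_sum_erase (Finset.range N) (fun j : ℕ => s (16 * ((i : ℝ) + 1) - 2 -
      16 * ((j : ℝ) + 1))) (Finset.mem_range.2 hi)]
  have h1 : ∑ j ∈ (Finset.range N).erase i, s (16 * ((i : ℝ) + 1) + 2 - 16 * ((j : ℝ) + 1)) ≤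
      ∑ j ∈ (Finset.range N).erase i, s (16 * ((i : ℝ) + 1) - 2 - 16 * ((j : ℝ) + 1)) :=
    Finset.sum_le_sum fun j _ => s_anti (by linarith)
  have h2 : 16 * ((i : ℝ) + 1) + 2 - 16 * ((i : ℝ) + 1) = 2 := by ring
  have h3 : 16 * ((i : ℝ) + 1) - 2 - 16 * ((i : ℝ) + 1) = -2 := by ring
  simp only [h2, h3]
  have := s_gap
  linarith

theorem G_up (N i : ℕ) :
    G N (16 * ((i : ℝ) + 1) + 2) - 1 ≤ G N (16 * ((i : ℝ) + 2) - 2) := by
  rcases N with _ | M
  · simp [G]
  unfold G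
  rw [Finset.sum_range_succ, Finset.sum_range_succ' (fun j : ℕ => s (16 * ((i : ℝ) + 2) - 2 -
      16 * ((j : ℝ) + 1)))]
  have h1 : ∑ j ∈ Finset.range M, s (16 * ((i : ℝ) + 1) + 2 - 16 * ((j : ℝ) + 1)) ≤
      ∑ j ∈ Finset.range M, s (16 * ((i : ℝ) + 2) - 2 - 16 * (((j + 1 : ℕ) : ℝ) + 1)) := by
    refine Finset.sum_le_sum fun j _ => s_anti ?_
    push_cast
    linarith
  have h2 := s_le_one (16 * ((i : ℝ) + 1) + 2 - 16 * ((M : ℝ) + 1))
  have h3 := s_pos (16 * ((i : ℝ) + 2) - 2 - 16 * (((0 : ℕ) : ℝ) + 1))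
  linarith

end StairAux

open StairAux in
/-- `J(e^l) + c l` can oscillate as often as we like. -/
theorem stair (N : ℕ) : ∃ (Q : ℝ[X]) (q0 : ℝ), Coer Q q0 ∧ ∃ c : ℝ, 0 < c ∧ ∃ l : ℕ → ℝ,
    StrictMono l ∧ ∀ i < 2 * N, 0 < (-1 : ℝ) ^ (i + 1) *
      ((JJ Q (Real.exp (l (i + 1))) + c * l (i + 1)) - (JJ Q (Real.exp (l i)) + c * l i)) := by
  obtain ⟨Q, q0, hQ, hlim⟩ := exists_approx N (fun j => Real.exp (-(16 * ((j : ℝ) + 1))))
    (fun j => Real.exp_pos _)
  set l : ℕ → ℝ := fun i => 8 * (i : ℝ) + 12 + 2 * (-1 : ℝ) ^ i with hl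
  have hlimG : ∀ x : ℝ, Tendsto (fun r => JJ (Q r) (Real.exp x)) atTop (𝓝 (G N x)) := by
    intro x
    have h := hlim (Real.exp x) (Real.exp_pos x)
    have heq : (∑ j ∈ Finset.range N, 1 / (1 + Real.exp x * Real.exp (-(16 * ((j : ℝ) + 1))))) =
        G N x := by
      unfold G s
      refine Finset.sum_congr rfl fun j _ => ?_
      rw [← Real.exp_add, sub_eq_add_neg]
    rwa [heq] at h
  have hstep : ∀ i ∈ Finset.range (2 * N), ∀ᶠ r in atTop, 0 < (-1 : ℝ) ^ (i + 1) *
      ((JJ (Q r) (Real.exp (l (i + 1))) + 1 / 8 * l (i + 1)) -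
        (JJ (Q r) (Real.exp (l i)) + 1 / 8 * l i)) := by
    intro i hi
    have hi' := Finset.mem_range.1 hi
    have hT : Tendsto (fun r => (-1 : ℝ) ^ (i + 1) *
      ((JJ (Q r) (Real.exp (l (i + 1))) + 1 / 8 * l (i + 1)) -
        (JJ (Q r) (Real.exp (l i)) + 1 / 8 * l i))) atTop (𝓝 ((-1 : ℝ) ^ (i + 1) *
      ((G N (l (i + 1)) + 1 / 8 * l (i + 1)) - (G N (l i) + 1 / 8 * l i)))) :=
      (((hlimG _).add_const _).sub ((hlimG _).add_const _)).const_mul _
    refine hT.eventually (lt_mem_nhds ?_)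
    rcases Nat.even_or_odd' i with ⟨m, rfl | rfl⟩
    · have hm : m < N := by omega
      have e1 : l (2 * m + 1) = 16 * ((m : ℝ) + 1) + 2 := by
        simp only [hl]
        push_cast
        rw [pow_succ, pow_mul]
        norm_num
        ring
      have e0 : l (2 * m) = 16 * ((m : ℝ) + 1) - 2 := by
        simp only [hl]
        push_cast
        rw [pow_mul]
        norm_num
        ring
      have h := G_down hm
      have hs : (-1 : ℝ) ^ (2 * m + 1) = -1 := by rw [pow_succ, pow_mul]; norm_num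
      rw [e0, e1, hs]
      linarith
    · have e1 : l (2 * m + 1) = 16 * ((m : ℝ) + 1) + 2 := by
        simp only [hl]
        push_cast
        rw [pow_succ, pow_mul]
        norm_num
        ring
      have e0 : l (2 * m + 1 + 1) = 16 * ((m : ℝ) + 2) - 2 := by
        simp only [hl]
        push_cast
        rw [pow_succ, pow_succ, pow_mul]
        norm_num
        ring
      have h := G_up N m
      have hs : (-1 : ℝ) ^ (2 * m + 1 + 1) = 1 := by rw [pow_succ, pow_succ, pow_mul]; norm_num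
      rw [e0, e1, hs]
      linarith
  obtain ⟨r, hr⟩ := ((Finset.range (2 * N)).eventually_all.2 hstep).exists
  refine ⟨Q r, q0, hQ r, 1 / 8, by norm_num, l, ?_, fun i hi => hr i (Finset.mem_range.2 hi)⟩
  refine strictMono_nat_of_lt_succ fun i => ?_
  simp only [hl]
  push_cast
  rw [pow_succ]
  rcases neg_one_pow_eq_or ℝ i with h | h <;> rw [h] <;> linarith

end Pool.Agent.CritPer.L
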