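import Pool.Agent.CritPer.L.Est
import Pool.Agent.CritPer.L.Stair
import Pool.Agent.CritPer.L.Center
import Pool.Agent.CritPer.L.Per
import Pool.Agent.CritPer.Count

open Set Filter Topology Polynomial MeasureTheory

namespace Pool.Agent.CritPer.L

theorem exists_system (k N : ℕ) : ∃ n0 : ℕ, ∀ n ≥ n0, ∃ (S : ℝ[X]) (κ : ℝ), Bar S n κ ∧
    ∃ d : ℕ → ℝ, 0 < d 0 ∧ (∀ i < 2 * N, d i < d (i + 1)) ∧
      ∀ i < 2 * N, 0 < (-1 : ℝ) ^ (i + 1) * (Ts S n k (d (i + 1) ^ 2) - Ts S n k (d i ^ 2)) := by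
  obtain ⟨Q, q0, hQ, c, hc, l, hl, halt⟩ := stair N
  set Δ : ℕ → ℝ := fun i => (JJ Q (Real.exp (l (i + 1))) + c * l (i + 1)) -
    (JJ Q (Real.exp (l i)) + c * l i) with hΔ
  have hΔne : ∀ i < 2 * N, 0 < |Δ i| := by
    intro i hi
    have := halt i hi
    rw [abs_pos]
    intro h0
    rw [show (JJ Q (Real.exp (l (i + 1))) + c * l (i + 1)) -
      (JJ Q (Real.exp (l i)) + c * l i) = Δ i from rfl, h0, mul_zero] at this
    exact lt_irrefl _ this
  have h1 : ∀ i ∈ Finset.range (2 * N), ∀ᶠ κ : ℝ in atTop, ∀ᶠ n : ℕ in atTop,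
      |n / 2 * (Ts (Sp Q (Wt k κ * 2 ^ k / c) κ n) n k (Real.exp (l (i + 1) / n)) -
        Ts (Sp Q (Wt k κ * 2 ^ k / c) κ n) n k (Real.exp (l i / n))) * (c / Wt k κ) - Δ i| ≤
        |Δ i| / 2 := by
    intro i hi
    exact est hQ k hc (hl (Nat.lt_succ_self i)) (half_pos (hΔne i (Finset.mem_range.1 hi)))
  have h2 := (eventually_all_finset (Finset.range (2 * N))).2 h1
  obtain ⟨κ, hκ, hκ1⟩ := (h2.and (eventually_gt_atTop (1 : ℝ))).exists
  have h3 := (eventually_all_finset (Finset.range (2 * N))).2 hκ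
  obtain ⟨n0, hn0⟩ := eventually_atTop.1 (h3.and (eventually_ge_atTop (Q.natDegree + 1)))
  refine ⟨n0, fun n hn => ?_⟩
  obtain ⟨hn1, hn2⟩ := hn0 n hn
  have hW : 0 < Wt k κ := by
    unfold Wt
    have : 0 < κ := by linarith
    positivity
  have hη : 0 < Wt k κ * 2 ^ k / c := by positivity
  have hnpos : (0 : ℝ) < n := by
    have : 0 < n := by omega
    exact_mod_cast this
  refine ⟨Sp Q (Wt k κ * 2 ^ k / c) κ n, κ, bar_Sp hQ hη hκ1 hn2,
    fun i => Real.exp (l i / (2 * n)), Real.exp_pos _, fun i _ => ?_, fun i hi => ?_⟩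
  · apply Real.exp_lt_exp.2
    have := hl (Nat.lt_succ_self i)
    exact div_lt_div_of_pos_right this (by positivity)
  · have hsq : ∀ j, Real.exp (l j / (2 * n)) ^ 2 = Real.exp (l j / n) := by
      intro j
      rw [← Real.exp_nat_mul]
      congr 1
      push_cast
      field_simp
    simp only [hsq]
    have h4 := hn1 i (Finset.mem_range.2 hi)
    have h5 := halt i hi
    rw [show (JJ Q (Real.exp (l (i + 1))) + c * l (i + 1)) -
      (JJ Q (Real.exp (l i)) + c * l i) = Δ i from rfl] at h5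
    set D := Ts (Sp Q (Wt k κ * 2 ^ k / c) κ n) n k (Real.exp (l (i + 1) / n)) -
        Ts (Sp Q (Wt k κ * 2 ^ k / c) κ n) n k (Real.exp (l i / n)) with hD
    have hcW : 0 < (n : ℝ) / 2 * (c / Wt k κ) := by positivity
    have h6 : |(n : ℝ) / 2 * (c / Wt k κ) * D - Δ i| ≤ |Δ i| / 2 := by
      rw [show (n : ℝ) / 2 * (c / Wt k κ) * D = n / 2 * D * (c / Wt k κ) by ring]
      exact h4
    have key : 0 < (-1 : ℝ) ^ (i + 1) * ((n : ℝ) / 2 * (c / Wt k κ) * D) := by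
      rcases neg_one_pow_eq_or ℝ (i + 1) with e | e
      · rw [e] at h5 ⊢
        have h7 : 0 < Δ i := by linarith
        rw [abs_of_pos h7] at h6
        have := (abs_le.1 h6).1
        linarith
      · rw [e] at h5 ⊢
        have h7 : Δ i < 0 := by linarith
        rw [abs_of_neg h7] at h6
        have := (abs_le.1 h6).2
        linarith
    have h8 : (-1 : ℝ) ^ (i + 1) * ((n : ℝ) / 2 * (c / Wt k κ) * D) =
        ((n : ℝ) / 2 * (c / Wt k κ)) * ((-1 : ℝ) ^ (i + 1) * D) := by ring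
    rw [h8] at key
    exact (mul_pos_iff_of_pos_left hcW).1 key

theorem final (k N : ℕ) : ∃ l0 : ℕ, ∀ l ≥ l0, ((2 * N - 1 : ℕ) : ℕ∞) ≤ Nkl k l := by
  rcases Nat.eq_zero_or_pos N with hN | hN
  · subst hN
    exact ⟨0, fun l _ => by simp⟩
  obtain ⟨n0, hn0⟩ := exists_system k N
  refine ⟨k + n0, fun l hl => ?_⟩
  obtain ⟨S, κ, h, d, hd0, hd1, hd2⟩ := hn0 (l - k) (by omega)
  set n := l - k with hn
  have hlk : l = k + n := by omega
  set T : ℝ → ℝ := fun b => Ts S n k (b ^ 2) with hT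
  have hTan : ∀ b, 0 < b → AnalyticAt ℝ T b := by
    intro b hb
    have h1 : AnalyticAt ℝ (Ts S n k) ((fun b : ℝ => b ^ 2) b) :=
      analyticAt_Ts h (pow_pos hb 2) k
    have h2 : AnalyticAt ℝ (fun b : ℝ => b ^ 2) b := analyticAt_id.pow 2
    exact AnalyticAt.comp (g := Ts S n k) (f := fun b : ℝ => b ^ 2) h1 h2
  have hcount := le_encard hTan (M := 2 * N) (by omega) hd0 hd1 hd2
  refine hcount.trans ?_
  refine le_sSup_of_le ⟨PL k, QL S n k, homog_PL k, ?_, isCenter_L h k, Ioi 0,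
    fun b => (b, 0), isParam_L h k, rfl⟩ ?_
  · rw [hlk]
    exact homog_QL S n k
  · apply Set.encard_le_encard
    have heq : ∀ s, 0 < s → (fun r => minPeriod (vf (PL k) (QL S n k)) (r, 0)) =ᶠ[𝓝 s] T := by
      intro s hs
      filter_upwards [Ioi_mem_nhds hs] with r hr
      exact minPeriod_L h k hr
    rintro s ⟨hs, hds, hiso⟩
    refine ⟨hs, ?_, ?_⟩
    · rw [(heq s hs).deriv_eq]
      exact hds
    · have h5 : ∀ᶠ r in 𝓝[≠] s, 0 < r := nhdsWithin_le_nhds (Ioi_mem_nhds hs)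
      filter_upwards [hiso, h5] with r hr hr0
      rw [(heq r hr0).deriv_eq]
      exact hr

end Pool.Agent.CritPer.L
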