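import Pool.Agent.CritPer.L.Wf
import Pool.Agent.CritPer.Flow

open Set Filter Topology Polynomial MeasureTheory

namespace Pool.Agent.CritPer.L

variable {S : ℝ[X]} {n : ℕ} {κ : ℝ}

/-! ### Auxiliary lemmas -/

theorem orb_deriv_of_sq {Y G : ℝ → ℝ} {G' p : ℝ} (hY : ContinuousAt Y p)
    (hsq : ∀ x, Y x ^ 2 = G x) (hG : HasDerivAt G G' p) (h0 : Y p ≠ 0) :
    HasDerivAt Y (G' / (2 * Y p)) p := by
  rw [hasDerivAt_iff_tendsto_slope] at hG ⊢
  have h1 : Tendsto (fun x => Y x + Y p) (𝓝[≠] p) (𝓝 (Y p + Y p)) :=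
    (hY.tendsto.mono_left nhdsWithin_le_nhds).add_const _
  have h2 : Y p + Y p ≠ 0 := by rw [← two_mul]; exact mul_ne_zero two_ne_zero h0
  have h3 := hG.div h1 h2
  rw [← two_mul] at h3
  refine h3.congr' ?_
  filter_upwards [h1.eventually_ne h2] with x hx
  have hx' : Y x + Y p ≠ 0 := hx
  show slope G p x / (Y x + Y p) = slope Y p x
  rw [slope_def_field, slope_def_field, ← hsq, ← hsq]
  rw [div_eq_iff hx']
  ring

theorem orb_deriv_mul_zero {g h : ℝ → ℝ} {g' p : ℝ} (hg : HasDerivAt g g' p) (h0 : g p = 0)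
    (hh : ContinuousAt h p) : HasDerivAt (fun x => g x * h x) (g' * h p) p := by
  rw [hasDerivAt_iff_tendsto_slope] at hg ⊢
  have h1 := hg.mul (hh.tendsto.mono_left (nhdsWithin_le_nhds (s := {p}ᶜ)))
  refine h1.congr fun x => ?_
  show slope g p x * h x = slope (fun x => g x * h x) p x
  rw [slope_def_field, slope_def_field]
  simp only [h0]
  ring

theorem orb_contDiff_eval (P : MvPolynomial (Fin 2) ℝ) {m : WithTop ℕ∞} :
    ContDiff ℝ m (fun z : ℝ × ℝ => MvPolynomial.eval ![z.1, z.2] P) := by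
  induction P using MvPolynomial.induction_on with
  | C a => simp only [MvPolynomial.eval_C]; exact contDiff_const
  | add p q hp hq => simp only [map_add]; exact hp.add hq
  | mul_X p i hp =>
    simp only [map_mul, MvPolynomial.eval_X]
    refine hp.mul ?_
    fin_cases i
    · exact contDiff_fst
    · exact contDiff_snd

/-! ### The system -/

theorem vf_L (S : ℝ[X]) (n k : ℕ) (z : ℝ × ℝ) :
    vf (PL k) (QL S n k) z = (z.2 * (z.1 ^ 2 + z.2 ^ 2) ^ k,
      -(z.1 * qf S n (z.1 ^ 2) (z.2 ^ 2) * (z.1 ^ 2 + z.2 ^ 2) ^ k)) := by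
  unfold vf PL QL FF qf
  ext
  · simp
  · simp [pow_mul]

theorem contDiff_vf (P Q : MvPolynomial (Fin 2) ℝ) : ContDiff ℝ 1 (vf P Q) :=
  (orb_contDiff_eval P).prodMk (orb_contDiff_eval Q)

theorem orb_homog_FF (k : ℕ) : (FF k).IsHomogeneous (2 * k) := by
  unfold FF
  exact (((MvPolynomial.isHomogeneous_X ℝ (0 : Fin 2)).pow 2).add
    ((MvPolynomial.isHomogeneous_X ℝ (1 : Fin 2)).pow 2)).pow k |> fun h => by
      simpa using h

theorem homog_PL (k : ℕ) : (PL k).IsHomogeneous (2 * k + 1) := by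
  unfold PL
  have := (MvPolynomial.isHomogeneous_X ℝ (1 : Fin 2)).mul (orb_homog_FF k)
  rwa [add_comm] at this

theorem homog_QL (S : ℝ[X]) (n k : ℕ) : (QL S n k).IsHomogeneous (2 * (k + n) + 1) := by
  unfold QL
  have h1 : (∑ j ∈ Finset.range (n + 1), MvPolynomial.C (S.coeff j) *
      MvPolynomial.X 0 ^ (2 * (n - j)) * MvPolynomial.X 1 ^ (2 * j) :
      MvPolynomial (Fin 2) ℝ).IsHomogeneous (2 * n) := by
    refine MvPolynomial.IsHomogeneous.sum _ _ _ fun j hj => ?_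
    have hj' : j ≤ n := Nat.lt_succ_iff.1 (Finset.mem_range.1 hj)
    have h2 := ((MvPolynomial.isHomogeneous_C (Fin 2) (S.coeff j)).mul
      ((MvPolynomial.isHomogeneous_X ℝ (0 : Fin 2)).pow (2 * (n - j)))).mul
      ((MvPolynomial.isHomogeneous_X ℝ (1 : Fin 2)).pow (2 * j))
    have e : 0 + 1 * (2 * (n - j)) + 1 * (2 * j) = 2 * n := by omega
    rwa [e] at h2
  have h3 := (((MvPolynomial.isHomogeneous_X ℝ (0 : Fin 2)).mul h1).mul (orb_homog_FF k)).neg
  have e : 1 + 2 * n + 2 * k = 2 * (k + n) + 1 := by ring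
  rwa [e] at h3

/-! ### The orbit -/

theorem orb_cos_mem {a : ℝ} (ha : 0 < a) (p : ℝ) : a * Real.cos p ^ 2 ∈ Icc 0 a := by
  have h1 := Real.cos_sq_le_one p
  have h2 := sq_nonneg (Real.cos p)
  constructor
  · positivity
  · nlinarith

theorem orb_crv_snd_sq (h : Bar S n κ) {b : ℝ} (hb : 0 < b) (p : ℝ) :
    (crv S n b p).2 ^ 2 = Vp S n (b ^ 2) p := by
  rw [Vp_eq h (pow_pos hb 2)]
  unfold crv
  ring

theorem orb_crv_fst_sq (b p : ℝ) : (crv S n b p).1 ^ 2 = b ^ 2 * Real.cos p ^ 2 := by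
  unfold crv
  ring

/-- `y^2 = v(x^2)` on the orbit. -/
theorem crv_sq (h : Bar S n κ) {b : ℝ} (hb : 0 < b) (p : ℝ) :
    (crv S n b p).2 ^ 2 = vs S n (b ^ 2) ((crv S n b p).1 ^ 2) := by
  rw [orb_crv_snd_sq h hb, orb_crv_fst_sq]
  rfl

theorem orb_hasDerivAt_Vp (h : Bar S n κ) {a : ℝ} (ha : 0 < a) (p : ℝ) :
    HasDerivAt (Vp S n a)
      (-(qf S n (a * Real.cos p ^ 2) (Vp S n a p)) * (a * (2 * Real.cos p * -Real.sin p))) p := by
  have h1 := vs_deriv h ha (orb_cos_mem ha p)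
  have h2 : HasDerivAt (fun p => a * Real.cos p ^ 2) (a * (2 * Real.cos p * -Real.sin p)) p := by
    have := ((Real.hasDerivAt_cos p).pow 2).const_mul a
    simpa using this
  exact h1.comp_hasDerivAt p h2 (Eventually.of_forall fun x => orb_cos_mem ha x)

theorem hasDerivAt_crv (h : Bar S n κ) {b : ℝ} (hb : 0 < b) (p : ℝ) :
    HasDerivAt (crv S n b) ((crv S n b p).2 / Wr S n (b ^ 2) p,
      -((crv S n b p).1 * qf S n ((crv S n b p).1 ^ 2) ((crv S n b p).2 ^ 2)) /
        Wr S n (b ^ 2) p) p := by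
  have ha : 0 < b ^ 2 := pow_pos hb 2
  have hW := Wr_pos h ha p
  have hW0 := hW.ne'
  have hWc : ContinuousAt (Wr S n (b ^ 2)) p := (continuous_Wr h ha).continuousAt
  have hX : HasDerivAt (fun p => b * Real.cos p) ((crv S n b p).2 / Wr S n (b ^ 2) p) p := by
    refine ((Real.hasDerivAt_cos p).const_mul b).congr_deriv ?_
    unfold crv
    field_simp
  refine HasDerivAt.prodMk hX ?_
  rw [orb_crv_snd_sq h hb, orb_crv_fst_sq]
  by_cases hs : Real.sin p = 0
  · have h1 := (orb_deriv_mul_zero (Real.hasDerivAt_sin p) hs hWc).const_mul (-b)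
    have h2 : HasDerivAt (fun p => -(b * Real.sin p * Wr S n (b ^ 2) p))
        (-b * (Real.cos p * Wr S n (b ^ 2) p)) p := by
      refine h1.congr_of_eventuallyEq (Eventually.of_forall fun x => ?_)
      show -(b * Real.sin x * Wr S n (b ^ 2) x) = -b * (Real.sin x * Wr S n (b ^ 2) x)
      ring
    refine h2.congr_deriv ?_
    have hc : Real.cos p ^ 2 = 1 := by
      have := Real.sin_sq_add_cos_sq p
      rw [hs] at this
      linarith
    have hV : Vp S n (b ^ 2) p = 0 := by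
      unfold Vp
      rw [hc, mul_one, vs_self h ha]
    have hW2 : Wr S n (b ^ 2) p ^ 2 = S.coeff 0 * (b ^ 2) ^ n := by
      have h3 := ws_pos h ha (t := 1) ⟨zero_le_one, le_refl _⟩
      unfold Wr
      rw [hc, Real.sq_sqrt h3.le, ws_one h ha, Polynomial.coeff_zero_eq_eval_zero]
    rw [hV, hc, mul_one, qf_zero, ← hW2]
    unfold crv
    field_simp
  · have hYc : ContinuousAt (fun p => -(b * Real.sin p * Wr S n (b ^ 2) p)) p :=
      ((continuousAt_const.mul Real.continuous_sin.continuousAt).mul hWc).neg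
    have h1 := orb_deriv_of_sq hYc (fun x => orb_crv_snd_sq h hb x) (orb_hasDerivAt_Vp h ha p)
      (by
        show -(b * Real.sin p * Wr S n (b ^ 2) p) ≠ 0
        exact neg_ne_zero.2 (mul_ne_zero (mul_ne_zero hb.ne' hs) hW0))
    refine h1.congr_deriv ?_
    unfold crv
    field_simp

/-- The periodic solution through `(b,0)`. -/
theorem exists_orbit (h : Bar S n κ) (k : ℕ) {b : ℝ} (hb : 0 < b) :
    ∃ γ : ℝ → ℝ × ℝ, IsSol (vf (PL k) (QL S n k)) γ ∧ γ 0 = (b, 0) ∧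
      range γ = range (crv S n b) ∧ (∀ t, γ (t + Ts S n k (b ^ 2)) = γ t) ∧
      0 < Ts S n k (b ^ 2) ∧ (∀ t, γ t = γ 0 → ∃ m : ℤ, t = m * Ts S n k (b ^ 2)) := by
  have ha : 0 < b ^ 2 := pow_pos hb 2
  have h0 : crv S n b 0 = (b, 0) := by
    unfold crv
    simp
  have key := exists_sol_of_curve (X := vf (PL k) (QL S n k)) (g := crv S n b)
    (g' := fun p => ((crv S n b p).2 / Wr S n (b ^ 2) p,
      -((crv S n b p).1 * qf S n ((crv S n b p).1 ^ 2) ((crv S n b p).2 ^ 2)) /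
        Wr S n (b ^ 2) p))
    (w := fun p => Wr S n (b ^ 2) p * (b ^ 2 * Real.cos p ^ 2 + Vp S n (b ^ 2) p) ^ k)
    ?_ ?_ ?_ (hasDerivAt_crv h hb) ?_ ?_ ?_
  · rw [h0] at key
    exact key
  · exact (continuous_Wr h ha).mul (((continuous_const.mul (Real.continuous_cos.pow 2)).add
      (continuous_Vp h ha)).pow k)
  · intro p
    exact mul_pos (Wr_pos h ha p) (pow_pos (uv_pos h ha p) k)
  · intro p
    simp only [Wr, Vp, Real.cos_add_two_pi]
  · intro p
    have hW0 := (Wr_pos h ha p).ne'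
    rw [vf_L]
    have e : (crv S n b p).1 ^ 2 + (crv S n b p).2 ^ 2 =
        b ^ 2 * Real.cos p ^ 2 + Vp S n (b ^ 2) p := by
      rw [orb_crv_snd_sq h hb, orb_crv_fst_sq]
    rw [e]
    ext
    · simp only [Prod.smul_fst, smul_eq_mul]
      field_simp
    · simp only [Prod.smul_snd, smul_eq_mul]
      field_simp
  · intro p
    simp only [crv, Wr, Real.cos_add_two_pi, Real.sin_add_two_pi]
  · intro p hp
    rw [h0] at hp
    have h1 : b * Real.cos p = b := congrArg Prod.fst hp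
    have h2 : Real.cos p = 1 := by
      have h3 : b * Real.cos p = b * 1 := by rw [h1, mul_one]
      exact mul_left_cancel₀ hb.ne' h3
    obtain ⟨m, hm⟩ := (Real.cos_eq_one_iff p).1 h2
    exact ⟨m, hm.symm⟩

theorem minPeriod_L (h : Bar S n κ) (k : ℕ) {b : ℝ} (hb : 0 < b) :
    minPeriod (vf (PL k) (QL S n k)) (b, 0) = Ts S n k (b ^ 2) := by
  obtain ⟨γ, h1, h2, -, h4, h5, h6⟩ := exists_orbit h k hb
  rw [← h2]
  exact minPeriod_eq (contDiff_vf _ _) h1 h5 h4 h6

end Pool.Agent.CritPer.L
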