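import Pool.Agent.CritPer.L.Slope

open Set Filter Topology Polynomial MeasureTheory

namespace Pool.Agent.CritPer.L

variable {S : ℝ[X]} {n : ℕ} {κ : ℝ}

namespace PartI

theorem S_nonneg (h : Bar S n κ) {K : ℝ} (h0 : 0 ≤ K) (h1 : K ≤ κ) : 0 ≤ S.eval K := by
  rcases h1.lt_or_eq with h2 | h2
  · exact (h.pos K h0 h2).le
  · have ht : Tendsto (fun x => S.eval x) (𝓝[<] κ) (𝓝 (S.eval κ)) :=
      (S.continuous.tendsto κ).mono_left nhdsWithin_le_nhds
    rw [h2]
    refine ge_of_tendsto ht ?_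
    filter_upwards [Ioo_mem_nhdsLT h.hκ] with x hx
    exact (h.pos x hx.1.le hx.2).le

theorem den_pos (h : Bar S n κ) {E m : ℝ} (hE : 0 < E) (hm : m ∈ Icc 0 (Real.sqrt κ)) :
    0 < m ^ 2 + E * S.eval (m ^ 2) := by
  have hm2 : m ^ 2 ≤ κ := by
    have := pow_le_pow_left₀ hm.1 hm.2 2
    rwa [Real.sq_sqrt h.hκ.le] at this
  have hS := S_nonneg h (sq_nonneg m) hm2
  rcases hm.1.eq_or_lt with h0 | h0
  · rw [← h0]
    have := h.pos 0 le_rfl h.hκ
    simp only [ne_eq, OfNat.ofNat_ne_zero, not_false_eq_true, zero_pow, zero_add]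
    positivity
  · have : 0 < m ^ 2 := by positivity
    positivity

/-- the critical angle -/
noncomputable def p1 (S : ℝ[X]) (n : ℕ) (κ a : ℝ) : ℝ := Real.arccos (Real.sqrt (uc S n κ a / a))

theorem arc_facts {a c : ℝ} (ha : 0 < a) (hc : 0 < c) (hca : c < a) :
    0 < Real.arccos (Real.sqrt (c / a)) ∧ Real.arccos (Real.sqrt (c / a)) < Real.pi / 2 ∧
    ∀ p ∈ Icc 0 (Real.arccos (Real.sqrt (c / a))),
      0 < Real.cos p ∧ c ≤ a * Real.cos p ^ 2 ∧ a * Real.cos p ^ 2 ≤ a := by
  have h1 : 0 < c / a := div_pos hc ha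
  have h2 : c / a < 1 := (div_lt_one ha).2 hca
  have h3 : 0 < Real.sqrt (c / a) := Real.sqrt_pos.2 h1
  have h4 : Real.sqrt (c / a) < 1 := by
    rw [Real.sqrt_lt' one_pos]
    simpa using h2
  refine ⟨Real.arccos_pos.2 h4, Real.arccos_lt_pi_div_two.2 h3, ?_⟩
  intro p hp
  have h5 : Real.sqrt (c / a) ≤ Real.cos p := by
    have h6 := Real.cos_le_cos_of_nonneg_of_le_pi hp.1 (Real.arccos_le_pi _) hp.2
    rwa [Real.cos_arccos (by linarith) h4.le] at h6
  refine ⟨by linarith, ?_, ?_⟩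
  · have h7 := pow_le_pow_left₀ h3.le h5 2
    rw [Real.sq_sqrt h1.le, div_le_iff₀ ha] at h7
    linarith
  · have := Real.cos_sq_le_one p
    nlinarith

theorem sl_facts (h : Bar S n κ) {a : ℝ} (ha : 0 < a) {p : ℝ} (hp : p ∈ Icc 0 (p1 S n κ a)) :
    sl S n a p ∈ Icc 0 (Real.sqrt κ) := by
  obtain ⟨h1, h2, h3⟩ := arc_facts ha (uc_pos h ha) (uc_lt h ha)
  obtain ⟨hc, hu, hua⟩ := h3 p hp
  have hW := Wr_pos h ha p
  constructor
  · exact mul_nonneg (Real.tan_nonneg_of_nonneg_of_le_pi_div_two hp.1 (hp.2.trans h2.le)) hW.le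
  · apply Real.le_sqrt_of_sq_le
    have h4 := sl_sq h ha hc.ne'
    have hupos : 0 < a * Real.cos p ^ 2 := by positivity
    have h5 : Vp S n a p ≤ κ * (a * Real.cos p ^ 2) := by
      rcases hu.eq_or_lt with h6 | h6
      · rw [Vp, ← h6, uc_eq h ha]
      · exact (lt_of_uc h ha h6 hua).le
    rw [h4] at h5
    exact le_of_mul_le_mul_right h5 hupos

/-- the derivative of the slope -/
noncomputable def sl' (S : ℝ[X]) (n : ℕ) (a p : ℝ) : ℝ :=
  (sl S n a p ^ 2 + (a * Real.cos p ^ 2) ^ n * S.eval (sl S n a p ^ 2)) / Wr S n a p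

theorem mem_Ioo' (h : Bar S n κ) {a : ℝ} (ha : 0 < a) {p : ℝ} (hp : p ∈ Icc 0 (p1 S n κ a)) :
    p ∈ Ioo (-(Real.pi / 2)) (Real.pi / 2) := by
  obtain ⟨h1, h2, h3⟩ := arc_facts ha (uc_pos h ha) (uc_lt h ha)
  have := Real.pi_pos
  exact ⟨by linarith [hp.1], lt_of_le_of_lt hp.2 h2⟩

theorem sl_cont (h : Bar S n κ) {a : ℝ} (ha : 0 < a) :
    ContinuousOn (sl S n a) (Icc 0 (p1 S n κ a)) := fun _ hp =>
  (hasDerivAt_sl h ha (mem_Ioo' h ha hp)).continuousAt.continuousWithinAt

theorem sl'_cont (h : Bar S n κ) {a : ℝ} (ha : 0 < a) :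
    ContinuousOn (sl' S n a) (Icc 0 (p1 S n κ a)) := by
  unfold sl'
  have h1 := sl_cont h ha
  refine ContinuousOn.div ?_ (continuous_Wr h ha).continuousOn fun p _ => (Wr_pos h ha p).ne'
  refine (h1.pow 2).add (ContinuousOn.mul (by fun_prop) ?_)
  exact S.continuous.comp_continuousOn (h1.pow 2)

theorem subst (h : Bar S n κ) {a : ℝ} (ha : 0 < a) {p2 : ℝ} (h0 : 0 ≤ p2) (h2 : p2 ≤ p1 S n κ a)
    {G : ℝ → ℝ} (hG : ContinuousOn G (Icc 0 (Real.sqrt κ))) :
    ∫ p in (0 : ℝ)..p2, G (sl S n a p) * sl' S n a p = ∫ m in (0 : ℝ)..sl S n a p2, G m := by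
  have hI : uIcc 0 p2 = Icc 0 p2 := uIcc_of_le h0
  have hsub : Icc 0 p2 ⊆ Icc 0 (p1 S n κ a) := Icc_subset_Icc_right h2
  have := intervalIntegral.integral_comp_mul_deriv'' (a := 0) (b := p2) (f := sl S n a)
    (f' := sl' S n a) (g := G) (by rw [hI]; exact (sl_cont h ha).mono hsub) (by
      intro x hx
      rw [min_eq_left h0, max_eq_right h0] at hx
      exact (hasDerivAt_sl h ha (mem_Ioo' h ha (hsub (Ioo_subset_Icc_self hx)))).hasDerivWithinAt)
    (by rw [hI]; exact (sl'_cont h ha).mono hsub) (by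
      rw [hI]
      refine hG.mono ?_
      rintro _ ⟨x, hx, rfl⟩
      exact sl_facts h ha (hsub hx))
  simp only [Function.comp_apply] at this
  rw [this]
  congr 1
  simp [sl]

theorem int_cont (h : Bar S n κ) {a : ℝ} (ha : 0 < a) (k : ℕ) :
    Continuous fun p => 1 / (Wr S n a p * (a * Real.cos p ^ 2 + Vp S n a p) ^ k) := by
  refine continuous_const.div ?_ fun p => ?_
  · exact (continuous_Wr h ha).mul (((by fun_prop : Continuous fun p => a * Real.cos p ^ 2).add
      (continuous_Vp h ha)).pow k)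
  · exact (mul_pos (Wr_pos h ha p) (pow_pos (uv_pos h ha p) k)).ne'

/-- the comparison function -/
noncomputable def GG (S : ℝ[X]) (n k : ℕ) (c m : ℝ) : ℝ :=
  1 / c ^ k * (1 / ((m ^ 2 + c ^ n * S.eval (m ^ 2)) * (1 + m ^ 2) ^ k))

theorem GG_cont (h : Bar S n κ) {c : ℝ} (hc : 0 < c) (k : ℕ) :
    ContinuousOn (GG S n k c) (Icc 0 (Real.sqrt κ)) := by
  unfold GG
  refine ContinuousOn.mul continuousOn_const (ContinuousOn.div continuousOn_const ?_ ?_)
  · have : Continuous fun m : ℝ => (m ^ 2 + c ^ n * S.eval (m ^ 2)) * (1 + m ^ 2) ^ k := by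
      have h1 : Continuous fun m : ℝ => S.eval (m ^ 2) := S.continuous.comp (by fun_prop)
      fun_prop
    exact this.continuousOn
  · intro m hm
    exact (mul_pos (den_pos h (pow_pos hc n) hm) (by positivity)).ne'

theorem GG_int (c : ℝ) (k : ℕ) :
    2 * n * ∫ m in (0 : ℝ)..Real.sqrt κ, GG S n k c m = 1 / c ^ k * Jw S k n κ (c ^ n) := by
  unfold GG Jw
  rw [intervalIntegral.integral_const_mul]
  have : ∀ m : ℝ, 2 * (n : ℝ) / ((m ^ 2 + c ^ n * S.eval (m ^ 2)) * (1 + m ^ 2) ^ k) =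
      2 * n * (1 / ((m ^ 2 + c ^ n * S.eval (m ^ 2)) * (1 + m ^ 2) ^ k)) := by
    intro m
    ring
  simp only [this]
  rw [intervalIntegral.integral_const_mul]
  ring

/-- the integrand in terms of the slope -/
theorem integrand (h : Bar S n κ) {a : ℝ} (ha : 0 < a) (k : ℕ) {p : ℝ}
    (hp : p ∈ Icc 0 (p1 S n κ a)) :
    1 / (Wr S n a p * (a * Real.cos p ^ 2 + Vp S n a p) ^ k) =
      1 / (Wr S n a p * (a * Real.cos p ^ 2) ^ k * (1 + sl S n a p ^ 2) ^ k) := by
  obtain ⟨h1, h2, h3⟩ := arc_facts ha (uc_pos h ha) (uc_lt h ha)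
  obtain ⟨hc, hu, hua⟩ := h3 p hp
  rw [sl_sq h ha hc.ne']
  have : a * Real.cos p ^ 2 + sl S n a p ^ 2 * (a * Real.cos p ^ 2) =
      (a * Real.cos p ^ 2) * (1 + sl S n a p ^ 2) := by ring
  rw [this, mul_pow]
  ring

theorem GG_sl (h : Bar S n κ) {a : ℝ} (ha : 0 < a) (k : ℕ) {p c : ℝ}
    (hp : p ∈ Icc 0 (p1 S n κ a)) (hc : 0 < c) :
    GG S n k c (sl S n a p) * sl' S n a p =
      (1 / (Wr S n a p * (a * Real.cos p ^ 2) ^ k * (1 + sl S n a p ^ 2) ^ k)) *
      (((a * Real.cos p ^ 2) ^ k * (sl S n a p ^ 2 + (a * Real.cos p ^ 2) ^ n *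
        S.eval (sl S n a p ^ 2))) /
        (c ^ k * (sl S n a p ^ 2 + c ^ n * S.eval (sl S n a p ^ 2)))) := by
  obtain ⟨h1, h2, h3⟩ := arc_facts ha (uc_pos h ha) (uc_lt h ha)
  obtain ⟨hcos, hu, hua⟩ := h3 p hp
  have hW := (Wr_pos h ha p).ne'
  have hup : (0 : ℝ) < a * Real.cos p ^ 2 := by positivity
  have hd := (den_pos h (pow_pos hc n) (sl_facts h ha hp)).ne'
  have h5 : (1 + sl S n a p ^ 2) ≠ 0 := by positivity
  unfold GG sl'
  generalize sl S n a p = m at *
  generalize a * Real.cos p ^ 2 = u at *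
  generalize Wr S n a p = W at *
  have hun : u ≠ 0 := hup.ne'
  have hcn : c ≠ 0 := hc.ne'
  field_simp

end PartI

open PartI

theorem partI_le (h : Bar S n κ) {a : ℝ} (ha : 0 < a) (k : ℕ) :
    partI S n k κ a ≤ 1 / uc S n κ a ^ k * Jw S k n κ (uc S n κ a ^ n) := by
  obtain ⟨h1, h2, h3⟩ := arc_facts ha (uc_pos h ha) (uc_lt h ha)
  have huc := uc_pos h ha
  rw [← GG_int, ← sl_uc h ha, ← subst h ha h1.le le_rfl (GG_cont h huc k)]
  unfold partI
  apply mul_le_mul_of_nonneg_left _ (by positivity)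
  apply intervalIntegral.integral_mono_on h1.le
  · exact (int_cont h ha k).intervalIntegrable _ _
  · apply ContinuousOn.intervalIntegrable
    rw [uIcc_of_le h1.le]
    exact ((GG_cont h huc k).comp (sl_cont h ha) fun p hp => sl_facts h ha hp).mul (sl'_cont h ha)
  · intro p hp
    have hp' : p ∈ Icc 0 (p1 S n κ a) := hp
    obtain ⟨hc, hu, hua⟩ := h3 p hp
    rw [integrand h ha k hp', GG_sl h ha k hp' huc]
    have hm := sl_facts h ha hp'
    have hm2 : sl S n a p ^ 2 ≤ κ := by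
      have := pow_le_pow_left₀ hm.1 hm.2 2
      rwa [Real.sq_sqrt h.hκ.le] at this
    have hS := S_nonneg h (sq_nonneg (sl S n a p)) hm2
    have hW := Wr_pos h ha p
    have hup : (0 : ℝ) < a * Real.cos p ^ 2 := by positivity
    apply le_mul_of_one_le_right (by positivity)
    rw [one_le_div (mul_pos (pow_pos huc k) (den_pos h (pow_pos huc n) hm))]
    have := (den_pos h (pow_pos huc n) hm).le
    gcongr

theorem le_partI (h : Bar S n κ) {a : ℝ} (ha : 0 < a) (k : ℕ) :
    1 / a ^ k * Jw S k n κ (a ^ n) ≤ partI S n k κ a := by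
  obtain ⟨h1, h2, h3⟩ := arc_facts ha (uc_pos h ha) (uc_lt h ha)
  rw [← GG_int, ← sl_uc h ha, ← subst h ha h1.le le_rfl (GG_cont h ha k)]
  unfold partI
  apply mul_le_mul_of_nonneg_left _ (by positivity)
  apply intervalIntegral.integral_mono_on h1.le
  · apply ContinuousOn.intervalIntegrable
    rw [uIcc_of_le h1.le]
    exact ((GG_cont h ha k).comp (sl_cont h ha) fun p hp => sl_facts h ha hp).mul (sl'_cont h ha)
  · exact (int_cont h ha k).intervalIntegrable _ _
  · intro p hp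
    have hp' : p ∈ Icc 0 (p1 S n κ a) := hp
    obtain ⟨hc, hu, hua⟩ := h3 p hp
    rw [integrand h ha k hp', GG_sl h ha k hp' ha]
    have hm := sl_facts h ha hp'
    have hm2 : sl S n a p ^ 2 ≤ κ := by
      have := pow_le_pow_left₀ hm.1 hm.2 2
      rwa [Real.sq_sqrt h.hκ.le] at this
    have hS := S_nonneg h (sq_nonneg (sl S n a p)) hm2
    have hW := Wr_pos h ha p
    have hup : (0 : ℝ) < a * Real.cos p ^ 2 := by positivity
    apply mul_le_of_le_one_right (by positivity)
    rw [div_le_one (mul_pos (pow_pos ha k) (den_pos h (pow_pos ha n) hm))]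
    have := (den_pos h (pow_pos hup n) hm).le
    gcongr

theorem uc_time (h : Bar S n κ) {a : ℝ} (ha : 0 < a) {δ : ℝ} (hδ : 0 < δ)
    (hJ : Jt S n κ (a ^ n * Real.exp (-δ)) < δ) : n * Real.log (a / uc S n κ a) ≤ δ := by
  by_contra hcon
  rw [not_le] at hcon
  have hn : (0 : ℝ) < n := by
    have := h.hn
    exact_mod_cast this
  have huc := uc_pos h ha
  set ud : ℝ := a * Real.exp (-(δ / n)) with hud
  have hud0 : 0 < ud := by positivity
  have huda : ud < a := by
    rw [hud]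
    have : Real.exp (-(δ / n)) < 1 := by
      rw [Real.exp_lt_one_iff]
      have : 0 < δ / n := by positivity
      linarith
    nlinarith
  have hucd : uc S n κ a < ud := by
    have h1 : δ / n < Real.log (a / uc S n κ a) := by
      rw [div_lt_iff₀ hn]
      linarith
    have h2 : Real.exp (δ / n) < a / uc S n κ a := by
      rwa [← Real.lt_log_iff_exp_lt (by positivity)]
    rw [lt_div_iff₀ huc] at h2
    rw [hud, Real.exp_neg]
    rw [← div_eq_mul_inv, lt_div_iff₀ (Real.exp_pos _)]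
    linarith
  have hudn : ud ^ n = a ^ n * Real.exp (-δ) := by
    rw [hud, mul_pow, ← Real.exp_nat_mul]
    congr 2
    field_simp
  set pd : ℝ := Real.arccos (Real.sqrt (ud / a)) with hpd
  obtain ⟨g1, g2, g3⟩ := arc_facts ha hud0 huda
  have hpd1 : pd ≤ p1 S n κ a := by
    apply Real.arccos_le_arccos
    apply Real.sqrt_le_sqrt
    gcongr
  have hsub : Icc 0 pd ⊆ Icc 0 (p1 S n κ a) := Icc_subset_Icc_right hpd1
  -- the integral of the tangent
  have hint : ∫ p in (0 : ℝ)..pd, 2 * n * Real.tan p = δ := by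
    have h1 : ∀ p ∈ uIcc 0 pd, HasDerivAt (fun p => -(2 * n * Real.log (Real.cos p)))
        (2 * n * Real.tan p) p := by
      intro p hp
      rw [uIcc_of_le g1.le] at hp
      have hc := (g3 p hp).1
      have h2 := (((Real.hasDerivAt_cos p).log hc.ne').const_mul (2 * (n : ℝ))).neg
      refine h2.congr_deriv ?_
      rw [Real.tan_eq_sin_div_cos]
      ring
    rw [intervalIntegral.integral_eq_sub_of_hasDerivAt h1]
    · have hx : 0 < ud / a := by positivity
      have h4 : Real.sqrt (ud / a) ≤ 1 := by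
        rw [Real.sqrt_le_left zero_le_one, one_pow, div_le_one ha]
        exact huda.le
      rw [hpd, Real.cos_arccos (by linarith [Real.sqrt_nonneg (ud / a)]) h4, Real.cos_zero,
        Real.log_one, Real.log_sqrt hx.le, hud, mul_div_cancel_left₀ _ ha.ne', Real.log_exp]
      field_simp
      ring
    · apply ContinuousOn.intervalIntegrable
      rw [uIcc_of_le g1.le]
      refine continuousOn_const.mul (Real.continuousOn_tan.mono ?_)
      intro p hp
      exact (g3 p hp).1.ne'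
  -- the comparison
  set T : ℝ → ℝ := fun m => 2 * n * m / (m ^ 2 + ud ^ n * S.eval (m ^ 2)) with hT
  have hTc : ContinuousOn T (Icc 0 (Real.sqrt κ)) := by
    refine ContinuousOn.div (by fun_prop) ?_ fun m hm => (den_pos h (pow_pos hud0 n) hm).ne'
    have h1 : Continuous fun m : ℝ => S.eval (m ^ 2) := S.continuous.comp (by fun_prop)
    exact (by fun_prop : Continuous fun m : ℝ => m ^ 2 + ud ^ n * S.eval (m ^ 2)).continuousOn
  have hle : ∫ p in (0 : ℝ)..pd, 2 * n * Real.tan p ≤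
      ∫ p in (0 : ℝ)..pd, T (sl S n a p) * sl' S n a p := by
    apply intervalIntegral.integral_mono_on g1.le
    · apply ContinuousOn.intervalIntegrable
      rw [uIcc_of_le g1.le]
      refine continuousOn_const.mul (Real.continuousOn_tan.mono ?_)
      intro p hp
      exact (g3 p hp).1.ne'
    · apply ContinuousOn.intervalIntegrable
      rw [uIcc_of_le g1.le]
      exact (hTc.comp ((sl_cont h ha).mono hsub) fun p hp => sl_facts h ha (hsub hp)).mul
        ((sl'_cont h ha).mono hsub)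
    · intro p hp
      obtain ⟨hc, hu, hua⟩ := g3 p hp
      have hm := sl_facts h ha (hsub hp)
      have hm2 : sl S n a p ^ 2 ≤ κ := by
        have := pow_le_pow_left₀ hm.1 hm.2 2
        rwa [Real.sq_sqrt h.hκ.le] at this
      have hS := S_nonneg h (sq_nonneg (sl S n a p)) hm2
      have hW := Wr_pos h ha p
      have htan : Real.tan p = sl S n a p / Wr S n a p := by
        rw [sl, mul_div_cancel_right₀ _ hW.ne']
      have hd := den_pos h (pow_pos hud0 n) hm
      rw [htan]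
      have e1 : T (sl S n a p) * sl' S n a p = 2 * n * (sl S n a p / Wr S n a p) *
          ((sl S n a p ^ 2 + (a * Real.cos p ^ 2) ^ n * S.eval (sl S n a p ^ 2)) /
          (sl S n a p ^ 2 + ud ^ n * S.eval (sl S n a p ^ 2))) := by
        rw [hT, sl']
        ring
      rw [e1]
      apply le_mul_of_one_le_right
      · have := hm.1
        positivity
      · rw [one_le_div hd]
        gcongr
  have hle2 : ∫ m in (0 : ℝ)..sl S n a pd, T m ≤ Jt S n κ (ud ^ n) := by
    have hpdm := sl_facts h ha (hsub (right_mem_Icc.2 g1.le))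
    unfold Jt
    apply intervalIntegral.integral_mono_interval le_rfl hpdm.1 hpdm.2
    · refine (ae_restrict_iff' measurableSet_Ioc).2 (Eventually.of_forall fun m hm => ?_)
      have hm' : m ∈ Icc 0 (Real.sqrt κ) := Ioc_subset_Icc_self hm
      have := den_pos h (pow_pos hud0 n) hm'
      have := hm'.1
      simp only [Pi.zero_apply]
      positivity
    · apply ContinuousOn.intervalIntegrable
      rw [uIcc_of_le (Real.sqrt_nonneg κ)]
      exact hTc
  rw [subst h ha g1.le hpd1 hTc, hint] at hle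
  rw [← hudn] at hJ
  linarith

end Pool.Agent.CritPer.L
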