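import Pool.Agent.CritPer.L.Cross
import Pool.Agent.CritPer.L.Wf

open Set Filter Topology Polynomial MeasureTheory

namespace Pool.Agent.CritPer.L

variable {S : ℝ[X]} {n : ℕ} {κ : ℝ}

/-- slope `m(p) = tan p * sqrt w` of the orbit. -/
noncomputable def sl (S : ℝ[X]) (n : ℕ) (a p : ℝ) : ℝ := Real.tan p * Wr S n a p

theorem sl_sq (h : Bar S n κ) {a : ℝ} (ha : 0 < a) {p : ℝ} (hp : Real.cos p ≠ 0) :
    Vp S n a p = sl S n a p ^ 2 * (a * Real.cos p ^ 2) := by
  rw [Vp_eq h ha, sl, Real.tan_eq_sin_div_cos]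
  field_simp

theorem slope_mul_zero {g w : ℝ → ℝ} {g' p : ℝ} (hg : HasDerivAt g g' p) (h0 : g p = 0)
    (hw : ContinuousAt w p) : HasDerivAt (fun x => g x * w x) (g' * w p) p := by
  rw [hasDerivAt_iff_tendsto_slope] at hg ⊢
  have h1 : Tendsto (fun x => slope g p x * w x) (𝓝[≠] p) (𝓝 (g' * w p)) :=
    hg.mul (hw.tendsto.mono_left nhdsWithin_le_nhds)
  refine h1.congr fun x => ?_
  simp only [slope_def_field, h0, zero_mul, sub_zero]
  ring

theorem hasDerivAt_slsq (h : Bar S n κ) {a : ℝ} (ha : 0 < a) {p : ℝ}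
    (hp : p ∈ Ioo (-(Real.pi / 2)) (Real.pi / 2)) (hp0 : p ≠ 0) :
    HasDerivAt (fun x => Vp S n a x / (a * Real.cos x ^ 2))
      (2 * Real.tan p * (sl S n a p ^ 2 + (a * Real.cos p ^ 2) ^ n *
        S.eval (sl S n a p ^ 2))) p := by
  have hcos : 0 < Real.cos p := Real.cos_pos_of_mem_Ioo hp
  have hsin : Real.sin p ≠ 0 := by
    intro h0
    rcases lt_trichotomy p 0 with h1 | h1 | h1
    · have := Real.sin_neg_of_neg_of_neg_pi_lt h1 (by linarith [hp.1, Real.pi_pos])
      linarith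
    · exact hp0 h1
    · have := Real.sin_pos_of_pos_of_lt_pi h1 (by linarith [hp.2, Real.pi_pos])
      linarith
  have hsc := Real.sin_sq_add_cos_sq p
  have hcos1 : Real.cos p ^ 2 < 1 := by
    have : 0 < Real.sin p ^ 2 := by positivity
    linarith
  have hu0 : 0 < a * Real.cos p ^ 2 := by positivity
  have hua : a * Real.cos p ^ 2 < a := by
    have := mul_lt_mul_of_pos_left hcos1 ha
    linarith
  have hu : HasDerivAt (fun x => a * Real.cos x ^ 2) (a * (2 * Real.cos p * -Real.sin p)) p := by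
    have := ((Real.hasDerivAt_cos p).pow 2).const_mul a
    simpa using this
  have hv := (vs_deriv h ha ⟨hu0.le, hua.le⟩).hasDerivAt (Icc_mem_nhds hu0 hua)
  have hV : HasDerivAt (Vp S n a)
      (-(qf S n (a * Real.cos p ^ 2) (vs S n a (a * Real.cos p ^ 2))) *
        (a * (2 * Real.cos p * -Real.sin p))) p := HasDerivAt.comp p hv hu
  have hK := hV.div hu hu0.ne'
  have h1 : vs S n a (a * Real.cos p ^ 2) = sl S n a p ^ 2 * (a * Real.cos p ^ 2) :=
    sl_sq h ha hcos.ne'
  have h1' : Vp S n a p = sl S n a p ^ 2 * (a * Real.cos p ^ 2) := h1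
  have h2 : qf S n (a * Real.cos p ^ 2) (vs S n a (a * Real.cos p ^ 2)) =
      (a * Real.cos p ^ 2) ^ n * S.eval (sl S n a p ^ 2) := by
    rw [qf_eq h.deg hu0.ne', h1, mul_div_assoc, div_self hu0.ne', mul_one]
  rw [h2, h1'] at hK
  refine hK.congr_deriv ?_
  rw [Real.tan_eq_sin_div_cos]
  generalize (a * Real.cos p ^ 2) ^ n * S.eval (sl S n a p ^ 2) = q
  have ha' := ha.ne'
  have hc' := hcos.ne'
  field_simp
  ring

theorem hasDerivAt_sl (h : Bar S n κ) {a : ℝ} (ha : 0 < a) {p : ℝ}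
    (hp : p ∈ Ioo (-(Real.pi / 2)) (Real.pi / 2)) :
    HasDerivAt (sl S n a) ((sl S n a p ^ 2 + (a * Real.cos p ^ 2) ^ n *
      S.eval (sl S n a p ^ 2)) / Wr S n a p) p := by
  have hcos : 0 < Real.cos p := Real.cos_pos_of_mem_Ioo hp
  have hW := Wr_pos h ha p
  by_cases hp0 : p = 0
  · subst hp0
    have h1 : HasDerivAt Real.tan (1 / Real.cos 0 ^ 2) 0 := Real.hasDerivAt_tan (by simp)
    have h2 := slope_mul_zero h1 Real.tan_zero (continuous_Wr h ha).continuousAt
    refine h2.congr_deriv ?_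
    have h3 : Wr S n a 0 ^ 2 = S.eval 0 * a ^ n := by
      have h4 : Wr S n a 0 = Real.sqrt (ws S n a 1) := by simp [Wr]
      rw [h4, Real.sq_sqrt (ws_pos h ha ⟨zero_le_one, le_rfl⟩).le, ws_one h ha]
    have h5 : sl S n a 0 = 0 := by simp [sl]
    rw [h5]
    simp only [Real.cos_zero, one_pow, ne_eq, OfNat.ofNat_ne_zero, not_false_eq_true, zero_pow,
      zero_add, mul_one, div_one, one_mul]
    rw [eq_div_iff hW.ne', mul_comm (a ^ n), ← h3]
    ring
  · have hK := hasDerivAt_slsq h ha hp hp0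
    have hcos' : ∀ᶠ x in 𝓝 p, 0 < Real.cos x :=
      Real.continuous_cos.continuousAt.eventually (lt_mem_nhds hcos)
    have hKeq : ∀ x, 0 < Real.cos x → Vp S n a x / (a * Real.cos x ^ 2) = sl S n a x ^ 2 := by
      intro x hx
      rw [sl_sq h ha hx.ne', mul_div_assoc, div_self (by positivity), mul_one]
    have hWr : ∀ x, 0 < Wr S n a x := Wr_pos h ha
    set N := sl S n a p ^ 2 + (a * Real.cos p ^ 2) ^ n * S.eval (sl S n a p ^ 2) with hN
    rcases lt_or_gt_of_ne hp0 with hlt | hgt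
    · -- p < 0
      have htan : Real.tan p < 0 := Real.tan_neg_of_neg_of_pi_div_two_lt hlt hp.1
      have hslneg : sl S n a p < 0 := mul_neg_of_neg_of_pos htan hW
      have hK0 : Vp S n a p / (a * Real.cos p ^ 2) ≠ 0 := by
        rw [hKeq p hcos]
        exact pow_ne_zero 2 hslneg.ne
      have hs := (hK.sqrt hK0).neg
      have hev : sl S n a =ᶠ[𝓝 p] fun x => -Real.sqrt (Vp S n a x / (a * Real.cos x ^ 2)) := by
        filter_upwards [hcos', Iio_mem_nhds hlt, Ioi_mem_nhds hp.1] with x h1 h2 h3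
        rw [hKeq x h1, Real.sqrt_sq_eq_abs, abs_of_neg, neg_neg]
        exact mul_neg_of_neg_of_pos (Real.tan_neg_of_neg_of_pi_div_two_lt h2 h3) (hWr x)
      refine (hs.congr_of_eventuallyEq hev).congr_deriv ?_
      rw [hKeq p hcos, Real.sqrt_sq_eq_abs, abs_of_neg hslneg]
      have : sl S n a p = Real.tan p * Wr S n a p := rfl
      rw [this]
      have ht := htan.ne
      field_simp
    · have htan : 0 < Real.tan p := Real.tan_pos_of_pos_of_lt_pi_div_two hgt hp.2
      have hslpos : 0 < sl S n a p := mul_pos htan hW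
      have hK0 : Vp S n a p / (a * Real.cos p ^ 2) ≠ 0 := by
        rw [hKeq p hcos]
        exact (pow_pos hslpos 2).ne'
      have hs := hK.sqrt hK0
      have hev : sl S n a =ᶠ[𝓝 p] fun x => Real.sqrt (Vp S n a x / (a * Real.cos x ^ 2)) := by
        filter_upwards [hcos', Ioi_mem_nhds hgt, Iio_mem_nhds hp.2] with x h1 h2 h3
        rw [hKeq x h1, Real.sqrt_sq_eq_abs, abs_of_pos]
        exact mul_pos (Real.tan_pos_of_pos_of_lt_pi_div_two h2 h3) (hWr x)
      refine (hs.congr_of_eventuallyEq hev).congr_deriv ?_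
      rw [hKeq p hcos, Real.sqrt_sq_eq_abs, abs_of_pos hslpos]
      have : sl S n a p = Real.tan p * Wr S n a p := rfl
      rw [this]
      have ht := htan.ne'
      field_simp

theorem sl_uc (h : Bar S n κ) {a : ℝ} (ha : 0 < a) :
    sl S n a (Real.arccos (Real.sqrt (uc S n κ a / a))) = Real.sqrt κ := by
  have hu := uc_pos h ha
  have hua := uc_lt h ha
  have hq0 : 0 < uc S n κ a / a := div_pos hu ha
  have hq1 : uc S n κ a / a < 1 := (div_lt_one ha).2 hua
  set t := Real.sqrt (uc S n κ a / a) with ht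
  have ht0 : 0 < t := Real.sqrt_pos.2 hq0
  have ht1 : t < 1 := by
    rw [ht, Real.sqrt_lt' one_pos]
    simpa using hq1
  have hcos : Real.cos (Real.arccos t) = t := Real.cos_arccos (by linarith) ht1.le
  have hcos2 : a * Real.cos (Real.arccos t) ^ 2 = uc S n κ a := by
    rw [hcos, ht, Real.sq_sqrt hq0.le]
    field_simp
  have hV : Vp S n a (Real.arccos t) = κ * uc S n κ a := by
    rw [Vp, hcos2, uc_eq h ha]
  have h1 := sl_sq h ha (p := Real.arccos t) (by rw [hcos]; exact ht0.ne')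
  rw [hV, hcos2] at h1
  have h2 : κ = sl S n a (Real.arccos t) ^ 2 := mul_right_cancel₀ hu.ne' h1
  have h3 : 0 ≤ sl S n a (Real.arccos t) := by
    refine mul_nonneg ?_ (Wr_pos h ha _).le
    rw [Real.tan_eq_sin_div_cos, hcos]
    refine div_nonneg ?_ ht0.le
    exact Real.sin_nonneg_of_nonneg_of_le_pi (Real.arccos_nonneg t) (Real.arccos_le_pi t)
  rw [h2, Real.sqrt_sq h3]

end Pool.Agent.CritPer.L
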