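import Pool.Agent.CritPer.L.Final
import Pool.Agent.CritPer.Sym
import Pool.Agent.CritPer.Lower

/-!
For every `m` there are only finitely many pairs `(k,l)`, `k ≠ l`, with `N(k,l) < m`.
-/

open Set
open Pool.Agent.CritPer

namespace Pool.Agent.CritPer.L.TendsToInfinity

theorem result (m : ℕ) :
    {p : ℕ × ℕ | p.1 ≠ p.2 ∧ Nkl p.1 p.2 < (m : ℕ∞)}.Finite := by
  have hB : ∀ k : ℕ, ∃ l0 : ℕ, ∀ l ≥ l0, (m : ℕ∞) ≤ Nkl k l := by
    intro k
    obtain ⟨l0, hl0⟩ := L.final k (m + 1)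
    refine ⟨l0, fun l hl => le_trans ?_ (hl0 l hl)⟩
    have : m ≤ 2 * (m + 1) - 1 := by omega
    exact_mod_cast this
  choose l0 hl0 using hB
  have key : ∀ k l : ℕ, k < l → Nkl k l < (m : ℕ∞) → k ≤ m ∧ l < l0 k := by
    intro k l hkl hN
    constructor
    · by_contra hcon
      have h1 := (lower hkl).trans_lt hN
      have h2 : max 1 (2 * k - 1) < m := by exact_mod_cast h1
      omega
    · by_contra hcon
      exact absurd hN (not_lt.2 (hl0 k l (not_lt.1 hcon)))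
  have hfin : (⋃ k ∈ Set.Iic m, ({k} : Set ℕ) ×ˢ Set.Iio (l0 k)).Finite :=
    (Set.finite_Iic m).biUnion fun k _ => (Set.finite_singleton k).prod (Set.finite_Iio _)
  refine (hfin.union (hfin.image Prod.swap)).subset ?_
  rintro ⟨k, l⟩ ⟨hne, hN⟩
  simp only at hne hN
  rcases lt_or_gt_of_ne hne with h | h
  · left
    obtain ⟨h1, h2⟩ := key k l h hN
    simp only [mem_iUnion]
    exact ⟨k, h1, rfl, h2⟩
  · right
    rw [Nkl_comm] at hN
    obtain ⟨h1, h2⟩ := key l k h hN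
    refine ⟨(l, k), ?_, rfl⟩
    simp only [mem_iUnion]
    exact ⟨l, h1, rfl, h2⟩

end Pool.Agent.CritPer.L.TendsToInfinity
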