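import Pool.Agent.CritPer.L.Defs

open Set Filter Topology Polynomial MeasureTheory

namespace Pool.Agent.CritPer.L

namespace Weier

/-- continuous staircase, going to infinity outside `[0,N]` -/
noncomputable def G (N : ℕ) (q : ℕ → ℝ) (r : ℕ) (z : ℝ) : ℝ :=
  (∑ j ∈ Finset.range N, q j * max 0 (1 - r * Metric.infDist z (Icc (j : ℝ) (j + 1)))) +
    r * Metric.infDist z (Icc 0 (N : ℝ))

theorem G_cont (N : ℕ) (q : ℕ → ℝ) (r : ℕ) : Continuous (G N q r) := by
  unfold G
  refine Continuous.add (continuous_finsetSum _ fun j _ => ?_) ?_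
  · exact continuous_const.mul (continuous_const.max
      (continuous_const.sub (continuous_const.mul (Metric.continuous_infDist_pt _))))
  · exact continuous_const.mul (Metric.continuous_infDist_pt _)

theorem G_in (N : ℕ) (q : ℕ → ℝ) (j : ℕ) (hj : j < N) (z : ℝ) (hz : z ∈ Ioo (j : ℝ) (j + 1)) :
    ∀ᶠ r : ℕ in atTop, G N q r z = q j := by
  have h1 : ∀ i ∈ Finset.range N, ∀ᶠ r : ℕ in atTop,
      q i * max 0 (1 - r * Metric.infDist z (Icc (i : ℝ) (i + 1))) = if i = j then q j else 0 := by
    intro i _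
    by_cases hij : i = j
    · subst hij
      have : Metric.infDist z (Icc (i : ℝ) (i + 1)) = 0 :=
        Metric.infDist_zero_of_mem ⟨hz.1.le, hz.2.le⟩
      refine Eventually.of_forall fun r => ?_
      rw [this, mul_zero, sub_zero, if_pos rfl, max_eq_right zero_le_one, mul_one]
    · have hne : z ∉ Icc (i : ℝ) (i + 1) := by
        intro h
        rcases lt_or_gt_of_ne hij with h1 | h1
        · have : (i : ℝ) + 1 ≤ j := by exact_mod_cast h1
          linarith [h.2, hz.1]
        · have : (j : ℝ) + 1 ≤ i := by exact_mod_cast h1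
          linarith [h.1, hz.2]
      have hd : 0 < Metric.infDist z (Icc (i : ℝ) (i + 1)) :=
        (isClosed_Icc.notMem_iff_infDist_pos ⟨(i : ℝ), left_mem_Icc.mpr (by linarith)⟩).mp hne
      have h2 : Tendsto (fun r : ℕ => (r : ℝ) * Metric.infDist z (Icc (i : ℝ) (i + 1)))
          atTop atTop := tendsto_natCast_atTop_atTop.atTop_mul_const hd
      filter_upwards [h2.eventually_ge_atTop 1] with r hr
      rw [if_neg hij, max_eq_left (by linarith), mul_zero]
  have h2 : ∀ᶠ r : ℕ in atTop, ∀ i ∈ Finset.range N,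
      q i * max 0 (1 - r * Metric.infDist z (Icc (i : ℝ) (i + 1))) = if i = j then q j else 0 :=
    (Finset.eventually_all _).mpr h1
  have h3 : Metric.infDist z (Icc 0 (N : ℝ)) = 0 := by
    apply Metric.infDist_zero_of_mem
    have h4 : (0 : ℝ) ≤ j := j.cast_nonneg
    have h5 : (j : ℝ) + 1 ≤ N := by exact_mod_cast hj
    exact ⟨by linarith [hz.1], by linarith [hz.2]⟩
  filter_upwards [h2] with r hr
  unfold G
  rw [h3, mul_zero, add_zero, Finset.sum_congr rfl hr]
  simp [hj]

theorem G_out (N : ℕ) (q : ℕ → ℝ) (hq : ∀ j, 0 < q j) (z : ℝ) (hz : z ∉ Icc 0 (N : ℝ)) :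
    Tendsto (fun r : ℕ => G N q r z) atTop atTop := by
  have hd : 0 < Metric.infDist z (Icc 0 (N : ℝ)) :=
    (isClosed_Icc.notMem_iff_infDist_pos ⟨(0 : ℝ), left_mem_Icc.mpr N.cast_nonneg⟩).mp hz
  have h2 : Tendsto (fun r : ℕ => (r : ℝ) * Metric.infDist z (Icc 0 (N : ℝ)))
      atTop atTop := tendsto_natCast_atTop_atTop.atTop_mul_const hd
  refine tendsto_atTop_mono (fun r => ?_) h2
  unfold G
  have : 0 ≤ ∑ j ∈ Finset.range N, q j * max 0 (1 - r * Metric.infDist z (Icc (j : ℝ) (j + 1))) :=
    Finset.sum_nonneg fun j _ => mul_nonneg (hq j).le (le_max_left _ _)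
  linarith

/-- square root of the truncated staircase -/
noncomputable def Sr (N : ℕ) (q : ℕ → ℝ) (q0 : ℝ) (r : ℕ) (z : ℝ) : ℝ :=
  Real.sqrt (max 0 (G N q r z - q0 * (1 + z ^ 2) ^ 2))

theorem Sr_cont (N : ℕ) (q : ℕ → ℝ) (q0 : ℝ) (r : ℕ) : Continuous (Sr N q q0 r) := by
  unfold Sr
  refine Real.continuous_sqrt.comp (continuous_const.max ((G_cont N q r).sub ?_))
  fun_prop

end Weier

open Weier in
/-- Polynomials approximating the staircase with heights `q_j` on `(j, j+1)`, `j < N`. -/
theorem exists_approx (N : ℕ) (q : ℕ → ℝ) (hq : ∀ j, 0 < q j) :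
    ∃ Q : ℕ → ℝ[X], ∃ q0 : ℝ, (∀ r, Coer (Q r) q0) ∧
      ∀ E : ℝ, 0 < E → Tendsto (fun r => JJ (Q r) E) atTop
        (𝓝 (∑ j ∈ Finset.range N, 1 / (1 + E * q j))) := by
  -- lower bound for the heights
  set s : ℝ := (∑ j ∈ Finset.range N, 1 / q j) + 1 with hs
  have hs0 : ∀ j ∈ Finset.range N, 0 ≤ 1 / q j := fun j _ => by
    have := hq j
    positivity
  have hspos : 0 < s := by
    have := Finset.sum_nonneg hs0
    linarith
  set q0 : ℝ := s⁻¹ / (1 + (N : ℝ) ^ 2) ^ 2 with hq0
  have hq0pos : 0 < q0 := by positivity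
  have hlow : ∀ j < N, ∀ z ∈ Ioo (j : ℝ) (j + 1), q0 * (1 + z ^ 2) ^ 2 ≤ q j := by
    intro j hj z hz
    have h1 : 1 / q j ≤ s := by
      have := Finset.single_le_sum hs0 (Finset.mem_range.mpr hj)
      linarith
    have h2 : s⁻¹ ≤ q j := by
      rw [inv_le_comm₀ hspos (hq j), ← one_div]
      exact h1
    have h3 : z ^ 2 ≤ (N : ℝ) ^ 2 := by
      have h4 : (0 : ℝ) ≤ j := j.cast_nonneg
      have h5 : (j : ℝ) + 1 ≤ N := by exact_mod_cast hj
      exact pow_le_pow_left₀ (by linarith [hz.1]) (by linarith [hz.2]) 2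
    have h4 : (1 + z ^ 2) ^ 2 ≤ (1 + (N : ℝ) ^ 2) ^ 2 :=
      pow_le_pow_left₀ (by positivity) (by linarith) 2
    calc q0 * (1 + z ^ 2) ^ 2 ≤ q0 * (1 + (N : ℝ) ^ 2) ^ 2 :=
          mul_le_mul_of_nonneg_left h4 hq0pos.le
      _ = s⁻¹ := by
          rw [hq0]
          field_simp
      _ ≤ q j := h2
  have hex : ∀ r : ℕ, ∃ p : ℝ[X], ∀ x ∈ Icc (-(r : ℝ)) r,
      |p.eval x - Sr N q q0 r x| < 1 / ((r : ℝ) + 1) := fun r =>
    exists_polynomial_near_of_continuousOn _ _ _ (Sr_cont N q q0 r).continuousOn _ (by positivity)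
  choose p hp using hex
  have hQ : ∀ r (z : ℝ), (p r ^ 2 + C q0 * (1 + X ^ 2) ^ 2 : ℝ[X]).eval z =
      (p r).eval z ^ 2 + q0 * (1 + z ^ 2) ^ 2 := by
    intro r z
    simp
  refine ⟨fun r => p r ^ 2 + C q0 * (1 + X ^ 2) ^ 2, q0, fun r => ⟨hq0pos, fun z => ?_⟩,
    fun E hE => ?_⟩
  · rw [hQ]
    have := sq_nonneg ((p r).eval z)
    linarith
  · -- limit of the polynomials
    have hr0 : Tendsto (fun r : ℕ => 1 / ((r : ℝ) + 1)) atTop (𝓝 0) :=
      tendsto_one_div_add_atTop_nhds_zero_nat
    have hin : ∀ z : ℝ, ∀ᶠ r : ℕ in atTop, z ∈ Icc (-(r : ℝ)) r := by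
      intro z
      filter_upwards [tendsto_natCast_atTop_atTop.eventually_ge_atTop (|z|)] with r hr
      exact ⟨by linarith [neg_abs_le z], by linarith [le_abs_self z]⟩
    have lim_in : ∀ j < N, ∀ z ∈ Ioo (j : ℝ) (j + 1),
        Tendsto (fun r => (p r).eval z ^ 2 + q0 * (1 + z ^ 2) ^ 2) atTop (𝓝 (q j)) := by
      intro j hj z hz
      have h1 := hlow j hj z hz
      have h2 : Tendsto (fun r => (p r).eval z) atTop
          (𝓝 (Real.sqrt (q j - q0 * (1 + z ^ 2) ^ 2))) := by
        rw [tendsto_iff_norm_sub_tendsto_zero]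
        refine squeeze_zero' (Eventually.of_forall fun r => norm_nonneg _) ?_ hr0
        filter_upwards [hin z, G_in N q j hj z hz] with r h3 h4
        have h5 := hp r z h3
        have h6 : Sr N q q0 r z = Real.sqrt (q j - q0 * (1 + z ^ 2) ^ 2) := by
          unfold Sr
          rw [h4, max_eq_right (by linarith)]
        rw [h6] at h5
        exact h5.le
      have h3 := (h2.pow 2).add_const (q0 * (1 + z ^ 2) ^ 2)
      rw [Real.sq_sqrt (by linarith), sub_add_cancel] at h3
      exact h3
    have lim_out : ∀ z : ℝ, z ∉ Icc 0 (N : ℝ) →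
        Tendsto (fun r => (p r).eval z ^ 2 + q0 * (1 + z ^ 2) ^ 2) atTop atTop := by
      intro z hz
      have h1 := G_out N q hq z hz
      have h2 : Tendsto (fun r => Sr N q q0 r z) atTop atTop := by
        unfold Sr
        refine Real.tendsto_sqrt_atTop.comp ?_
        have h3 : Tendsto (fun r : ℕ => G N q r z - q0 * (1 + z ^ 2) ^ 2) atTop atTop :=
          tendsto_atTop_add_const_right _ _ h1
        exact tendsto_atTop_mono (fun r => le_max_right _ _) h3
      have h3 : Tendsto (fun r => (p r).eval z) atTop atTop := by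
        have h4 : Tendsto (fun r => Sr N q q0 r z - 1) atTop atTop :=
          tendsto_atTop_add_const_right _ _ h2
        refine tendsto_atTop_mono' _ ?_ h4
        filter_upwards [hin z] with r h5
        have h6 := hp r z h5
        have h7 : 1 / ((r : ℝ) + 1) ≤ 1 := by
          rw [div_le_one (by positivity)]
          have : (0 : ℝ) ≤ r := r.cast_nonneg
          linarith
        have h8 := (abs_lt.mp h6).1
        linarith
      have h4 : Tendsto (fun r => (p r).eval z ^ 2) atTop atTop :=
        (tendsto_pow_atTop two_ne_zero).comp h3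
      exact tendsto_atTop_add_const_right _ _ h4
    -- the limit function
    set f : ℝ → ℝ := fun z => ∑ j ∈ Finset.range N,
      (Ioo (j : ℝ) (j + 1)).indicator (fun _ => 1 / (1 + E * q j)) z with hf
    have hint : ∫ z, f z = ∑ j ∈ Finset.range N, 1 / (1 + E * q j) := by
      rw [hf, integral_finsetSum]
      · refine Finset.sum_congr rfl fun j _ => ?_
        rw [integral_indicator_const _ measurableSet_Ioo]
        simp [Measure.real, Real.volume_Ioo]
      · intro j _
        refine (integrable_indicator_iff measurableSet_Ioo).mpr ?_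
        refine integrableOn_const ?_
        rw [Real.volume_Ioo]
        exact ENNReal.ofReal_ne_top
    rw [← hint]
    unfold JJ
    refine tendsto_integral_of_dominated_convergence
      (fun z => 1 / (E * q0) * (1 + z ^ 2)⁻¹) ?_ (integrable_inv_one_add_sq.const_mul _) ?_ ?_
    · intro r
      refine Continuous.aestronglyMeasurable ?_
      refine continuous_const.div ?_ fun z => ?_
      · exact continuous_const.add (continuous_const.mul (Polynomial.continuous _))
      · rw [hQ]
        have h1 : 0 ≤ (p r).eval z ^ 2 := sq_nonneg _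
        positivity
    · intro r
      refine Eventually.of_forall fun z => ?_
      show ‖1 / (1 + E * (p r ^ 2 + C q0 * (1 + X ^ 2) ^ 2 : ℝ[X]).eval z)‖ ≤ _
      rw [hQ]
      have h1 : 0 ≤ (p r).eval z ^ 2 := sq_nonneg _
      have h2 : 0 < 1 + E * ((p r).eval z ^ 2 + q0 * (1 + z ^ 2) ^ 2) := by positivity
      rw [Real.norm_eq_abs, abs_of_pos (by positivity), ← one_div (1 + z ^ 2),
        one_div_mul_one_div]
      apply one_div_le_one_div_of_le (by positivity)
      have h3 : 1 + z ^ 2 ≤ (1 + z ^ 2) ^ 2 := by nlinarith [sq_nonneg z, sq_nonneg (z ^ 2)]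
      have h4 : E * q0 * (1 + z ^ 2) ≤ E * q0 * (1 + z ^ 2) ^ 2 :=
        mul_le_mul_of_nonneg_left h3 (by positivity)
      have h5 : 0 ≤ E * (p r).eval z ^ 2 := by positivity
      nlinarith
    · have hae : ∀ᵐ z : ℝ, z ∉ Set.range (fun n : ℕ => (n : ℝ)) := by
        rw [ae_iff]
        have : {z : ℝ | ¬ z ∉ Set.range (fun n : ℕ => (n : ℝ))} =
            Set.range (fun n : ℕ => (n : ℝ)) := by
          ext z
          simp
        rw [this]
        exact (Set.countable_range _).measure_zero _
      filter_upwards [hae] with z hz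
      show Tendsto (fun r => 1 / (1 + E * (p r ^ 2 + C q0 * (1 + X ^ 2) ^ 2 : ℝ[X]).eval z))
        atTop (𝓝 (f z))
      have e0 : (fun r => 1 / (1 + E * (p r ^ 2 + C q0 * (1 + X ^ 2) ^ 2 : ℝ[X]).eval z)) =
          fun r => 1 / (1 + E * ((p r).eval z ^ 2 + q0 * (1 + z ^ 2) ^ 2)) := by
        funext r
        rw [hQ]
      rw [e0]
      by_cases hzN : z ∈ Icc 0 (N : ℝ)
      · -- inside
        obtain ⟨h0, hN⟩ := hzN
        set j := ⌊z⌋₊ with hj
        have h1 : (j : ℝ) ≤ z := Nat.floor_le h0
        have h2 : z < j + 1 := Nat.lt_floor_add_one z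
        have h3 : (j : ℝ) ≠ z := fun h => hz ⟨j, h⟩
        have h4 : (j : ℝ) < z := lt_of_le_of_ne h1 h3
        have h5 : j < N := by
          have : (j : ℝ) < N := lt_of_lt_of_le h4 hN
          exact_mod_cast this
        have hzj : z ∈ Ioo (j : ℝ) (j + 1) := ⟨h4, h2⟩
        have h6 : f z = 1 / (1 + E * q j) := by
          rw [hf]
          show ∑ i ∈ Finset.range N,
            (Ioo (i : ℝ) (i + 1)).indicator (fun _ => 1 / (1 + E * q i)) z = _
          rw [Finset.sum_eq_single j]
          · rw [indicator_of_mem hzj]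
          · intro i _ hij
            rw [indicator_of_notMem]
            intro h
            rcases lt_or_gt_of_ne hij with h7 | h7
            · have : (i : ℝ) + 1 ≤ j := by exact_mod_cast h7
              linarith [h.2, hzj.1]
            · have : (j : ℝ) + 1 ≤ i := by exact_mod_cast h7
              linarith [h.1, hzj.2]
          · intro h
            exact absurd (Finset.mem_range.mpr h5) h
        rw [h6]
        have h7 := ((lim_in j h5 z hzj).const_mul E).const_add 1
        have h8 : 1 + E * q j ≠ 0 := by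
          have := hq j
          positivity
        exact tendsto_const_nhds.div h7 h8
      · have h6 : f z = 0 := by
          rw [hf]
          show ∑ i ∈ Finset.range N,
            (Ioo (i : ℝ) (i + 1)).indicator (fun _ => 1 / (1 + E * q i)) z = _
          refine Finset.sum_eq_zero fun i hi => ?_
          rw [indicator_of_notMem]
          intro h
          apply hzN
          have h7 : (0 : ℝ) ≤ i := i.cast_nonneg
          have h8 : (i : ℝ) + 1 ≤ N := by exact_mod_cast Finset.mem_range.mp hi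
          exact ⟨by linarith [h.1], by linarith [h.2]⟩
        rw [h6]
        have h7 : Tendsto (fun r => 1 + E * ((p r).eval z ^ 2 + q0 * (1 + z ^ 2) ^ 2))
            atTop atTop :=
          tendsto_atTop_add_const_left _ _ ((lim_out z hzN).const_mul_atTop hE)
        simp only [one_div]
        exact tendsto_inv_atTop_zero.comp h7

end Pool.Agent.CritPer.L
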